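import Pool.Agent.Lib.MP_85963d_gt.H70.Cormack

/-!
# MP_85963d_gt: the numbers `N_k(D)` ; independence of the cut (10.7) ; limits
-/

set_option autoImplicit false

open MeasureTheory Set Filter Topology Real

namespace Pool.Agent.Lib.MP_85963d_gt.H70

/-- the defect `2 D(s)` of `G` cut at `b` -/
noncomputable def DD (ω : ℝ → ℝ → ℝ) (b : ℝ) (G : ℝ → ℝ) (s : ℝ) : ℝ :=
  ∫ X in Ioo 0 b, G X * (cker X s * ω X (s - X))

/-- `2 N_k(D)`, `j = (k+2)/2` -/
noncomputable def NN (y0 b : ℝ) (j : ℕ) (D : ℝ → ℝ) : ℝ :=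
  ∫ s in Ioi b, 1 / s ^ j * √(s + y0) * D s

/-- a weight which is measurable and decays like `Y^{-1/2}` -/
structure WOK (b C : ℝ) (ω : ℝ → ℝ → ℝ) : Prop where
  meas : Measurable (Function.uncurry ω)
  bd : ∀ X ∈ Ioo 0 b, ∀ Y, 0 < Y → |ω X Y| ≤ C / √(1 + Y)

/-- a function on `(0,b)` -/
structure GOK (b C : ℝ) (G : ℝ → ℝ) : Prop where
  meas : AEStronglyMeasurable G (volume.restrict (Ioo 0 b))
  bd : ∀ X ∈ Ioo 0 b, |G X| ≤ C / √X

/-- the power `x ^ (1/4)` -/
noncomputable def rt4 (x : ℝ) : ℝ := √√x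

lemma rt4_sq {x : ℝ} : rt4 x ^ 2 = √x := Real.sq_sqrt (Real.sqrt_nonneg x)

lemma rt4_pos {x : ℝ} (hx : 0 < x) : 0 < rt4 x := Real.sqrt_pos.2 (Real.sqrt_pos.2 hx)

lemma rt4_nonneg (x : ℝ) : 0 ≤ rt4 x := Real.sqrt_nonneg _

lemma measurable_rt4 : Measurable rt4 := by
  unfold rt4
  fun_prop

lemma rt4_eq_rpow {x : ℝ} (hx : 0 ≤ x) : rt4 x = x ^ ((1 : ℝ) / 4) := by
  unfold rt4
  rw [Real.sqrt_eq_rpow, Real.sqrt_eq_rpow, ← Real.rpow_mul hx]
  norm_num

/-- `√(A+B) ≥ A^{1/4} B^{1/4}` -/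
lemma sqrt_add_ge {A B : ℝ} (hA : 0 ≤ A) (hB : 0 ≤ B) : rt4 A * rt4 B ≤ √(A + B) := by
  unfold rt4
  rw [← Real.sqrt_mul (Real.sqrt_nonneg A), ← Real.sqrt_mul hA]
  apply Real.sqrt_le_sqrt
  rw [Real.sqrt_le_left (by positivity)]
  nlinarith [mul_nonneg hA hB]

/-- the dominating function in `X` -/
lemma dom_X {b : ℝ} (hb : 0 < b) :
    IntegrableOn (fun X => 1 / (√X * rt4 (b - X))) (Ioo 0 b) := by
  -- split in the middle
  have h1 : IntegrableOn (fun X : ℝ => X ^ (-(1 / 2) : ℝ)) (Ioo 0 b) := by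
    have := (intervalIntegral.intervalIntegrable_rpow' (a := 0) (b := b)
      (by norm_num : (-1 : ℝ) < -(1 / 2))).1
    exact this.mono_set Ioo_subset_Ioc_self
  have h2 : IntegrableOn (fun X : ℝ => (b - X) ^ (-(1 / 2) : ℝ)) (Ioo 0 b) := by
    have := (intervalIntegral.intervalIntegrable_rpow' (a := 0) (b := b)
      (by norm_num : (-1 : ℝ) < -(1 / 2)))
    have h3 := this.comp_sub_left b
    simp only [sub_zero, sub_self] at h3
    exact h3.symm.1.mono_set Ioo_subset_Ioc_self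
  refine Integrable.mono' ((h1.const_mul (1 / rt4 (b / 2))).add
    ((h1.add h2).const_mul (1 / rt4 (b / 2) + 1 / √(b / 2) * rt4 b))) ?_ ?_
  · have : Measurable fun X => 1 / (√X * rt4 (b - X)) := by
      have := measurable_rt4
      fun_prop
    exact this.aestronglyMeasurable
  · filter_upwards [ae_restrict_mem measurableSet_Ioo] with X hX
    have hX0 : 0 < X := hX.1
    have hXb : 0 < b - X := sub_pos.2 hX.2
    have hs : 0 < √X := Real.sqrt_pos.2 hX0
    have hs' : 0 < √(b - X) := Real.sqrt_pos.2 hXb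
    have hq : 0 < rt4 (b - X) := rt4_pos hXb
    have hq2 : 0 < rt4 (b / 2) := rt4_pos (by linarith)
    have hq3 : 0 < √(b / 2) := Real.sqrt_pos.2 (by linarith)
    have e1 : X ^ (-(1 / 2) : ℝ) = 1 / √X := by
      rw [Real.rpow_neg hX0.le, ← Real.sqrt_eq_rpow, one_div]
    have e2 : (b - X) ^ (-(1 / 2) : ℝ) = 1 / √(b - X) := by
      rw [Real.rpow_neg hXb.le, ← Real.sqrt_eq_rpow, one_div]
    rw [Real.norm_of_nonneg (by positivity)]
    simp only [Pi.add_apply, e1, e2]
    have hqb := rt4_nonneg b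
    have hpos1 : 0 ≤ 1 / rt4 (b / 2) * (1 / √X) := by positivity
    rcases le_total X (b / 2) with h | h
    · have h3 : rt4 (b / 2) ≤ rt4 (b - X) := by
        unfold rt4
        exact Real.sqrt_le_sqrt (Real.sqrt_le_sqrt (by linarith))
      calc 1 / (√X * rt4 (b - X)) ≤ 1 / (√X * rt4 (b / 2)) := by gcongr
        _ = 1 / rt4 (b / 2) * (1 / √X) := by field_simp
        _ ≤ _ := by
          have : 0 ≤ (1 / rt4 (b / 2) + 1 / √(b / 2) * rt4 b) * (1 / √X + 1 / √(b - X)) := by
            positivity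
          linarith
    · have h3 : √(b / 2) ≤ √X := Real.sqrt_le_sqrt h
      have h4 : 1 / rt4 (b - X) ≤ rt4 b * (1 / √(b - X)) := by
        rw [← rt4_sq (x := b - X)]
        have h5 : rt4 (b - X) ≤ rt4 b := by
          unfold rt4
          exact Real.sqrt_le_sqrt (Real.sqrt_le_sqrt (by linarith))
        rw [div_le_iff₀ hq]
        calc (1 : ℝ) ≤ rt4 b * (1 / rt4 (b - X)) := by
              rw [mul_one_div, one_le_div hq]
              exact h5
          _ = rt4 b * (1 / rt4 (b - X) ^ 2) * rt4 (b - X) := by field_simp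
      calc 1 / (√X * rt4 (b - X)) = 1 / √X * (1 / rt4 (b - X)) := by field_simp
        _ ≤ 1 / √(b / 2) * (rt4 b * (1 / √(b - X))) := by gcongr
        _ = (1 / √(b / 2) * rt4 b) * (1 / √(b - X)) := by ring
        _ ≤ (1 / rt4 (b / 2) + 1 / √(b / 2) * rt4 b) * (1 / √X + 1 / √(b - X)) := by
          gcongr
          · have : 0 < 1 / rt4 (b / 2) := by positivity
            linarith
          · have : 0 < 1 / √X := by positivity
            linarith
        _ ≤ _ := by linarith

/-- pointwise bound of the integrand of `DD` -/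
lemma DD_integrand_le {b C CG : ℝ} (hC : 0 ≤ C) (hCG : 0 ≤ CG) {ω : ℝ → ℝ → ℝ} {G : ℝ → ℝ}
    (hω : ∀ X ∈ Ioo 0 b, ∀ Y, 0 < Y → |ω X Y| ≤ C / √(1 + Y))
    (hG : ∀ X ∈ Ioo 0 b, |G X| ≤ CG / √X) {s : ℝ} (hs : b < s) {X : ℝ} (hX : X ∈ Ioo 0 b) :
    |G X * (cker X s * ω X (s - X))| ≤
      (CG * C) * (1 / (rt4 (s - b) * √(1 + (s - b)))) * (1 / (√X * rt4 (b - X))) := by
  have hX0 : 0 < X := hX.1
  have hXb : 0 < b - X := sub_pos.2 hX.2
  have hXs : X < s := hX.2.trans hs
  have hsb : 0 < s - b := sub_pos.2 hs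
  have h1 := hG X hX
  have h2 := cker_abs hX0 hXs
  have h3 := hω X hX (s - X) (sub_pos.2 hXs)
  have hs1 : 0 < √X := Real.sqrt_pos.2 hX0
  have hs2 : 0 < √(s - X) := Real.sqrt_pos.2 (sub_pos.2 hXs)
  have hs3 : 0 < √(1 + (s - X)) := Real.sqrt_pos.2 (by linarith)
  have hs4 : 0 < √(1 + (s - b)) := Real.sqrt_pos.2 (by linarith)
  have h4 : rt4 (s - b) * rt4 (b - X) ≤ √(s - X) := by
    have := sqrt_add_ge hsb.le hXb.le
    rwa [show s - b + (b - X) = s - X by ring] at this
  have h5 : √(1 + (s - b)) ≤ √(1 + (s - X)) := Real.sqrt_le_sqrt (by linarith)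
  have hq1 := rt4_pos hsb
  have hq2 := rt4_pos hXb
  rw [abs_mul, abs_mul]
  calc |G X| * (|cker X s| * |ω X (s - X)|)
      ≤ (CG / √X) * ((1 / √(s - X)) * (C / √(1 + (s - X)))) := by gcongr
    _ ≤ (CG / √X) * ((1 / (rt4 (s - b) * rt4 (b - X))) * (C / √(1 + (s - b)))) := by gcongr
    _ = _ := by field_simp

lemma meas_int {b C CG : ℝ} {ω : ℝ → ℝ → ℝ} {G : ℝ → ℝ} (hω : WOK b C ω) (hG : GOK b CG G)
    (μ : Measure ℝ) [SFinite μ] :
    AEStronglyMeasurable (fun p : ℝ × ℝ => G p.2 * (cker p.2 p.1 * ω p.2 (p.1 - p.2)))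
      (μ.prod (volume.restrict (Ioo 0 b))) := by
  have h1 : Measurable fun p : ℝ × ℝ => cker p.2 p.1 * ω p.2 (p.1 - p.2) := by
    apply Measurable.mul
    · exact meas_cker.comp measurable_swap
    · exact hω.meas.comp (measurable_snd.prodMk (measurable_fst.sub measurable_snd))
  exact hG.meas.comp_snd.mul h1.aestronglyMeasurable

lemma DD_meas {b C CG : ℝ} {ω : ℝ → ℝ → ℝ} {G : ℝ → ℝ} (hω : WOK b C ω) (hG : GOK b CG G)
    (μ : Measure ℝ) [SFinite μ] : AEStronglyMeasurable (DD ω b G) μ :=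
  (meas_int hω hG μ).integral_prod_right'

lemma DD_integrable {b C CG : ℝ} (hb : 0 < b) (hC : 0 ≤ C) (hCG : 0 ≤ CG)
    {ω : ℝ → ℝ → ℝ} {G : ℝ → ℝ} (hω : WOK b C ω) (hG : GOK b CG G) {s : ℝ} (hs : b < s) :
    IntegrableOn (fun X => G X * (cker X s * ω X (s - X))) (Ioo 0 b) := by
  refine Integrable.mono' ((dom_X hb).const_mul
    ((CG * C) * (1 / (rt4 (s - b) * √(1 + (s - b)))))) ?_ ?_
  · have h1 : Measurable fun X : ℝ => cker X s * ω X (s - X) := by
      apply Measurable.mul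
      · exact meas_cker.comp (measurable_id.prodMk measurable_const)
      · exact hω.meas.comp (measurable_id.prodMk (measurable_const.sub measurable_id))
    exact hG.meas.mul h1.aestronglyMeasurable
  · filter_upwards [ae_restrict_mem measurableSet_Ioo] with X hX
    exact DD_integrand_le hC hCG hω.bd hG.bd hs hX

lemma DD_le {b C CG : ℝ} (hb : 0 < b) (hC : 0 ≤ C) (hCG : 0 ≤ CG)
    {ω : ℝ → ℝ → ℝ} {G : ℝ → ℝ} (hω : WOK b C ω) (hG : GOK b CG G) {s : ℝ} (hs : b < s) :
    |DD ω b G s| ≤ (CG * C) * (∫ X in Ioo 0 b, 1 / (√X * rt4 (b - X))) *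
      (1 / (rt4 (s - b) * √(1 + (s - b)))) := by
  calc |DD ω b G s| ≤ ∫ X in Ioo 0 b, |G X * (cker X s * ω X (s - X))| :=
        abs_integral_le_integral_abs
    _ ≤ ∫ X in Ioo 0 b, (CG * C) * (1 / (rt4 (s - b) * √(1 + (s - b)))) *
          (1 / (√X * rt4 (b - X))) := by
        apply setIntegral_mono_on (DD_integrable hb hC hCG hω hG hs).abs
          ((dom_X hb).const_mul _) measurableSet_Ioo
        intro X hX
        exact DD_integrand_le hC hCG hω.bd hG.bd hs hX
    _ = _ := by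
        rw [integral_const_mul]
        ring

/-- the dominating function in `s` -/
lemma dom_s (b : ℝ) :
    IntegrableOn (fun s => 1 / (rt4 (s - b) * (1 + (s - b)))) (Ioi b) := by
  have h0 : IntegrableOn (fun u : ℝ => 1 / (rt4 u * (1 + u))) (Ioi 0) := by
    rw [← Ioc_union_Ioi_eq_Ioi (zero_le_one : (0 : ℝ) ≤ 1)]
    have hm : Measurable fun u : ℝ => 1 / (rt4 u * (1 + u)) := by
      have := measurable_rt4
      fun_prop
    apply IntegrableOn.union
    · have h1 : IntegrableOn (fun X : ℝ => X ^ (-(1 / 4) : ℝ)) (Ioc 0 1) :=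
        (intervalIntegral.intervalIntegrable_rpow' (a := 0) (b := 1)
          (by norm_num : (-1 : ℝ) < -(1 / 4))).1
      refine Integrable.mono' h1 hm.aestronglyMeasurable ?_
      filter_upwards [ae_restrict_mem measurableSet_Ioc] with u hu
      have hu0 : 0 < u := hu.1
      have hq := rt4_pos hu0
      rw [Real.norm_of_nonneg (by positivity), Real.rpow_neg hu0.le, ← rt4_eq_rpow hu0.le,
        ← one_div]
      gcongr
      nlinarith
    · have h1 : IntegrableOn (fun X : ℝ => X ^ (-(5 / 4) : ℝ)) (Ioi 1) :=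
        integrableOn_Ioi_rpow_of_lt (by norm_num) one_pos
      refine Integrable.mono' h1 hm.aestronglyMeasurable ?_
      filter_upwards [ae_restrict_mem measurableSet_Ioi] with u hu
      have hu1 : 1 < u := hu
      have hu0 : 0 < u := by linarith
      have hq := rt4_pos hu0
      rw [Real.norm_of_nonneg (by positivity), Real.rpow_neg hu0.le,
        show (5 / 4 : ℝ) = 1 / 4 + 1 by norm_num, Real.rpow_add hu0, ← rt4_eq_rpow hu0.le,
        Real.rpow_one, ← one_div]
      gcongr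
      linarith
  have h1 := (measurePreserving_sub_right (volume : Measure ℝ) b).integrableOn_comp_preimage
    (measurableEmbedding_subRight b) (f := fun u : ℝ => 1 / (rt4 u * (1 + u))) (s := Ioi 0)
  have h2 : (fun x : ℝ => x - b) ⁻¹' Ioi 0 = Ioi b := by
    ext x
    simp
  rw [h2] at h1
  exact h1.2 h0

/-- `√(s+y₀)/s^j` is bounded by `C/√(1+s-b)` -/
lemma wt_le {y0 b : ℝ} (hb : 0 < b) (hy : 0 < b + y0) {j : ℕ} (hj : 1 ≤ j) :
    ∃ C : ℝ, 0 ≤ C ∧ ∀ s, b < s → 1 / s ^ j * √(s + y0) ≤ C / √(1 + (s - b)) := by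
  refine ⟨1 / b ^ (j - 1) * ((1 + 1 / b) * √(1 + (b + y0))), by positivity, fun s hs => ?_⟩
  have hs0 : 0 < s := hb.trans hs
  have hsb : 0 < s - b := sub_pos.2 hs
  have hs4 : 0 < √(1 + (s - b)) := Real.sqrt_pos.2 (by linarith)
  have h1 : √(s + y0) ≤ √(1 + (s - b)) * √(1 + (b + y0)) := by
    rw [← Real.sqrt_mul (by linarith)]
    apply Real.sqrt_le_sqrt
    nlinarith
  have h2 : 1 + (s - b) ≤ (1 + 1 / b) * s := by
    have : (1 + 1 / b) * s = s + s / b := by ring
    rw [this]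
    have : 1 ≤ s / b := by rw [one_le_div hb]; exact hs.le
    linarith
  have h3 : 1 / s ^ j ≤ 1 / b ^ (j - 1) * (1 / s) := by
    have e : s ^ j = s ^ (j - 1) * s := by rw [← pow_succ]; congr 1; omega
    rw [e, one_div_mul_one_div]
    apply one_div_le_one_div_of_le (by positivity)
    gcongr
  have h4 : 1 / s ≤ (1 + 1 / b) / (1 + (s - b)) := by
    rw [div_le_div_iff₀ hs0 (by linarith)]
    linarith
  have h5 : √(1 + (s - b)) ^ 2 = 1 + (s - b) := Real.sq_sqrt (by linarith)
  calc 1 / s ^ j * √(s + y0)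
      ≤ (1 / b ^ (j - 1) * ((1 + 1 / b) / (1 + (s - b)))) *
        (√(1 + (s - b)) * √(1 + (b + y0))) := by
        gcongr
        exact h3.trans (by gcongr)
    _ = _ := by
        nth_rewrite 1 [← h5]
        field_simp

lemma NN_integrable {y0 b C CG : ℝ} (hb : 0 < b) (hy : 0 < b + y0) (hC : 0 ≤ C) (hCG : 0 ≤ CG)
    {ω : ℝ → ℝ → ℝ} {G : ℝ → ℝ} (hω : WOK b C ω) (hG : GOK b CG G) {j : ℕ} (hj : 1 ≤ j) :
    IntegrableOn (fun s => 1 / s ^ j * √(s + y0) * DD ω b G s) (Ioi b) := by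
  obtain ⟨C1, hC1, hw⟩ := wt_le hb hy hj
  refine Integrable.mono' ((dom_s b).const_mul
    (C1 * ((CG * C) * (∫ X in Ioo 0 b, 1 / (√X * rt4 (b - X)))))) ?_ ?_
  · have h1 : Measurable fun s : ℝ => 1 / s ^ j * √(s + y0) := by fun_prop
    exact h1.aestronglyMeasurable.mul (DD_meas hω hG _)
  · filter_upwards [ae_restrict_mem measurableSet_Ioi] with s hs
    have hs' : b < s := hs
    have hsb : 0 < s - b := sub_pos.2 hs'
    have hs0 : 0 < s := hb.trans hs'
    have h1 := hw s hs'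
    have h2 := DD_le hb hC hCG hω hG hs'
    have h5 : √(1 + (s - b)) ^ 2 = 1 + (s - b) := Real.sq_sqrt (by linarith)
    have hs4 : 0 < √(1 + (s - b)) := Real.sqrt_pos.2 (by linarith)
    have hq := rt4_pos hsb
    have hI : 0 ≤ ∫ X in Ioo 0 b, 1 / (√X * rt4 (b - X)) := by
      apply setIntegral_nonneg measurableSet_Ioo
      intro X hX
      have := rt4_nonneg (b - X)
      positivity
    rw [Real.norm_eq_abs, abs_mul, abs_of_nonneg (by positivity : 0 ≤ 1 / s ^ j * √(s + y0))]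
    calc 1 / s ^ j * √(s + y0) * |DD ω b G s|
        ≤ (C1 / √(1 + (s - b))) * ((CG * C) * (∫ X in Ioo 0 b, 1 / (√X * rt4 (b - X))) *
      (1 / (rt4 (s - b) * √(1 + (s - b))))) := by gcongr
      _ = _ := by
        generalize √(1 + (s - b)) = r at h5 hs4
        rw [← h5]
        field_simp

lemma WOK.mono {b b' C : ℝ} {ω : ℝ → ℝ → ℝ} (h : WOK b C ω) (hb : b' ≤ b) : WOK b' C ω :=
  ⟨h.meas, fun X hX Y hY => h.bd X ⟨hX.1, hX.2.trans_le hb⟩ Y hY⟩

lemma GOK.mono {b b' C : ℝ} {G : ℝ → ℝ} (h : GOK b C G) (hb : b' ≤ b) : GOK b' C G :=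
  ⟨h.meas.mono_measure (Measure.restrict_mono (Ioo_subset_Ioo_right hb) le_rfl),
    fun X hX => h.bd X ⟨hX.1, hX.2.trans_le hb⟩⟩

/-- `1/√(s-X)` is integrable on `(H,s)` -/
lemma int_inv_sqrt (H s : ℝ) : IntegrableOn (fun X => 1 / √(s - X)) (Ioo H s) := by
  rcases le_total s H with h | h
  · rw [Ioo_eq_empty (not_lt.2 h)]
    exact integrableOn_empty
  have := (intervalIntegral.intervalIntegrable_rpow' (a := 0) (b := s - H)
      (by norm_num : (-1 : ℝ) < -(1 / 2)))
  have h3 := this.comp_sub_left s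
  simp only [sub_zero, sub_sub_cancel] at h3
  have h4 : IntegrableOn (fun X : ℝ => (s - X) ^ (-(1 / 2) : ℝ)) (Ioo H s) :=
    h3.symm.1.mono_set Ioo_subset_Ioc_self
  refine h4.congr_fun (fun X hX => ?_) measurableSet_Ioo
  have hXb : 0 < s - X := sub_pos.2 hX.2
  simp only
  rw [Real.rpow_neg hXb.le, ← Real.sqrt_eq_rpow, one_div]

/-- the value of `N_k` does not depend on where the cap is cut (10.7) -/
theorem indep {y0 H b C CG : ℝ} (hH : 0 < H) (hHb : H < b) (hy : 0 < H + y0) (hC : 0 ≤ C)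
    (hCG : 0 ≤ CG) {ω : ℝ → ℝ → ℝ} {G A : ℝ → ℝ} (hω : WOK b C ω) (hG : GOK b CG G)
    (hcap : ∀ X ∈ Ioo H b, ∀ Y, 0 < Y → ω X Y = A X / √(X + Y + y0))
    (hT : ∀ᵐ s : ℝ, s ∈ Ioo H b → ∫ X in Ioo 0 s, G X * (cker X s * ω X (s - X)) = 0)
    {j : ℕ} (hj : j = 1 ∨ j = 2) :
    NN y0 H j (DD ω H G) = NN y0 b j (DD ω b G) := by
  have hb : 0 < b := hH.trans hHb
  have hj1 : 1 ≤ j := by omega
  set A' : ℝ → ℝ := fun X => ω X 1 * √(X + 1 + y0) with hA'
  have hAm : Measurable A' := by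
    apply Measurable.mul
    · exact hω.meas.comp (measurable_id.prodMk measurable_const)
    · fun_prop
  have hAA : ∀ X ∈ Ioo H b, A' X = A X := by
    intro X hX
    have : 0 < √(X + 1 + y0) := Real.sqrt_pos.2 (by linarith [hX.1])
    rw [hA']
    simp only
    rw [hcap X hX 1 one_pos]
    field_simp
  have hAb : ∀ X ∈ Ioo H b, |A' X| ≤ C * √(b + 1 + y0) := by
    intro X hX
    rw [hA']
    simp only
    rw [abs_mul, abs_of_nonneg (Real.sqrt_nonneg _)]
    have h1 := hω.bd X ⟨hH.trans hX.1, hX.2⟩ 1 one_pos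
    have h2 : C / √(1 + 1) ≤ C := by
      apply div_le_self hC
      rw [Real.one_le_sqrt]
      norm_num
    have h3 : √(X + 1 + y0) ≤ √(b + 1 + y0) := Real.sqrt_le_sqrt (by linarith [hX.2])
    have h4 := h1.trans h2
    gcongr
  set h : ℝ → ℝ := (Ioo H b).indicator fun X => A' X * G X with hh
  have hAG : ∀ X ∈ Ioo H b, |A' X * G X| ≤ C * √(b + 1 + y0) * (CG / √H) := by
    intro X hX
    rw [abs_mul]
    have h1 := hAb X hX
    have h2 := hG.bd X ⟨hH.trans hX.1, hX.2⟩
    have h3 : CG / √X ≤ CG / √H := by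
      have : 0 < √H := Real.sqrt_pos.2 hH
      have h5 : √H ≤ √X := Real.sqrt_le_sqrt hX.1.le
      gcongr
    have h4 := h2.trans h3
    gcongr
  have hGm : AEStronglyMeasurable G (volume.restrict (Ioo H b)) :=
    hG.meas.mono_measure (Measure.restrict_mono (Ioo_subset_Ioo_left hH.le) le_rfl)
  have hi : IntegrableOn (fun X => h X / √X) (Ioi H) := by
    apply Integrable.integrableOn
    have e : (fun X => h X / √X) = (Ioo H b).indicator fun X => A' X * G X / √X := by
      ext X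
      rw [hh]
      simp only [indicator]
      split_ifs
      · rfl
      · simp
    rw [e, integrable_indicator_iff measurableSet_Ioo]
    have hf : IntegrableOn (fun _ : ℝ => C * √(b + 1 + y0) * (CG / √H) / √H) (Ioo H b) :=
      integrableOn_const (by simp) (by simp)
    refine Integrable.mono' hf ?_ ?_
    · have h1 : Measurable fun X : ℝ => 1 / √X := by fun_prop
      refine ((hAm.aestronglyMeasurable.mul hGm).mul h1.aestronglyMeasurable).congr
        (Eventually.of_forall fun X => ?_)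
      simp only [Pi.mul_apply]
      ring
    · filter_upwards [ae_restrict_mem measurableSet_Ioo] with X hX
      have hsH : 0 < √H := Real.sqrt_pos.2 hH
      have h5 : √H ≤ √X := Real.sqrt_le_sqrt hX.1.le
      have h6 := hAG X hX
      rw [Real.norm_eq_abs, abs_div, abs_of_nonneg (Real.sqrt_nonneg X)]
      gcongr
  obtain ⟨hc1, hc2⟩ := cormack hH hi hj
  have hN := NN_integrable hH hy hC hCG (hω.mono hHb.le) (hG.mono hHb.le) hj1
  have key : ∀ᵐ s : ℝ, s ∈ Ioi H → 1 / s ^ j * √(s + y0) * DD ω H G s +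
      1 / s ^ j * ∫ X in Ioo H s, cker X s * h X =
      (Ioi b).indicator (fun s => 1 / s ^ j * √(s + y0) * DD ω b G s) s := by
    have hne : ∀ᵐ s : ℝ, s ≠ b := by
      rw [ae_iff]
      simp
    filter_upwards [hT, hne] with s hs hsb hsH
    have hsH' : H < s := hsH
    have hsq : 0 < √(s + y0) := Real.sqrt_pos.2 (by linarith)
    -- rewriting the integrand
    have e1 : ∀ X ∈ Ioo H b, X < s → G X * (cker X s * ω X (s - X)) =
        (1 / √(s + y0)) * (cker X s * h X) := by
      intro X hX hXs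
      rw [hcap X hX _ (sub_pos.2 hXs), hh, indicator_of_mem hX, hAA X hX,
        show X + (s - X) + y0 = s + y0 by ring]
      ring
    rcases lt_or_gt_of_ne hsb with hlt | hgt
    · -- H < s < b
      have hnot : s ∉ Ioi b := notMem_Ioi.2 hlt.le
      rw [indicator_of_notMem hnot]
      have h0 := hs ⟨hsH', hlt⟩
      have hI1 := DD_integrable hH hC hCG (hω.mono hHb.le) (hG.mono hHb.le) hsH'
      have hI2 : IntegrableOn (fun X => G X * (cker X s * ω X (s - X))) (Ioo H s) := by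
        refine Integrable.mono' ((int_inv_sqrt H s).const_mul (CG / √H * C)) ?_ ?_
        · have h1 : Measurable fun X : ℝ => cker X s * ω X (s - X) := by
            apply Measurable.mul
            · exact meas_cker.comp (measurable_id.prodMk measurable_const)
            · exact hω.meas.comp (measurable_id.prodMk (measurable_const.sub measurable_id))
          have h2 : AEStronglyMeasurable G (volume.restrict (Ioo H s)) :=
            hGm.mono_measure (Measure.restrict_mono (Ioo_subset_Ioo_right hlt.le) le_rfl)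
          exact h2.mul h1.aestronglyMeasurable
        · filter_upwards [ae_restrict_mem measurableSet_Ioo] with X hX
          have hX0 : 0 < X := hH.trans hX.1
          have h1 := hG.bd X ⟨hX0, hX.2.trans hlt⟩
          have h2 := cker_abs hX0 hX.2
          have h3 := hω.bd X ⟨hX0, hX.2.trans hlt⟩ (s - X) (sub_pos.2 hX.2)
          have hs1 : 0 < √H := Real.sqrt_pos.2 hH
          have hs2 : √H ≤ √X := Real.sqrt_le_sqrt hX.1.le
          have h4 : C / √(1 + (s - X)) ≤ C := by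
            apply div_le_self hC
            rw [Real.one_le_sqrt]
            linarith [hX.2]
          have h5 : CG / √X ≤ CG / √H := by gcongr
          rw [Real.norm_eq_abs, abs_mul, abs_mul]
          calc |G X| * (|cker X s| * |ω X (s - X)|)
              ≤ (CG / √H) * ((1 / √(s - X)) * C) := by
                have := h1.trans h5
                have := h3.trans h4
                gcongr
            _ = CG / √H * C * (1 / √(s - X)) := by ring
      have hsplit : ∫ X in Ioo 0 s, G X * (cker X s * ω X (s - X)) =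
          DD ω H G s + ∫ X in Ioo H s, G X * (cker X s * ω X (s - X)) := by
        have hu : Ioo 0 s =ᵐ[volume] (Ioo 0 H ∪ Ioo H s : Set ℝ) := by
          have h1 : Ioc 0 H ∪ Ioo H s = Ioo 0 s := Ioc_union_Ioo_eq_Ioo hH.le hsH'
          rw [← h1]
          exact Ioo_ae_eq_Ioc.symm.union (ae_eq_refl _)
        rw [setIntegral_congr_set hu, setIntegral_union _ measurableSet_Ioo hI1 hI2]
        · rfl
        · rw [Set.disjoint_left]
          intro x hx hx'
          exact absurd hx.2 (not_lt.2 hx'.1.le)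
      have e2 : ∫ X in Ioo H s, G X * (cker X s * ω X (s - X)) =
          (1 / √(s + y0)) * ∫ X in Ioo H s, cker X s * h X := by
        rw [← integral_const_mul]
        apply setIntegral_congr_fun measurableSet_Ioo
        intro X hX
        exact e1 X ⟨hX.1, hX.2.trans hlt⟩ hX.2
      rw [hsplit, e2] at h0
      have h7 : √(s + y0) * (DD ω H G s + 1 / √(s + y0) * ∫ X in Ioo H s, cker X s * h X) =
          √(s + y0) * DD ω H G s + ∫ X in Ioo H s, cker X s * h X := by
        field_simp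
      rw [h0, mul_zero] at h7
      calc _ = 1 / s ^ j * (√(s + y0) * DD ω H G s + ∫ X in Ioo H s, cker X s * h X) := by ring
        _ = 0 := by rw [← h7, mul_zero]
    · -- b < s
      have hgt' : b < s := hgt
      rw [indicator_of_mem (mem_Ioi.2 hgt')]
      have hI := DD_integrable hb hC hCG hω hG hgt'
      have hI1 := DD_integrable hH hC hCG (hω.mono hHb.le) (hG.mono hHb.le) hsH'
      have hI2 := hI.mono_set (Ioo_subset_Ioo_left hH.le : Ioo H b ⊆ Ioo 0 b)
      have hsplit : DD ω b G s =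
          DD ω H G s + ∫ X in Ioo H b, G X * (cker X s * ω X (s - X)) := by
        have hu : Ioo 0 b =ᵐ[volume] (Ioo 0 H ∪ Ioo H b : Set ℝ) := by
          have h1 : Ioc 0 H ∪ Ioo H b = Ioo 0 b := Ioc_union_Ioo_eq_Ioo hH.le hHb
          rw [← h1]
          exact Ioo_ae_eq_Ioc.symm.union (ae_eq_refl _)
        unfold DD
        rw [setIntegral_congr_set hu, setIntegral_union _ measurableSet_Ioo hI1 hI2]
        rw [Set.disjoint_left]
        intro x hx hx'
        exact absurd hx.2 (not_lt.2 hx'.1.le)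
      have e2 : ∫ X in Ioo H b, G X * (cker X s * ω X (s - X)) =
          (1 / √(s + y0)) * ∫ X in Ioo H s, cker X s * h X := by
        have e3 : ∫ X in Ioo H s, cker X s * h X = ∫ X in Ioo H b, cker X s * h X := by
          have hsub : Ioo H b ⊆ Ioo H s := Ioo_subset_Ioo_right hgt'.le
          rw [setIntegral_eq_of_subset_of_forall_sdiff_eq_zero measurableSet_Ioo hsub]
          intro X hX
          rw [hh, indicator_of_notMem hX.2, mul_zero]
        rw [e3, ← integral_const_mul]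
        apply setIntegral_congr_fun measurableSet_Ioo
        intro X hX
        exact e1 X hX (hX.2.trans hgt')
      rw [hsplit, e2]
      field_simp
  have hfin : ∫ s in Ioi H, (1 / s ^ j * √(s + y0) * DD ω H G s +
      1 / s ^ j * ∫ X in Ioo H s, cker X s * h X) =
      ∫ s in Ioi H, (Ioi b).indicator (fun s => 1 / s ^ j * √(s + y0) * DD ω b G s) s :=
    setIntegral_congr_ae measurableSet_Ioi key
  rw [integral_add hN hc1, hc2, add_zero, setIntegral_indicator measurableSet_Ioi,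
    Ioi_inter_Ioi, sup_of_le_right hHb.le] at hfin
  exact hfin

/-- convergence of the numbers `N_k` -/
theorem NN_tendsto {y0 b C CG : ℝ} (hb : 0 < b) (hy : 0 < b + y0) (hC : 0 ≤ C) (hCG : 0 ≤ CG)
    {ωn : ℕ → ℝ → ℝ → ℝ} {Gn : ℕ → ℝ → ℝ} {ω : ℝ → ℝ → ℝ} {G : ℝ → ℝ}
    (hωn : ∀ n, WOK b C (ωn n)) (hGn : ∀ n, GOK b CG (Gn n))
    (hωl : ∀ᵐ X : ℝ, X ∈ Ioo 0 b → ∀ Y, 0 < Y →
      Tendsto (fun n => ωn n X Y) atTop (𝓝 (ω X Y)))
    (hGl : ∀ᵐ X : ℝ, X ∈ Ioo 0 b → Tendsto (fun n => Gn n X) atTop (𝓝 (G X)))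
    {j : ℕ} (hj : 1 ≤ j) :
    Tendsto (fun n => NN y0 b j (DD (ωn n) b (Gn n))) atTop (𝓝 (NN y0 b j (DD ω b G))) := by
  obtain ⟨C1, hC1, hw⟩ := wt_le hb hy hj
  have hD : ∀ s, b < s → Tendsto (fun n => DD (ωn n) b (Gn n) s) atTop (𝓝 (DD ω b G s)) := by
    intro s hs
    unfold DD
    refine tendsto_integral_of_dominated_convergence
      (fun X => (CG * C) * (1 / (rt4 (s - b) * √(1 + (s - b)))) * (1 / (√X * rt4 (b - X))))
      (fun n => (DD_integrable hb hC hCG (hωn n) (hGn n) hs).aestronglyMeasurable)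
      ((dom_X hb).const_mul _) (fun n => ?_) ?_
    · filter_upwards [ae_restrict_mem measurableSet_Ioo] with X hX
      exact DD_integrand_le hC hCG (hωn n).bd (hGn n).bd hs hX
    · filter_upwards [ae_restrict_mem measurableSet_Ioo, ae_restrict_of_ae hωl,
        ae_restrict_of_ae hGl] with X hX h1 h2
      exact (h2 hX).mul ((h1 hX _ (sub_pos.2 (hX.2.trans hs))).const_mul _)
  unfold NN
  refine tendsto_integral_of_dominated_convergence
    (fun s => (C1 * ((CG * C) * (∫ X in Ioo 0 b, 1 / (√X * rt4 (b - X))))) *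
      (1 / (rt4 (s - b) * (1 + (s - b)))))
    (fun n => (NN_integrable hb hy hC hCG (hωn n) (hGn n) hj).aestronglyMeasurable)
    ((dom_s b).const_mul _) (fun n => ?_) ?_
  · filter_upwards [ae_restrict_mem measurableSet_Ioi] with s hs
    have hs' : b < s := hs
    have hsb : 0 < s - b := sub_pos.2 hs'
    have hs0 : 0 < s := hb.trans hs'
    have h1 := hw s hs'
    have h2 := DD_le hb hC hCG (hωn n) (hGn n) hs'
    have h5 : √(1 + (s - b)) ^ 2 = 1 + (s - b) := Real.sq_sqrt (by linarith)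
    have hs4 : 0 < √(1 + (s - b)) := Real.sqrt_pos.2 (by linarith)
    have hq := rt4_pos hsb
    have hI : 0 ≤ ∫ X in Ioo 0 b, 1 / (√X * rt4 (b - X)) := by
      apply setIntegral_nonneg measurableSet_Ioo
      intro X hX
      have := rt4_nonneg (b - X)
      positivity
    rw [Real.norm_eq_abs, abs_mul, abs_of_nonneg (by positivity : 0 ≤ 1 / s ^ j * √(s + y0))]
    calc 1 / s ^ j * √(s + y0) * |DD (ωn n) b (Gn n) s|
        ≤ (C1 / √(1 + (s - b))) * ((CG * C) * (∫ X in Ioo 0 b, 1 / (√X * rt4 (b - X))) *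
      (1 / (rt4 (s - b) * √(1 + (s - b))))) := by gcongr
      _ = _ := by
        generalize √(1 + (s - b)) = r at h5 hs4
        rw [← h5]
        field_simp
  · filter_upwards [ae_restrict_mem measurableSet_Ioi] with s hs
    exact (hD s hs).const_mul _

end Pool.Agent.Lib.MP_85963d_gt.H70
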