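import Mathlib

/-!
# MP_85963d_gt, (10.1): the choice of the second derivatives of the perturbations
-/

set_option autoImplicit false

open MeasureTheory Set Filter Topology
open scoped ContDiff

namespace Pool.Agent.Lib.MP_85963d_gt.H70

/-- a smooth bump of radius `ε` centred at `c` -/
noncomputable def bmp (ε c t : ℝ) : ℝ :=
  if h : 0 < ε then (⟨ε / 2, ε, by positivity, by linarith⟩ : ContDiffBump (0 : ℝ)) (t - c) else 0

lemma bmp_eq {ε : ℝ} (h : 0 < ε) (c t : ℝ) : bmp ε c t =
    (⟨ε / 2, ε, by positivity, by linarith⟩ : ContDiffBump (0 : ℝ)) (t - c) := by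
  simp [bmp, h]

lemma contDiff_bmp {ε : ℝ} (h : 0 < ε) (c : ℝ) : ContDiff ℝ ∞ (bmp ε c) := by
  have e : bmp ε c = fun t => (⟨ε / 2, ε, by positivity, by linarith⟩ : ContDiffBump (0 : ℝ))
    (t - c) := funext fun t => bmp_eq h c t
  rw [e]
  exact (ContDiffBump.contDiff _).comp (contDiff_id.sub contDiff_const)

lemma bmp_nonneg {ε : ℝ} (h : 0 < ε) (c t : ℝ) : 0 ≤ bmp ε c t := by
  rw [bmp_eq h]
  exact ContDiffBump.nonneg _

lemma bmp_zero {ε : ℝ} (h : 0 < ε) {c t : ℝ} (ht : ε ≤ |t - c|) : bmp ε c t = 0 := by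
  rw [bmp_eq h]
  apply ContDiffBump.zero_of_le_dist
  simpa [Real.dist_eq] using ht

lemma bmp_symm {ε : ℝ} (h : 0 < ε) (t : ℝ) : bmp ε 0 (-t) = bmp ε 0 t := by
  rw [bmp_eq h, bmp_eq h, sub_zero, sub_zero, ContDiffBump.neg]

lemma bmp_shift (ε c t : ℝ) : bmp ε c t = bmp ε 0 (t - c) := by
  unfold bmp
  simp

lemma bmp_support {ε : ℝ} (h : 0 < ε) (c : ℝ) :
    tsupport (bmp ε c) ⊆ Icc (c - ε) (c + ε) := by
  apply closure_minimal _ isClosed_Icc
  intro t ht
  by_contra hcon
  apply ht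
  apply bmp_zero h
  by_contra hlt
  push Not at hlt
  rw [abs_lt] at hlt
  exact hcon ⟨by linarith [hlt.1], by linarith [hlt.2]⟩

lemma bmp_compact {ε : ℝ} (h : 0 < ε) (c : ℝ) : HasCompactSupport (bmp ε c) :=
  isCompact_Icc.of_isClosed_subset (isClosed_tsupport _) (bmp_support h c)

lemma bmp_integrable {ε : ℝ} (h : 0 < ε) (c : ℝ) : Integrable (bmp ε c) :=
  (contDiff_bmp h c).continuous.integrable_of_hasCompactSupport (bmp_compact h c)

/-- the mass -/
noncomputable def ms (ε : ℝ) : ℝ := ∫ t, bmp ε 0 t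

lemma ms_pos {ε : ℝ} (h : 0 < ε) : 0 < ms ε := by
  have e : ms ε = ∫ t, (⟨ε / 2, ε, by positivity, by linarith⟩ : ContDiffBump (0 : ℝ)) t := by
    unfold ms
    congr 1
    ext t
    rw [bmp_eq h, sub_zero]
  rw [e]
  exact ContDiffBump.integral_pos _

lemma bmp_mass (ε c : ℝ) : ∫ t, bmp ε c t = ms ε := by
  have e : (fun t => bmp ε c t) = fun t => bmp ε 0 (t - c) := funext fun t => bmp_shift ε c t
  rw [e, integral_sub_right_eq_self (fun t => bmp ε 0 t) c]
  rfl

lemma bmp_moment_int {ε : ℝ} (h : 0 < ε) (c : ℝ) : Integrable fun t => t * bmp ε c t :=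
  (continuous_id.mul (contDiff_bmp h c).continuous).integrable_of_hasCompactSupport
    (bmp_compact h c).mul_left

lemma bmp_moment {ε : ℝ} (h : 0 < ε) (c : ℝ) : ∫ t, t * bmp ε c t = c * ms ε := by
  have h0 : ∫ t, t * bmp ε 0 t = 0 := by
    have h1 : ∫ t, t * bmp ε 0 t = ∫ t, (-t) * bmp ε 0 (-t) :=
      (integral_neg_eq_self (fun t => t * bmp ε 0 t) volume).symm
    have h2 : ∫ t, (-t) * bmp ε 0 (-t) = -∫ t, t * bmp ε 0 t := by
      rw [← integral_neg]
      congr 1
      ext t
      rw [bmp_symm h]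
      ring
    linarith
  have e : (fun t => t * bmp ε c t) =
      fun t => (fun t => t * bmp ε 0 t + c * bmp ε 0 t) (t - c) := by
    ext t
    simp only
    rw [bmp_shift ε c t]
    ring
  rw [e, integral_sub_right_eq_self (fun t => t * bmp ε 0 t + c * bmp ε 0 t) c,
    integral_add (bmp_moment_int h 0) ((bmp_integrable h 0).const_mul c), h0,
    integral_const_mul, zero_add]
  rfl

lemma bmp_mul_int {ε : ℝ} (h : 0 < ε) {c : ℝ} (hc : ε < c) {g : ℝ → ℝ}
    (hg : ContinuousOn g (Ioi 0)) : Integrable fun t => bmp ε c t * g t := by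
  have hK : IsCompact (Icc (c - ε) (c + ε)) := isCompact_Icc
  have hsub : Icc (c - ε) (c + ε) ⊆ Ioi 0 := fun t ht => by
    have : c - ε ≤ t := ht.1
    exact lt_of_lt_of_le (by linarith) this
  have h1 : IntegrableOn (fun t => bmp ε c t * g t) (Icc (c - ε) (c + ε)) :=
    ((contDiff_bmp h c).continuous.continuousOn.mul (hg.mono hsub)).integrableOn_compact hK
  rw [← integrableOn_univ]
  refine h1.of_forall_sdiff_eq_zero MeasurableSet.univ ?_
  intro t ht
  have : bmp ε c t = 0 := by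
    by_contra hne
    exact ht.2 (bmp_support h c (subset_tsupport _ hne))
  rw [this, zero_mul]

/-- lower bound for the pairing -/
lemma bmp_pair_ge {ε : ℝ} (h : 0 < ε) {c : ℝ} (hc : ε < c) {g : ℝ → ℝ}
    (hg : ContinuousOn g (Ioi 0)) {m : ℝ} (hm : ∀ t ∈ Icc (c - ε) (c + ε), m ≤ g t) :
    m * ms ε ≤ ∫ t, bmp ε c t * g t := by
  rw [← bmp_mass ε c, ← integral_const_mul]
  refine integral_mono ((bmp_integrable h c).const_mul m) (bmp_mul_int h hc hg) fun t => ?_
  simp only
  by_cases ht : t ∈ Icc (c - ε) (c + ε)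
  · rw [mul_comm]
    exact mul_le_mul_of_nonneg_left (hm t ht) (bmp_nonneg h c t)
  · have : bmp ε c t = 0 := by
      by_contra hne
      exact ht (bmp_support h c (subset_tsupport _ hne))
    rw [this]
    simp

/-- (10.1) -/
theorem choice {g : ℝ → ℝ} (hg : ContinuousOn g (Ioi 0)) (h0 : Tendsto g atTop (𝓝 0))
    {tp tm : ℝ} (htp : 0 < tp) (htm : 0 < tm) (hgp : 0 < g tp) (hgm : g tm < 0) :
    ∃ φp φm : ℝ → ℝ, ContDiff ℝ ∞ φp ∧ ContDiff ℝ ∞ φm ∧ (∀ t, 0 ≤ φp t) ∧ (∀ t, 0 ≤ φm t) ∧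
      (∃ a b : ℝ, 0 < a ∧ a < b ∧ (∀ t, t ∉ Icc a b → φp t = 0) ∧
        ∀ t, t ∉ Icc a b → φm t = 0) ∧
      0 < ∫ t, φp t ∧ ∫ t, φp t = ∫ t, φm t ∧ ∫ t, t * φp t = ∫ t, t * φm t ∧
      0 < ∫ t, φp t * g t ∧ ∫ t, φm t * g t < 0 := by
  -- the constant
  obtain ⟨c, hc, hcp, hcm⟩ : ∃ c : ℝ, 0 < c ∧ c < g tp ∧ g tm < -c := by
    refine ⟨min (g tp) (-g tm) / 2, ?_, ?_, ?_⟩
    · have : 0 < min (g tp) (-g tm) := lt_min hgp (by linarith)
      linarith
    · have := min_le_left (g tp) (-g tm)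
      linarith
    · have := min_le_right (g tp) (-g tm)
      linarith
  -- the radius
  have hnp : ∀ᶠ t in 𝓝 tp, c < g t :=
    (hg.continuousAt (Ioi_mem_nhds htp)).eventually (lt_mem_nhds hcp)
  have hnm : ∀ᶠ t in 𝓝 tm, g t < -c :=
    (hg.continuousAt (Ioi_mem_nhds htm)).eventually (gt_mem_nhds hcm)
  obtain ⟨δ1, hδ1, hB1⟩ := Metric.eventually_nhds_iff.1 hnp
  obtain ⟨δ2, hδ2, hB2⟩ := Metric.eventually_nhds_iff.1 hnm
  obtain ⟨ε, hε, hε1, hε2, hε3, hε4, hε5⟩ : ∃ ε : ℝ, 0 < ε ∧ ε < δ1 ∧ ε < δ2 ∧ ε < tp ∧ ε < tm ∧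
      ε ≤ 1 := by
    refine ⟨min (min δ1 δ2) (min (min tp tm) 2) / 2, ?_, ?_, ?_, ?_, ?_, ?_⟩
    · have : 0 < min (min δ1 δ2) (min (min tp tm) 2) := by
        simp only [lt_min_iff]
        exact ⟨⟨hδ1, hδ2⟩, ⟨htp, htm⟩, by norm_num⟩
      linarith
    all_goals
      have k1 := min_le_left (min δ1 δ2) (min (min tp tm) 2)
      have k2 := min_le_right (min δ1 δ2) (min (min tp tm) 2)
      have k3 := min_le_left δ1 δ2
      have k4 := min_le_right δ1 δ2
      have k5 := min_le_left (min tp tm) 2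
      have k6 := min_le_right (min tp tm) 2
      have k7 := min_le_left tp tm
      have k8 := min_le_right tp tm
      have : 0 < min (min δ1 δ2) (min (min tp tm) 2) := by
        simp only [lt_min_iff]
        exact ⟨⟨hδ1, hδ2⟩, ⟨htp, htm⟩, by norm_num⟩
      linarith
  have hgp' : ∀ t ∈ Icc (tp - ε) (tp + ε), c ≤ g t := fun t ht => by
    refine (hB1 ?_).le
    rw [Real.dist_eq]
    exact (abs_le.2 ⟨by linarith [ht.1], by linarith [ht.2]⟩).trans_lt hε1
  have hgm' : ∀ t ∈ Icc (tm - ε) (tm + ε), c ≤ -g t := fun t ht => by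
    have : g t < -c := by
      refine hB2 ?_
      rw [Real.dist_eq]
      exact (abs_le.2 ⟨by linarith [ht.1], by linarith [ht.2]⟩).trans_lt hε2
    linarith
  -- the far point
  obtain ⟨T0, hT0⟩ := (Metric.tendsto_atTop.1 h0) c hc
  set d := |tp - tm| with hd
  have hd0 : 0 ≤ d := abs_nonneg _
  set T := max T0 (max tp tm) + d + 2 with hT
  have hT1 : T0 ≤ T - ε := by
    have := le_max_left T0 (max tp tm)
    linarith
  have hT2 : tp ≤ T - d - 2 := by
    have h1 := le_max_right T0 (max tp tm)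
    have h2 := le_max_left tp tm
    linarith
  have hT3 : tm ≤ T - d - 2 := by
    have h1 := le_max_right T0 (max tp tm)
    have h2 := le_max_right tp tm
    linarith
  have hεT : ε < T := by linarith
  have hfar : ∀ t ∈ Icc (T - ε) (T + ε), |g t| ≤ c := fun t ht => by
    have := hT0 t (hT1.trans ht.1)
    rw [Real.dist_eq, sub_zero] at this
    exact this.le
  have hfar1 : ∀ t ∈ Icc (T - ε) (T + ε), -c ≤ g t := fun t ht => (abs_le.1 (hfar t ht)).1
  have hfar2 : ∀ t ∈ Icc (T - ε) (T + ε), -c ≤ -g t := fun t ht => by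
    linarith [(abs_le.1 (hfar t ht)).2]
  -- the weights
  set ap := T - tm with hap
  set am := T - tp with ham
  set bp := max 0 (tm - tp) with hbp
  set bm := max 0 (tp - tm) with hbm
  have hap0 : d + 1 < ap := by rw [hap]; linarith
  have ham0 : d + 1 < am := by rw [ham]; linarith
  have hbp0 : 0 ≤ bp := le_max_left _ _
  have hbm0 : 0 ≤ bm := le_max_left _ _
  have hbpd : bp ≤ d := max_le hd0 (by rw [hd, abs_sub_comm]; exact le_abs_self _)
  have hbmd : bm ≤ d := max_le hd0 (by rw [hd]; exact le_abs_self _)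
  have hb : bp - bm = tm - tp := by
    rcases le_total tp tm with h | h
    · rw [hbp, hbm, max_eq_right (by linarith), max_eq_left (by linarith)]
      ring
    · rw [hbp, hbm, max_eq_left (by linarith), max_eq_right (by linarith)]
      ring
  have hms := ms_pos hε
  have mass : ∀ a b x : ℝ, ∫ t, (a * bmp ε x t + b * bmp ε T t) = (a + b) * ms ε := by
    intro a b x
    rw [integral_add ((bmp_integrable hε x).const_mul a) ((bmp_integrable hε T).const_mul b),
      integral_const_mul, integral_const_mul, bmp_mass, bmp_mass]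
    ring
  have moment : ∀ a b x : ℝ, ∫ t, t * (a * bmp ε x t + b * bmp ε T t) =
      (a * x + b * T) * ms ε := by
    intro a b x
    have e : (fun t => t * (a * bmp ε x t + b * bmp ε T t)) =
        fun t => a * (t * bmp ε x t) + b * (t * bmp ε T t) := by
      ext t
      ring
    rw [e, integral_add ((bmp_moment_int hε x).const_mul a) ((bmp_moment_int hε T).const_mul b),
      integral_const_mul, integral_const_mul, bmp_moment hε, bmp_moment hε]
    ring
  have pair : ∀ a b x : ℝ, ε < x → ∀ f : ℝ → ℝ, ContinuousOn f (Ioi 0) →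
      ∫ t, (a * bmp ε x t + b * bmp ε T t) * f t =
        a * (∫ t, bmp ε x t * f t) + b * ∫ t, bmp ε T t * f t := by
    intro a b x hx f hf
    have e : (fun t => (a * bmp ε x t + b * bmp ε T t) * f t) =
        fun t => a * (bmp ε x t * f t) + b * (bmp ε T t * f t) := by
      ext t
      ring
    rw [e, integral_add ((bmp_mul_int hε hx hf).const_mul a)
      ((bmp_mul_int hε hεT hf).const_mul b), integral_const_mul, integral_const_mul]
  refine ⟨fun t => ap * bmp ε tp t + bp * bmp ε T t, fun t => am * bmp ε tm t + bm * bmp ε T t,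
    (contDiff_const.mul (contDiff_bmp hε _)).add (contDiff_const.mul (contDiff_bmp hε _)),
    (contDiff_const.mul (contDiff_bmp hε _)).add (contDiff_const.mul (contDiff_bmp hε _)),
    fun t => add_nonneg (mul_nonneg (by linarith) (bmp_nonneg hε _ _))
      (mul_nonneg hbp0 (bmp_nonneg hε _ _)),
    fun t => add_nonneg (mul_nonneg (by linarith) (bmp_nonneg hε _ _))
      (mul_nonneg hbm0 (bmp_nonneg hε _ _)), ?_, ?_, ?_, ?_, ?_, ?_⟩
  · refine ⟨min tp tm - ε, T + ε, ?_, ?_, ?_, ?_⟩
    · rcases le_total tp tm with h | h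
      · rw [min_eq_left h]
        linarith
      · rw [min_eq_right h]
        linarith
    · have := min_le_left tp tm
      linarith
    all_goals
      intro t ht
      rw [mem_Icc, not_and_or, not_le, not_le] at ht
      have z1 : ∀ x : ℝ, min tp tm ≤ x → x ≤ T → bmp ε x t = 0 := by
        intro x hx1 hx2
        apply bmp_zero hε
        rcases ht with ht | ht
        · rw [abs_of_nonpos (by linarith)]
          linarith
        · rw [abs_of_nonneg (by linarith)]
          linarith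
      simp only
      rw [z1 T (by have := min_le_left tp tm; linarith) le_rfl]
    · rw [z1 tp (min_le_left _ _) (by linarith)]
      simp
    · rw [z1 tm (min_le_right _ _) (by linarith)]
      simp
  · rw [mass]
    exact mul_pos (by linarith) hms
  · rw [mass, mass]
    have : ap + bp = am + bm := by
      rw [hap, ham]
      linarith
    rw [this]
  · rw [moment, moment]
    have : ap * tp + bp * T = am * tm + bm * T := by
      have h1 : (bp - bm) * T = (tm - tp) * T := by rw [hb]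
      rw [hap, ham]
      linarith
    rw [this]
  · rw [pair _ _ _ hε3 g hg]
    have h1 := bmp_pair_ge hε hε3 hg hgp'
    have h2 := bmp_pair_ge hε hεT hg hfar1
    have h3 : 0 < (ap - bp) * (c * ms ε) := mul_pos (by linarith) (by positivity)
    have h4 := mul_le_mul_of_nonneg_left h1 (by linarith : 0 ≤ ap)
    have h5 := mul_le_mul_of_nonneg_left h2 hbp0
    nlinarith
  · have hneg : ∫ t, (am * bmp ε tm t + bm * bmp ε T t) * g t =
        -∫ t, (am * bmp ε tm t + bm * bmp ε T t) * (-g t) := by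
      rw [← integral_neg]
      congr 1
      ext t
      ring
    simp only
    rw [hneg, pair _ _ _ hε4 (fun t => -g t) hg.neg]
    have h1 : c * ms ε ≤ ∫ t, bmp ε tm t * (-g t) := bmp_pair_ge hε hε4 hg.neg hgm'
    have h2 : -c * ms ε ≤ ∫ t, bmp ε T t * (-g t) := bmp_pair_ge hε hεT hg.neg hfar2
    have h3 : 0 < (am - bm) * (c * ms ε) := mul_pos (by linarith) (by positivity)
    have h4 := mul_le_mul_of_nonneg_left h1 (by linarith : 0 ≤ am)
    have h5 := mul_le_mul_of_nonneg_left h2 hbm0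
    nlinarith

end Pool.Agent.Lib.MP_85963d_gt.H70
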