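import Mathlib

/-!
# MP_85963d_gt: the spherical cap of a capsule (unit sphere centred at height `h > 1`)
-/

set_option autoImplicit false

open MeasureTheory Set Filter Topology Real

namespace Pool.Agent.Lib.MP_85963d_gt.H70

/-- profile of the cap -/
noncomputable def cp (h t : ℝ) : ℝ := (h * t - √(t ^ 2 - h ^ 2 + 1)) / (h ^ 2 - 1)

/-- its derivative -/
noncomputable def cp1 (h t : ℝ) : ℝ := (h - t / √(t ^ 2 - h ^ 2 + 1)) / (h ^ 2 - 1)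

/-- its second derivative -/
noncomputable def cp2 (h t : ℝ) : ℝ := 1 / √(t ^ 2 - h ^ 2 + 1) ^ 3

/-- `S = ψ - t ψ'` -/
noncomputable def cpS (h t : ℝ) : ℝ := 1 / √(t ^ 2 - h ^ 2 + 1)

lemma h2_pos {h : ℝ} (hh : 1 < h) : 0 < h ^ 2 - 1 := by nlinarith

lemma cp_hasDerivAt {h t : ℝ} (hh : 1 < h) (ht : 0 < t ^ 2 - h ^ 2 + 1) :
    HasDerivAt (cp h) (cp1 h t) t := by
  have h0 := h2_pos hh
  have hs : 0 < √(t ^ 2 - h ^ 2 + 1) := Real.sqrt_pos.2 ht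
  have h1 : HasDerivAt (fun t : ℝ => t ^ 2 - h ^ 2 + 1) (2 * t) t := by
    simpa using ((hasDerivAt_pow 2 t).sub_const (h ^ 2)).add_const 1
  have h2 := h1.sqrt ht.ne'
  have h3 := (((hasDerivAt_id t).const_mul h).sub h2).div_const (h ^ 2 - 1)
  refine h3.congr_deriv ?_
  unfold cp1
  congr 1
  field_simp

lemma cp1_hasDerivAt {h t : ℝ} (hh : 1 < h) (ht : 0 < t ^ 2 - h ^ 2 + 1) :
    HasDerivAt (cp1 h) (cp2 h t) t := by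
  have h0 := h2_pos hh
  have hs : 0 < √(t ^ 2 - h ^ 2 + 1) := Real.sqrt_pos.2 ht
  have hs2 : √(t ^ 2 - h ^ 2 + 1) ^ 2 = t ^ 2 - h ^ 2 + 1 := Real.sq_sqrt ht.le
  have h1 : HasDerivAt (fun t : ℝ => t ^ 2 - h ^ 2 + 1) (2 * t) t := by
    simpa using ((hasDerivAt_pow 2 t).sub_const (h ^ 2)).add_const 1
  have h2 := h1.sqrt ht.ne'
  have h3 := (((hasDerivAt_id t).div h2 hs.ne').const_sub h).div_const (h ^ 2 - 1)
  refine h3.congr_deriv ?_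
  unfold cp2
  simp only [id_eq]
  generalize √(t ^ 2 - h ^ 2 + 1) = r at hs hs2 ⊢
  field_simp
  rw [hs2]
  ring

lemma cpS_eq {h t : ℝ} (hh : 1 < h) (ht : 0 < t ^ 2 - h ^ 2 + 1) :
    cp h t - t * cp1 h t = cpS h t := by
  have h0 := h2_pos hh
  have hs : 0 < √(t ^ 2 - h ^ 2 + 1) := Real.sqrt_pos.2 ht
  have hs2 : √(t ^ 2 - h ^ 2 + 1) ^ 2 = t ^ 2 - h ^ 2 + 1 := Real.sq_sqrt ht.le
  unfold cp cp1 cpS
  generalize √(t ^ 2 - h ^ 2 + 1) = r at hs hs2 ⊢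
  field_simp
  linear_combination -hs2

lemma cpS_pos {h t : ℝ} (ht : 0 < t ^ 2 - h ^ 2 + 1) : 0 < cpS h t := by
  have hs : 0 < √(t ^ 2 - h ^ 2 + 1) := Real.sqrt_pos.2 ht
  unfold cpS
  positivity

lemma cp2_pos {h t : ℝ} (ht : 0 < t ^ 2 - h ^ 2 + 1) : 0 < cp2 h t := by
  have hs : 0 < √(t ^ 2 - h ^ 2 + 1) := Real.sqrt_pos.2 ht
  unfold cp2
  positivity

/-- `ψ² = (t²+y₀)(ψ'²+S²)` -/
lemma cp_sq {h t : ℝ} (hh : 1 < h) (ht : 0 < t ^ 2 - h ^ 2 + 1) :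
    cp h t ^ 2 = (t ^ 2 - h ^ 2 + 1) * (cp1 h t ^ 2 + cpS h t ^ 2) := by
  have h0 := h2_pos hh
  have hs : 0 < √(t ^ 2 - h ^ 2 + 1) := Real.sqrt_pos.2 ht
  have hs2 : √(t ^ 2 - h ^ 2 + 1) ^ 2 = t ^ 2 - h ^ 2 + 1 := Real.sq_sqrt ht.le
  unfold cp cp1 cpS
  generalize √(t ^ 2 - h ^ 2 + 1) = r at hs hs2 ⊢
  rw [← hs2]
  field_simp
  have e : t ^ 2 = r ^ 2 + h ^ 2 - 1 := by linarith
  have e4 : t ^ 4 = (r ^ 2 + h ^ 2 - 1) ^ 2 := by rw [← e]; ring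
  ring_nf
  rw [e]
  ring

lemma cp_pos {h t : ℝ} (hh : 1 < h) (ht0 : 0 < t) (ht : 0 < t ^ 2 - h ^ 2 + 1) : 0 < cp h t := by
  have h0 := h2_pos hh
  have hs : 0 < √(t ^ 2 - h ^ 2 + 1) := Real.sqrt_pos.2 ht
  unfold cp
  apply div_pos _ h0
  rw [sub_pos, Real.sqrt_lt' (by positivity)]
  nlinarith [mul_pos h0 ht, mul_pos h0 h0]

/-- on the cap the weight is a product -/
lemma cap_weight {h t : ℝ} (hh : 1 < h) (ht0 : 0 < t) (ht : 0 < t ^ 2 - h ^ 2 + 1) {Y : ℝ}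
    (hY : 0 < Y) :
    (cpS h t + Y * cp2 h t) / √(cp h t ^ 2 + Y * (cp1 h t ^ 2 + cpS h t ^ 2)) ^ 3 =
      1 / cp h t ^ 3 / √(t ^ 2 + Y - h ^ 2 + 1) := by
  have hc := cp_pos hh ht0 ht
  have hs : 0 < √(t ^ 2 - h ^ 2 + 1) := Real.sqrt_pos.2 ht
  have hs2 : √(t ^ 2 - h ^ 2 + 1) ^ 2 = t ^ 2 - h ^ 2 + 1 := Real.sq_sqrt ht.le
  have hsY : 0 < t ^ 2 + Y - h ^ 2 + 1 := by linarith
  have hY1 : 0 < √(t ^ 2 + Y - h ^ 2 + 1) := Real.sqrt_pos.2 hsY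
  have hY2 : √(t ^ 2 + Y - h ^ 2 + 1) ^ 2 = t ^ 2 + Y - h ^ 2 + 1 := Real.sq_sqrt hsY.le
  have e1 : cp1 h t ^ 2 + cpS h t ^ 2 = cp h t ^ 2 / (t ^ 2 - h ^ 2 + 1) := by
    rw [cp_sq hh ht]
    field_simp
  have e2 : cp h t ^ 2 + Y * (cp1 h t ^ 2 + cpS h t ^ 2) =
      (cp h t * √(t ^ 2 + Y - h ^ 2 + 1) / √(t ^ 2 - h ^ 2 + 1)) ^ 2 := by
    rw [e1, div_pow, mul_pow, hs2, hY2]
    field_simp
    ring
  rw [e2, Real.sqrt_sq (by positivity)]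
  unfold cpS cp2
  generalize √(t ^ 2 - h ^ 2 + 1) = r at *
  generalize √(t ^ 2 + Y - h ^ 2 + 1) = R at *
  field_simp
  rw [hs2, hY2]
  ring

/-- matching with an inner profile with the data `S, Q` at `t` (`ψ = S + tQ`) -/
lemma matching {t S Q : ℝ} (ht : 0 < t) (hS : 0 < S) (hQ : 0 < Q)
    (hlt : √(S ^ 2 + Q ^ 2) < t * S - Q) :
    let h := (t * S - Q) / √(S ^ 2 + Q ^ 2)
    let R := √(S ^ 2 + Q ^ 2) / ((S + t * Q) * S)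
    1 < h ∧ 0 < R ∧ t ^ 2 - h ^ 2 + 1 = (S + t * Q) ^ 2 / (S ^ 2 + Q ^ 2) ∧
      cp h t = R * (S + t * Q) ∧ cp1 h t = R * Q ∧ cpS h t = R * S := by
  intro h R
  have hSQ : 0 < S ^ 2 + Q ^ 2 := by positivity
  have hr : 0 < √(S ^ 2 + Q ^ 2) := Real.sqrt_pos.2 hSQ
  have hr2 : √(S ^ 2 + Q ^ 2) ^ 2 = S ^ 2 + Q ^ 2 := Real.sq_sqrt hSQ.le
  have hP : 0 < S + t * Q := by positivity
  have hh : 1 < h := by
    show 1 < (t * S - Q) / √(S ^ 2 + Q ^ 2)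
    rwa [one_lt_div hr]
  have e1 : t ^ 2 - h ^ 2 + 1 = (S + t * Q) ^ 2 / (S ^ 2 + Q ^ 2) := by
    show t ^ 2 - ((t * S - Q) / √(S ^ 2 + Q ^ 2)) ^ 2 + 1 = _
    rw [div_pow, hr2]
    field_simp
    ring
  have e2 : √(t ^ 2 - h ^ 2 + 1) = (S + t * Q) / √(S ^ 2 + Q ^ 2) := by
    rw [e1, Real.sqrt_div (by positivity), Real.sqrt_sq hP.le]
  have hy : 0 < t ^ 2 - h ^ 2 + 1 := by rw [e1]; positivity
  have eS : cpS h t = R * S := by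
    unfold cpS
    rw [e2]
    show _ = √(S ^ 2 + Q ^ 2) / ((S + t * Q) * S) * S
    field_simp
  have h0 := h2_pos hh
  have e3 : cp1 h t = R * Q := by
    unfold cp1
    rw [e2, div_eq_iff h0.ne']
    show (t * S - Q) / √(S ^ 2 + Q ^ 2) - t / ((S + t * Q) / √(S ^ 2 + Q ^ 2)) =
      √(S ^ 2 + Q ^ 2) / ((S + t * Q) * S) * Q * (((t * S - Q) / √(S ^ 2 + Q ^ 2)) ^ 2 - 1)
    rw [div_pow, hr2]
    generalize √(S ^ 2 + Q ^ 2) = r at *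
    field_simp
    rw [hr2]
    ring
  refine ⟨hh, by positivity, e1, ?_, e3, eS⟩
  have := cpS_eq hh hy
  rw [eS, e3] at this
  linarith

end Pool.Agent.Lib.MP_85963d_gt.H70
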