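import Pool.Agent.Lib.MP_85963d_gt.Interfaces
import Pool.Agent.Lib.MP_85963d_gt.H70.Cut
import Pool.Agent.Lib.MP_85963d_gt.H70.Cap
import Pool.Agent.Lib.MP_85963d_gt.H70.Bumps

/-!
# MP_85963d_gt: forms of the one-variable operator (statements)
-/

set_option autoImplicit false

open MeasureTheory Set Filter Topology Real

namespace Pool.Agent.Lib.MP_85963d_gt.H70

open Pool.Agent.MP85963d

/-- the weight of a profile (`ψ, ψ', S, ψ''` as functions of `t`), in `X = t²`, `Y = a² - t²` -/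
noncomputable def om (P Q S K : ℝ → ℝ) (X Y : ℝ) : ℝ :=
  (S (√X) + Y * K (√X)) / √(P (√X) ^ 2 + Y * (Q (√X) ^ 2 + S (√X) ^ 2)) ^ 3

/-- the weight of `ψ` -/
noncomputable def omψ (ψ : ℝ → ℝ) : ℝ → ℝ → ℝ := om ψ (deriv ψ) (Sf ψ) (deriv (deriv ψ))

/-- T1CONV: change of variables `X = (a cos φ)²` (no hypotheses on `ψ`, `g` needed) -/
def T1ConvStatement : Prop :=
  ∀ (ψ g : ℝ → ℝ) (a : ℝ), 0 < a →
    T1 ψ g a = (1 / 2) * ∫ X in Ioo 0 (a ^ 2),
      (g (√X) / √X) * (cker X (a ^ 2) * omψ ψ X (a ^ 2 - X))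

end Pool.Agent.Lib.MP_85963d_gt.H70
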