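import Mathlib

/-!
# MP_85963d_gt: two choices of smooth functions (statements)
-/

set_option autoImplicit false

open MeasureTheory Set Filter Topology Real
open scoped ContDiff

namespace Pool.Agent.Lib.MP_85963d_gt.H70

/-- BETA: two smooth functions supported beyond `tc` with non-degenerate moments
(bumps `≥ 0` whose supports lie on different sides of a point) -/
def BetaStatement : Prop :=
  ∀ (tc y0 : ℝ), 0 < tc → 0 < tc ^ 2 + y0 →
    ∃ β : Fin 2 → ℝ → ℝ, (∀ i, ContDiff ℝ ∞ (β i)) ∧ (∀ i, HasCompactSupport (β i)) ∧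
      (∀ i, tsupport (β i) ⊆ Ioi tc) ∧
      (∀ (i : Fin 2) (j : ℕ), 1 ≤ j →
        IntegrableOn (fun S => 1 / S ^ j * √(S + y0) * β i (√S)) (Ioi (tc ^ 2))) ∧
      (Matrix.of fun j i : Fin 2 =>
        ∫ S in Ioi (tc ^ 2), 1 / S ^ (j.val + 1) * √(S + y0) * β i (√S)).det ≠ 0

/-- VARPI: functionals which separate two linearly independent continuous functions -/
def VarpiStatement : Prop :=
  ∀ (t₁ : ℝ) (g : Fin 2 → ℝ → ℝ), 0 < t₁ → (∀ j, ContinuousOn (g j) (Ioo 0 t₁)) →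
    (∀ x : Fin 2 → ℝ, (∀ t ∈ Ioo 0 t₁, ∑ j, x j * g j t = 0) → x = 0) →
    ∃ ϖ : Fin 2 → ℝ → ℝ, (∀ i, ContDiff ℝ ∞ (ϖ i)) ∧ (∀ i, HasCompactSupport (ϖ i)) ∧
      (∀ i, tsupport (ϖ i) ⊆ Ioo 0 t₁) ∧
      (Matrix.of fun i j : Fin 2 => ∫ t in (0:ℝ)..t₁, ϖ i t * g j t).det ≠ 0

end Pool.Agent.Lib.MP_85963d_gt.H70
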