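import Pool.Agent.Lib.MP_85963d_gt.H70.Prof
import Pool.Agent.Lib.MP_85963d_gt.H70.Forms2

/-!
# MP_85963d_gt: the bordered one-dimensional problem (8.1), (8.2)
-/

set_option autoImplicit false

open MeasureTheory Set Filter Topology Real

namespace Pool.Agent.Lib.MP_85963d_gt.H70

open Pool.Agent.MP85963d

variable {h tc : ℝ} {ψ : ℝ → ℝ}

/-- the operator in the variables `X`, `s` -/
noncomputable def TX (ω : ℝ → ℝ → ℝ) (G : ℝ → ℝ) (s : ℝ) : ℝ :=
  ∫ X in Ioo 0 s, G X * (cker X s * ω X (s - X))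

/-- solutions on `(0,b]` -/
structure IsSol (ω : ℝ → ℝ → ℝ) (b : ℝ) (G : ℝ → ℝ) : Prop where
  cont : ContinuousOn G (Ioc 0 b)
  bd : ∃ C, ∀ X ∈ Ioc 0 b, |G X| ≤ C / √X
  eq : ∀ᵐ s : ℝ, s ∈ Ioo 0 b → TX ω G s = 0

lemma TX_integrable {b C CG : ℝ} (hC : 0 ≤ C) (hCG : 0 ≤ CG) {ω : ℝ → ℝ → ℝ} {G : ℝ → ℝ}
    (hω : WOK b C ω) (hG : GOK b CG G) {s : ℝ} (hs0 : 0 < s) (hs : s ≤ b) :
    IntegrableOn (fun X => G X * (cker X s * ω X (s - X))) (Ioo 0 s) := by
  -- bound by `CG C / (√X √(s-X))`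
  have hd : IntegrableOn (fun X => 1 / √X * (1 / √(s - X))) (Ioo 0 s) := by
    have h1 : IntegrableOn (fun X : ℝ => X ^ (-(1 / 2) : ℝ)) (Ioo 0 s) := by
      have := (intervalIntegral.intervalIntegrable_rpow' (a := 0) (b := s)
        (by norm_num : (-1 : ℝ) < -(1 / 2))).1
      exact this.mono_set Ioo_subset_Ioc_self
    have h2 := int_inv_sqrt 0 s
    refine Integrable.mono' ((h1.add h2).const_mul (√2 / √s)) ?_ ?_
    · have : Measurable fun X : ℝ => 1 / √X * (1 / √(s - X)) := by fun_prop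
      exact this.aestronglyMeasurable
    · filter_upwards [ae_restrict_mem measurableSet_Ioo] with X hX
      have hX0 : 0 < X := hX.1
      have hXs : 0 < s - X := sub_pos.2 hX.2
      have e1 : X ^ (-(1 / 2) : ℝ) = 1 / √X := by
        rw [Real.rpow_neg hX0.le, ← Real.sqrt_eq_rpow, one_div]
      have r1 : 0 < √X := Real.sqrt_pos.2 hX0
      have r2 : 0 < √(s - X) := Real.sqrt_pos.2 hXs
      have r3 : 0 < √s := Real.sqrt_pos.2 hs0
      have q1 : √X ^ 2 = X := Real.sq_sqrt hX0.le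
      have q2 : √(s - X) ^ 2 = s - X := Real.sq_sqrt hXs.le
      rw [Real.norm_of_nonneg (by positivity)]
      simp only [Pi.add_apply, e1]
      have h3 : √s ≤ √2 * (√X + √(s - X)) := by
        rw [Real.sqrt_le_left (by positivity), mul_pow, Real.sq_sqrt (by norm_num)]
        nlinarith
      have h4 : 1 / √X * (1 / √(s - X)) = 1 / √s * (√s * (1 / √X * (1 / √(s - X)))) := by
        field_simp
      rw [h4]
      calc 1 / √s * (√s * (1 / √X * (1 / √(s - X))))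
          ≤ 1 / √s * ((√2 * (√X + √(s - X))) * (1 / √X * (1 / √(s - X)))) := by gcongr
        _ = √2 / √s * (1 / √X + 1 / √(s - X)) := by
          field_simp
          ring
  refine Integrable.mono' (hd.const_mul (CG * C)) ?_ ?_
  · have h1 : Measurable fun X : ℝ => cker X s * ω X (s - X) := by
      apply Measurable.mul
      · exact meas_cker.comp (measurable_id.prodMk measurable_const)
      · exact hω.meas.comp (measurable_id.prodMk (measurable_const.sub measurable_id))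
    have h2 : AEStronglyMeasurable G (volume.restrict (Ioo 0 s)) :=
      hG.meas.mono_measure (Measure.restrict_mono (Ioo_subset_Ioo_right hs) le_rfl)
    exact h2.mul h1.aestronglyMeasurable
  · filter_upwards [ae_restrict_mem measurableSet_Ioo] with X hX
    have hXb : X ∈ Ioo 0 b := ⟨hX.1, hX.2.trans_le hs⟩
    have h1 := hG.bd X hXb
    have h2 := cker_abs hX.1 hX.2
    have h3 := hω.bd X hXb (s - X) (sub_pos.2 hX.2)
    have h4 : C / √(1 + (s - X)) ≤ C := by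
      apply div_le_self hC
      rw [Real.one_le_sqrt]
      linarith [hX.2]
    have h5 := h3.trans h4
    rw [Real.norm_eq_abs, abs_mul, abs_mul]
    calc |G X| * (|cker X s| * |ω X (s - X)|) ≤ (CG / √X) * ((1 / √(s - X)) * C) := by gcongr
      _ = _ := by ring

/-- splitting of the operator at `c < s` -/
lemma TX_split {c b C CG : ℝ} (hc : 0 < c) (hC : 0 ≤ C) (hCG : 0 ≤ CG) {ω : ℝ → ℝ → ℝ}
    {G : ℝ → ℝ} (hω : WOK b C ω) (hG : GOK b CG G) {s : ℝ} (hcs : c < s) (hs : s ≤ b) :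
    TX ω G s = DD ω c G s + ∫ X in Ioo c s, G X * (cker X s * ω X (s - X)) := by
  have hI := TX_integrable hC hCG hω hG (hc.trans hcs) hs
  have hI1 := hI.mono_set (Ioo_subset_Ioo_right hcs.le : Ioo 0 c ⊆ Ioo 0 s)
  have hI2 := hI.mono_set (Ioo_subset_Ioo_left hc.le : Ioo c s ⊆ Ioo 0 s)
  have hu : Ioo 0 s =ᵐ[volume] (Ioo 0 c ∪ Ioo c s : Set ℝ) := by
    have h1 : Ioc 0 c ∪ Ioo c s = Ioo 0 s := Ioc_union_Ioo_eq_Ioo hc.le hcs
    rw [← h1]
    exact Ioo_ae_eq_Ioc.symm.union (ae_eq_refl _)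
  unfold TX DD
  rw [setIntegral_congr_set hu, setIntegral_union _ measurableSet_Ioo hI1 hI2]
  rw [Set.disjoint_left]
  intro x hx hx'
  exact absurd hx.2 (not_lt.2 hx'.1.le)

/-- Cormack's relations for a profile -/
theorem cormack_prof (H : IsProf h tc ψ) {g : ℝ → ℝ} (hg : Continuous g) (hl : LinGrowth g)
    {j : ℕ} (hj : j = 1 ∨ j = 2) {F : ℝ → ℝ}
    (hF : IntegrableOn (fun S => 1 / S ^ j * √(S + (1 - h ^ 2)) * F S) (Ioi (tc ^ 2)))
    (hT : ∀ S, tc ^ 2 < S → 1 / 2 * TX (omψ ψ) (Gx g) S + F S = 0) :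
    1 / 2 * NN (1 - h ^ 2) (tc ^ 2) j (DD (omψ ψ) (tc ^ 2) (Gx g)) +
      ∫ S in Ioi (tc ^ 2), 1 / S ^ j * √(S + (1 - h ^ 2)) * F S = 0 := by
  have htc := H.tc_pos
  have hc : 0 < tc ^ 2 := by positivity
  have hy : 0 < tc ^ 2 + (1 - h ^ 2) := by linarith [prof_rad H le_rfl]
  obtain ⟨C0, hC0, hW0⟩ := prof_WOK H (tc ^ 2)
  obtain ⟨C1, hC1, hG0⟩ := Gx_GOK hg (tc ^ 2)
  have hN := NN_integrable hc hy hC0 hC1 hW0 hG0 (by omega : 1 ≤ j)
  obtain ⟨hc1, hc2⟩ := cormack hc (hX_int H hg hl) hj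
  have key : ∀ S ∈ Ioi (tc ^ 2),
      1 / 2 * (1 / S ^ j * √(S + (1 - h ^ 2)) * DD (omψ ψ) (tc ^ 2) (Gx g) S) +
      1 / 2 * (1 / S ^ j * ∫ X in Ioo (tc ^ 2) S, cker X S * hX h g X) +
      1 / S ^ j * √(S + (1 - h ^ 2)) * F S = 0 := by
    intro S hS
    have hS' : tc ^ 2 < S := hS
    have hS0 : 0 < S := hc.trans hS'
    obtain ⟨C2, hC2, hW2⟩ := prof_WOK H S
    obtain ⟨C3, hC3, hG3⟩ := Gx_GOK hg S
    have h1 := TX_split hc hC2 hC3 hW2 hG3 hS' le_rfl
    have hsq : 0 < √(S + (1 - h ^ 2)) := Real.sqrt_pos.2 (by linarith)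
    have e2 : ∫ X in Ioo (tc ^ 2) S, Gx g X * (cker X S * omψ ψ X (S - X)) =
        (1 / √(S + (1 - h ^ 2))) * ∫ X in Ioo (tc ^ 2) S, cker X S * hX h g X := by
      rw [← integral_const_mul]
      apply setIntegral_congr_fun measurableSet_Ioo
      intro X hX'
      simp only
      rw [prof_om H hX'.1 (sub_pos.2 hX'.2), show X + (S - X) + (1 - h ^ 2) = S + (1 - h ^ 2) by ring]
      unfold hX
      ring
    have h2 := hT S hS'
    rw [h1, e2] at h2
    have h3 : 1 / S ^ j * √(S + (1 - h ^ 2)) * (1 / 2 * (DD (omψ ψ) (tc ^ 2) (Gx g) S +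
        1 / √(S + (1 - h ^ 2)) * ∫ X in Ioo (tc ^ 2) S, cker X S * hX h g X) + F S) = 0 := by
      rw [h2, mul_zero]
    rw [← h3]
    field_simp
  have h4 : ∫ S in Ioi (tc ^ 2),
      (1 / 2 * (1 / S ^ j * √(S + (1 - h ^ 2)) * DD (omψ ψ) (tc ^ 2) (Gx g) S) +
      1 / 2 * (1 / S ^ j * ∫ X in Ioo (tc ^ 2) S, cker X S * hX h g X) +
      1 / S ^ j * √(S + (1 - h ^ 2)) * F S) = 0 := by
    rw [setIntegral_congr_fun measurableSet_Ioi key]
    simp
  have i1 := hN.const_mul (1 / 2)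
  have i2 := hc1.const_mul (1 / 2)
  have i12 : IntegrableOn (fun S =>
      1 / 2 * (1 / S ^ j * √(S + (1 - h ^ 2)) * DD (omψ ψ) (tc ^ 2) (Gx g) S) +
      1 / 2 * (1 / S ^ j * ∫ X in Ioo (tc ^ 2) S, cker X S * hX h g X)) (Ioi (tc ^ 2)) := i1.add i2
  rw [integral_add i12 hF, integral_add i1 i2, integral_const_mul, integral_const_mul,
    hc2, mul_zero, add_zero] at h4
  exact h4

end Pool.Agent.Lib.MP_85963d_gt.H70
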