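import Pool.Agent.Lib.MP_85963d_gt.H70.Smooth

/-!
# MP_85963d_gt: the limit profile of the smoothing (10.7)
-/

set_option autoImplicit false

open MeasureTheory Set Filter Topology Real
open scoped ContDiff

namespace Pool.Agent.Lib.MP_85963d_gt.H70

/-- the limit of the second derivatives -/
noncomputable def kinf (h tj c0 : ℝ) (φ : ℝ → ℝ) (t : ℝ) : ℝ :=
  if t ≤ tj then c0 * φ t else cp2 h t

/-- the limit profile -/
noncomputable def pinf (h tj tc c0 : ℝ) (φ : ℝ → ℝ) : ℝ → ℝ :=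
  Pi' (cp h tc) tc (kinf h tj c0 φ)

variable {h tj tc a b c0 δ : ℝ} {φ : ℝ → ℝ}

namespace SmD

variable (H : SmD h tj tc a b c0 φ)

include H

omit H in
lemma cp2_anti {s t : ℝ} (hs : 0 < s ^ 2 - h ^ 2 + 1) (h0 : 0 ≤ s) (hst : s ≤ t) :
    cp2 h t ≤ cp2 h s := by
  have h1 : 0 < √(s ^ 2 - h ^ 2 + 1) := Real.sqrt_pos.2 hs
  have h2 : √(s ^ 2 - h ^ 2 + 1) ≤ √(t ^ 2 - h ^ 2 + 1) := Real.sqrt_le_sqrt (by nlinarith)
  unfold cp2
  gcongr

lemma cp2_le {t : ℝ} (ht : tj ≤ t) : cp2 h t ≤ cp2 h tj := cp2_anti H.hy H.tj_pos.le ht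

lemma cp2_tj_pos : 0 < cp2 h tj := cp2_pos H.hy

lemma measurable_kinf : Measurable (kinf h tj c0 φ) := by
  unfold kinf
  apply Measurable.ite measurableSet_Iic
  · exact measurable_const.mul H.sm.continuous.measurable
  · unfold cp2
    fun_prop

lemma kinf_nonneg {t : ℝ} : 0 ≤ kinf h tj c0 φ t := by
  unfold kinf
  split_ifs with ht
  · exact mul_nonneg H.hc0.le (H.nn t)
  · exact (cp2_pos (H.rad_pos (le_of_not_ge ht))).le

lemma phi_bdd : ∃ M, 0 ≤ M ∧ ∀ t, φ t ≤ M := by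
  obtain ⟨M, hM⟩ := (isCompact_Icc (a := a) (b := b)).exists_bound_of_continuousOn
    H.sm.continuous.continuousOn
  refine ⟨max M 0, le_max_right _ _, fun t => ?_⟩
  by_cases ht : t ∈ Icc a b
  · exact ((le_abs_self _).trans (hM t ht)).trans (le_max_left _ _)
  · rw [H.sp t ht]
    exact le_max_right _ _

lemma kinf_le {M : ℝ} (hM : ∀ t, φ t ≤ M) (t : ℝ) :
    kinf h tj c0 φ t ≤ max (c0 * M) (cp2 h tj) := by
  unfold kinf
  split_ifs with ht
  · exact (mul_le_mul_of_nonneg_left (hM t) H.hc0.le).trans (le_max_left _ _)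
  · exact (H.cp2_le (le_of_not_ge ht)).trans (le_max_right _ _)

lemma kinf_int (s t : ℝ) : IntervalIntegrable (kinf h tj c0 φ) volume s t := by
  obtain ⟨M, hM0, hM⟩ := H.phi_bdd
  have : IntegrableOn (kinf h tj c0 φ) (uIcc s t) := by
    refine Measure.integrableOn_of_bounded (M := max (c0 * M) (cp2 h tj)) ?_
      H.measurable_kinf.aestronglyMeasurable ?_
    · simp
    · refine Eventually.of_forall fun u => ?_
      rw [Real.norm_of_nonneg H.kinf_nonneg]
      exact H.kinf_le hM u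
  exact this.intervalIntegrable

lemma kap_int (hδ : 0 < δ) (s t : ℝ) :
    IntervalIntegrable (kap h tj tc c0 δ φ) volume s t :=
  (H.contDiff_kap hδ).continuous.intervalIntegrable _ _

lemma Qinf_lo {t : ℝ} (h0 : 0 ≤ t) (ht : t ≤ tj) :
    Qi (kinf h tj c0 φ) t = c0 * ∫ u in (0:ℝ)..t, φ u := by
  unfold Qi
  rw [← intervalIntegral.integral_const_mul]
  apply intervalIntegral.integral_congr
  intro u hu
  rw [uIcc_of_le h0] at hu
  simp only [kinf, if_pos (hu.2.trans ht)]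

lemma Qinf_hi {t : ℝ} (ht : tj ≤ t) : Qi (kinf h tj c0 φ) t = cp1 h t := by
  have h1 : Qi (kinf h tj c0 φ) t =
      Qi (kinf h tj c0 φ) tj + ∫ u in tj..t, kinf h tj c0 φ u := by
    unfold Qi
    rw [intervalIntegral.integral_add_adjacent_intervals (H.kinf_int _ _) (H.kinf_int _ _)]
  have h2 : ∫ u in tj..t, kinf h tj c0 φ u = ∫ u in tj..t, cp2 h u := by
    rw [intervalIntegral.integral_of_le ht, intervalIntegral.integral_of_le ht]
    apply setIntegral_congr_fun measurableSet_Ioc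
    intro u hu
    simp only [kinf, if_neg (not_le.2 hu.1)]
  rw [h1, h2, H.Qinf_lo H.tj_pos.le le_rfl, H.int_phi H.hbj.le, H.mass, H.int_cp2 le_rfl ht]
  ring

lemma Qinf_cont : Continuous (Qi (kinf h tj c0 φ)) := by
  unfold Qi
  exact intervalIntegral.continuous_primitive (fun a b => H.kinf_int a b) 0

lemma pinf_hi {t : ℝ} (ht : tj ≤ t) : pinf h tj tc c0 φ t = cp h t := by
  have hk : ∀ s t, IntervalIntegrable (Qi (kinf h tj c0 φ)) volume s t := fun s t =>
    H.Qinf_cont.intervalIntegrable _ _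
  have key : ∀ s, tj ≤ s → ∫ u in tj..s, Qi (kinf h tj c0 φ) u = cp h s - cp h tj := by
    intro s hs
    rw [← H.int_cp1 le_rfl hs]
    apply intervalIntegral.integral_congr
    intro u hu
    rw [uIcc_of_le hs] at hu
    exact H.Qinf_hi hu.1
  unfold pinf Pi'
  rw [← intervalIntegral.integral_add_adjacent_intervals (hk 0 tj) (hk tj tc),
    ← intervalIntegral.integral_add_adjacent_intervals (hk 0 tj) (hk tj t), key tc H.hjc.le,
    key t ht]
  ring

lemma pinf_lo {t : ℝ} (h0 : 0 ≤ t) (ht : t ≤ tj) :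
    pinf h tj tc c0 φ t = cp h tj - c0 * (∫ u in (0:ℝ)..tj, Qi φ u) + c0 * ∫ u in (0:ℝ)..t, Qi φ u := by
  have key : ∀ s, 0 ≤ s → s ≤ tj → ∫ u in (0:ℝ)..s, Qi (kinf h tj c0 φ) u =
      c0 * ∫ u in (0:ℝ)..s, Qi φ u := by
    intro s hs0 hs
    rw [← intervalIntegral.integral_const_mul]
    apply intervalIntegral.integral_congr
    intro u hu
    rw [uIcc_of_le hs0] at hu
    exact H.Qinf_lo hu.1 (hu.2.trans hs)
  have h1 := H.pinf_hi (tc := tc) (le_refl tj)
  unfold pinf Pi' at h1 ⊢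
  rw [key tj H.tj_pos.le le_rfl] at h1
  rw [key t h0 ht]
  linarith

/-! ### the error -/

lemma gam_le (hδ : 0 < δ) (hδc : tj + δ ≤ tc) : gam h tj tc δ ≤ cp2 h tj * (δ / tj) := by
  have hE : tj ≤ ∫ t in (0:ℝ)..tc, (1 - chi tj δ t) := by
    have hi : ∀ s t, IntervalIntegrable (fun t => 1 - chi tj δ t) volume s t := fun s t =>
      continuous_one_sub_chi.intervalIntegrable _ _
    rw [← intervalIntegral.integral_add_adjacent_intervals (hi 0 tj) (hi tj tc)]
    have h1 : ∫ t in (0:ℝ)..tj, (1 - chi tj δ t) = tj := by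
      rw [intervalIntegral.integral_congr (g := fun _ => (1:ℝ))]
      · simp
      · intro u hu
        rw [uIcc_of_le H.tj_pos.le] at hu
        simp only
        rw [chi_zero hδ hu.2, sub_zero]
    have h2 : 0 ≤ ∫ t in tj..tc, (1 - chi tj δ t) := by
      apply intervalIntegral.integral_nonneg H.hjc.le
      intro u _
      linarith [chi_le_one tj δ u]
    rw [h1]
    linarith
  have hj := H.tj_pos
  have hM := H.cp2_tj_pos
  have hD : ∫ t in tj..tc, cp2 h t * (1 - chi tj δ t) ≤ cp2 h tj * δ := by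
    have i4 : ∀ s t, tj ≤ s → s ≤ t →
        IntervalIntegrable (fun t => cp2 h t * (1 - chi tj δ t)) volume s t := by
      intro s t hs hst
      apply ContinuousOn.intervalIntegrable
      rw [uIcc_of_le hst]
      exact (H.continuousOn_cp2.mono fun u hu => hs.trans hu.1).mul
        continuous_one_sub_chi.continuousOn
    rw [← intervalIntegral.integral_add_adjacent_intervals (i4 tj (tj + δ) le_rfl (by linarith))
      (i4 (tj + δ) tc (by linarith) hδc)]
    have h1 : ∫ t in (tj + δ)..tc, cp2 h t * (1 - chi tj δ t) = 0 := by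
      rw [intervalIntegral.integral_congr (g := fun _ => (0:ℝ))]
      · simp
      · intro u hu
        rw [uIcc_of_le hδc] at hu
        simp only
        rw [chi_one hδ hu.1, sub_self, mul_zero]
    have h2 : ∫ t in tj..(tj + δ), cp2 h t * (1 - chi tj δ t) ≤
        ∫ _t in tj..(tj + δ), cp2 h tj := by
      apply intervalIntegral.integral_mono_on (by linarith) (i4 _ _ le_rfl (by linarith))
        (by simp)
      intro u hu
      have h3 := H.cp2_le hu.1
      have h4 := chi_nonneg tj δ u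
      have h5 := (cp2_pos (H.rad_pos hu.1)).le
      nlinarith
    rw [h1, add_zero]
    refine h2.trans ?_
    simp
    linarith
  unfold gam
  rw [div_le_iff₀ (hj.trans_le hE)]
  calc _ ≤ cp2 h tj * δ := hD
    _ = cp2 h tj * (δ / tj) * tj := by field_simp
    _ ≤ _ := by gcongr

/-- pointwise error -/
lemma kap_sub_lo (hδ : 0 < δ) {t : ℝ} (h0 : 0 ≤ t) (ht : t ≤ tj) :
    kap h tj tc c0 δ φ t - kinf h tj c0 φ t = gam h tj tc δ := by
  rw [H.kap_eq hδ h0, chi_zero hδ ht, kinf, if_pos ht]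
  ring

lemma kap_sub_hi (hδ : 0 < δ) {t : ℝ} (ht : tj + δ ≤ t) :
    kap h tj tc c0 δ φ t - kinf h tj c0 φ t = 0 := by
  rw [H.kap_far hδ ht, kinf, if_neg (not_le.2 (by linarith))]
  ring

lemma kap_sub_mid (hδ : 0 < δ) (hδc : tj + δ ≤ tc) (hδj : δ ≤ tj) {t : ℝ} (ht : tj < t) :
    |kap h tj tc c0 δ φ t - kinf h tj c0 φ t| ≤ cp2 h tj := by
  have hj := H.tj_pos
  have hM := H.cp2_tj_pos
  have hg := H.gam_pos hδ
  have hg2 : gam h tj tc δ ≤ cp2 h tj := by
    refine (H.gam_le hδ hδc).trans ?_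
    have : δ / tj ≤ 1 := (div_le_one hj).2 hδj
    nlinarith
  rw [H.kap_eq hδ (hj.le.trans ht.le), kinf, if_neg (not_le.2 ht),
    H.sp t (fun h1 => absurd h1.2 (not_le.2 (H.hbj.trans ht)))]
  have e : c0 * 0 + chi tj δ t * cp2 h t + (1 - chi tj δ t) * gam h tj tc δ - cp2 h t =
      (1 - chi tj δ t) * (gam h tj tc δ - cp2 h t) := by ring
  have h1 := chi_nonneg tj δ t
  have h2 := chi_le_one tj δ t
  have h3 := H.cp2_le ht.le
  have h4 := cp2_pos (H.rad_pos ht.le)
  rw [e, abs_mul, abs_of_nonneg (by linarith : 0 ≤ 1 - chi tj δ t)]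
  have h5 : |gam h tj tc δ - cp2 h t| ≤ cp2 h tj := by
    rw [abs_le]
    constructor <;> linarith
  calc (1 - chi tj δ t) * |gam h tj tc δ - cp2 h t| ≤ 1 * cp2 h tj := by
        gcongr
        linarith
    _ = _ := one_mul _

/-- the `L¹` error -/
lemma kap_sub_int (hδ : 0 < δ) (hδc : tj + δ ≤ tc) (hδj : δ ≤ tj) :
    ∫ t in (0:ℝ)..tc, |kap h tj tc c0 δ φ t - kinf h tj c0 φ t| ≤ 2 * cp2 h tj * δ := by
  have hj := H.tj_pos
  have hM := H.cp2_tj_pos
  have hi : ∀ s t, IntervalIntegrable (fun t => |kap h tj tc c0 δ φ t - kinf h tj c0 φ t|)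
      volume s t := fun s t => ((H.kap_int hδ s t).sub (H.kinf_int s t)).abs
  rw [← intervalIntegral.integral_add_adjacent_intervals (hi 0 (tj + δ)) (hi (tj + δ) tc),
    ← intervalIntegral.integral_add_adjacent_intervals (hi 0 tj) (hi tj (tj + δ))]
  have h1 : ∫ t in (0:ℝ)..tj, |kap h tj tc c0 δ φ t - kinf h tj c0 φ t| ≤ cp2 h tj * δ := by
    have : ∫ t in (0:ℝ)..tj, |kap h tj tc c0 δ φ t - kinf h tj c0 φ t| =
        ∫ _t in (0:ℝ)..tj, gam h tj tc δ := by
      apply intervalIntegral.integral_congr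
      intro u hu
      rw [uIcc_of_le hj.le] at hu
      simp only
      rw [H.kap_sub_lo hδ hu.1 hu.2, abs_of_pos (H.gam_pos hδ)]
    rw [this]
    simp only [intervalIntegral.integral_const, sub_zero, smul_eq_mul]
    have h2 := H.gam_le hδ hδc
    calc tj * gam h tj tc δ ≤ tj * (cp2 h tj * (δ / tj)) := by gcongr
      _ = _ := by field_simp
  have h2 : ∫ t in tj..(tj + δ), |kap h tj tc c0 δ φ t - kinf h tj c0 φ t| ≤ cp2 h tj * δ := by
    rw [intervalIntegral.integral_of_le (by linarith)]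
    have h3 : ∫ t in Ioc tj (tj + δ), |kap h tj tc c0 δ φ t - kinf h tj c0 φ t| ≤
        ∫ _t in Ioc tj (tj + δ), cp2 h tj := by
      apply setIntegral_mono_on
      · exact (hi tj (tj + δ)).1
      · exact integrableOn_const (by simp) (by simp)
      · exact measurableSet_Ioc
      · intro t ht
        exact H.kap_sub_mid hδ hδc hδj ht.1
    refine h3.trans (le_of_eq ?_)
    simp only [setIntegral_const, Real.volume_real_Ioc, smul_eq_mul]
    rw [max_eq_left (by linarith)]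
    ring
  have h3 : ∫ t in (tj + δ)..tc, |kap h tj tc c0 δ φ t - kinf h tj c0 φ t| = 0 := by
    rw [intervalIntegral.integral_congr (g := fun _ => (0:ℝ))]
    · simp
    · intro u hu
      rw [uIcc_of_le hδc] at hu
      simp only
      rw [H.kap_sub_hi hδ hu.1, abs_zero]
  rw [h3]
  linarith

lemma Q_sub_le (hδ : 0 < δ) (hδc : tj + δ ≤ tc) (hδj : δ ≤ tj) {t : ℝ} (h0 : 0 ≤ t)
    (ht : t ≤ tc) :
    |Qi (kap h tj tc c0 δ φ) t - Qi (kinf h tj c0 φ) t| ≤ 2 * cp2 h tj * δ := by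
  unfold Qi
  rw [← intervalIntegral.integral_sub (H.kap_int hδ _ _) (H.kinf_int _ _)]
  refine (intervalIntegral.abs_integral_le_integral_abs h0).trans ?_
  refine le_trans ?_ (H.kap_sub_int hδ hδc hδj)
  apply intervalIntegral.integral_mono_interval le_rfl h0 ht
  · exact Eventually.of_forall fun _ => abs_nonneg _
  · exact ((H.kap_int hδ 0 tc).sub (H.kinf_int 0 tc)).abs

lemma p_sub_eq (hδ : 0 < δ) (t : ℝ) :
    psm h tj tc c0 δ φ t - pinf h tj tc c0 φ t =
      -∫ u in t..tc, (Qi (kap h tj tc c0 δ φ) u - Qi (kinf h tj c0 φ) u) := by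
  have h1 : ∀ s t, IntervalIntegrable (Qi (kap h tj tc c0 δ φ)) volume s t := fun s t =>
    (H.contDiff_Qi hδ).continuous.intervalIntegrable _ _
  have h2 : ∀ s t, IntervalIntegrable (Qi (kinf h tj c0 φ)) volume s t := fun s t =>
    H.Qinf_cont.intervalIntegrable _ _
  unfold psm pinf Pi'
  rw [intervalIntegral.integral_sub (h1 _ _) (h2 _ _),
    ← intervalIntegral.integral_add_adjacent_intervals (h1 0 t) (h1 t tc),
    ← intervalIntegral.integral_add_adjacent_intervals (h2 0 t) (h2 t tc)]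
  ring

lemma p_sub_le (hδ : 0 < δ) (hδc : tj + δ ≤ tc) (hδj : δ ≤ tj) {t : ℝ} (h0 : 0 ≤ t)
    (ht : t ≤ tc) :
    |psm h tj tc c0 δ φ t - pinf h tj tc c0 φ t| ≤ 2 * cp2 h tj * δ * tc := by
  rw [H.p_sub_eq hδ, abs_neg]
  have hM := H.cp2_tj_pos
  have h1 : ‖∫ u in t..tc, (Qi (kap h tj tc c0 δ φ) u - Qi (kinf h tj c0 φ) u)‖ ≤
      (2 * cp2 h tj * δ) * |tc - t| := by
    apply intervalIntegral.norm_integral_le_of_norm_le_const
    intro u hu
    rw [uIoc_of_le ht] at hu
    exact H.Q_sub_le hδ hδc hδj (h0.trans hu.1.le) hu.2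
  rw [Real.norm_eq_abs, abs_of_nonneg (by linarith : 0 ≤ tc - t)] at h1
  refine h1.trans ?_
  have := H.tc_pos
  gcongr
  linarith

/-- near the equator -/
lemma Q_near (hδ : 0 < δ) {t : ℝ} (h0 : 0 ≤ t) (ht : t < a) :
    Qi (kap h tj tc c0 δ φ) t = gam h tj tc δ * t := by
  unfold Qi
  rw [intervalIntegral.integral_congr (g := fun _ => gam h tj tc δ)]
  · simp
    ring
  · intro u hu
    rw [uIcc_of_le h0] at hu
    exact H.kap_near hδ hu.1 (hu.2.trans_lt ht)

lemma Qinf_near {t : ℝ} (h0 : 0 ≤ t) (ht : t < a) : Qi (kinf h tj c0 φ) t = 0 := by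
  unfold Qi
  rw [intervalIntegral.integral_congr (g := fun _ => (0:ℝ))]
  · simp
  · intro u hu
    rw [uIcc_of_le h0] at hu
    simp only
    rw [kinf, if_pos ((hu.2.trans ht.le).trans (H.hab.trans H.hbj).le),
      H.sp u (fun h1 => absurd h1.1 (not_le.2 (hu.2.trans_lt ht))), mul_zero]

lemma psm_near (hδ : 0 < δ) {t : ℝ} (h0 : 0 ≤ t) (ht : t < a) :
    psm h tj tc c0 δ φ t = psm h tj tc c0 δ φ 0 + gam h tj tc δ * t ^ 2 / 2 := by
  unfold psm Pi'
  have h1 : ∫ u in (0:ℝ)..t, Qi (kap h tj tc c0 δ φ) u = gam h tj tc δ * t ^ 2 / 2 := by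
    rw [intervalIntegral.integral_congr (g := fun u => gam h tj tc δ * u)]
    · rw [intervalIntegral.integral_const_mul, integral_id]
      ring
    · intro u hu
      rw [uIcc_of_le h0] at hu
      exact H.Q_near hδ hu.1 (hu.2.trans_lt ht)
  rw [h1]
  simp

lemma pinf_near {t : ℝ} (h0 : 0 ≤ t) (ht : t < a) :
    pinf h tj tc c0 φ t = pinf h tj tc c0 φ 0 := by
  unfold pinf Pi'
  have h1 : ∫ u in (0:ℝ)..t, Qi (kinf h tj c0 φ) u = 0 := by
    rw [intervalIntegral.integral_congr (g := fun _ => (0:ℝ))]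
    · simp
    · intro u hu
      rw [uIcc_of_le h0] at hu
      exact H.Qinf_near hu.1 (hu.2.trans_lt ht)
  rw [h1]
  simp

end SmD

end Pool.Agent.Lib.MP_85963d_gt.H70
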