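import Pool.Agent.Lib.MP_85963d_gt.H70.Bord

/-!
# MP_85963d_gt: the bordered one-dimensional problem, assembly
-/

set_option autoImplicit false

open MeasureTheory Set Filter Topology Real

namespace Pool.Agent.Lib.MP_85963d_gt.H70

open Pool.Agent.MP85963d

/-! ### linear algebra of solutions -/

lemma IsSol.GOK {w : ℝ → ℝ → ℝ} {b : ℝ} {G : ℝ → ℝ} (h : IsSol w b G) :
    ∃ C, 0 ≤ C ∧ GOK b C G := by
  obtain ⟨C, hC⟩ := h.bd
  refine ⟨max C 0, le_max_right _ _, ?_, fun X hX => ?_⟩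
  · exact (h.cont.mono Ioo_subset_Ioc_self).aestronglyMeasurable measurableSet_Ioo
  · refine (hC X ⟨hX.1, hX.2.le⟩).trans ?_
    gcongr
    exact le_max_left _ _

lemma IsSol.congr_w {w w' : ℝ → ℝ → ℝ} {b : ℝ} {G : ℝ → ℝ} (h : IsSol w b G)
    (hw : ∀ X ∈ Ioo 0 b, ∀ Y, 0 < Y → w X Y = w' X Y) : IsSol w' b G := by
  refine ⟨h.cont, h.bd, ?_⟩
  filter_upwards [h.eq] with s hs hsb
  rw [← hs hsb]
  apply setIntegral_congr_fun measurableSet_Ioo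
  intro X hX
  simp only
  rw [hw X ⟨hX.1, hX.2.trans hsb.2⟩ _ (sub_pos.2 hX.2)]

lemma IsSol.mono {w : ℝ → ℝ → ℝ} {b b' : ℝ} {G : ℝ → ℝ} (h : IsSol w b G) (hb : b' ≤ b) :
    IsSol w b' G := by
  refine ⟨h.cont.mono (Ioc_subset_Ioc_right hb), ?_, ?_⟩
  · obtain ⟨C, hC⟩ := h.bd
    exact ⟨C, fun X hX => hC X ⟨hX.1, hX.2.trans hb⟩⟩
  · filter_upwards [h.eq] with s hs hsb
    exact hs ⟨hsb.1, hsb.2.trans_le hb⟩

/-- `G - ∑ x_k G_k` -/
lemma IsSol.sub_sum {w : ℝ → ℝ → ℝ} {b C : ℝ} (hC : 0 ≤ C) (hw : WOK b C w) {G : ℝ → ℝ}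
    (h : IsSol w b G) {F : Fin 2 → ℝ → ℝ} (hF : ∀ k, IsSol w b (F k)) (x : Fin 2 → ℝ) :
    IsSol w b (fun X => G X - ∑ k, x k * F k X) := by
  refine ⟨?_, ?_, ?_⟩
  · apply h.cont.sub
    exact continuousOn_finsetSum _ fun k _ => continuousOn_const.mul (hF k).cont
  · obtain ⟨C0, h0⟩ := h.bd
    choose C1 h1 using fun k => (hF k).bd
    refine ⟨C0 + ∑ k, |x k| * C1 k, fun X hX => ?_⟩
    have e : (C0 + ∑ k, |x k| * C1 k) / √X = C0 / √X + ∑ k, |x k| * (C1 k / √X) := by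
      rw [add_div, Finset.sum_div]
      congr 1
      apply Finset.sum_congr rfl
      intro k _
      ring
    rw [e]
    calc |G X - ∑ k, x k * F k X| ≤ |G X| + |∑ k, x k * F k X| := abs_sub _ _
      _ ≤ C0 / √X + ∑ k, |x k| * (C1 k / √X) := by
        apply add_le_add (h0 X hX)
        refine (Finset.abs_sum_le_sum_abs _ _).trans ?_
        apply Finset.sum_le_sum
        intro k _
        rw [abs_mul]
        exact mul_le_mul_of_nonneg_left (h1 k X hX) (abs_nonneg _)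
  · obtain ⟨CG, hCG, hG⟩ := h.GOK
    choose CF hCF hFG using fun k => (hF k).GOK
    filter_upwards [h.eq, (hF 0).eq, (hF 1).eq] with s hs h0 h1 hsb
    have i := TX_integrable hC hCG hw hG hsb.1 hsb.2.le
    have i0 := TX_integrable hC (hCF 0) hw (hFG 0) hsb.1 hsb.2.le
    have i1 := TX_integrable hC (hCF 1) hw (hFG 1) hsb.1 hsb.2.le
    have e : TX w (fun X => G X - ∑ k, x k * F k X) s =
        TX w G s - (x 0 * TX w (F 0) s + x 1 * TX w (F 1) s) := by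
      unfold TX
      have i01 : IntegrableOn (fun X => x 0 * (F 0 X * (cker X s * w X (s - X))) +
          x 1 * (F 1 X * (cker X s * w X (s - X)))) (Ioo 0 s) :=
        (i0.const_mul (x 0)).add (i1.const_mul (x 1))
      rw [← integral_const_mul, ← integral_const_mul,
        ← integral_add (i0.const_mul _) (i1.const_mul _), ← integral_sub i i01]
      apply setIntegral_congr_fun measurableSet_Ioo
      intro X _
      simp only [Fin.sum_univ_two]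
      ring
    rw [e, hs hsb, h0 hsb, h1 hsb]
    ring

/-- the numbers `N` of a combination -/
lemma NN_sum {y0 b C : ℝ} (hb : 0 < b) (hy : 0 < b + y0) (hC : 0 ≤ C) {w : ℝ → ℝ → ℝ}
    (hw : WOK b C w) {F : Fin 2 → ℝ → ℝ} (hF : ∀ k, IsSol w b (F k)) {G : ℝ → ℝ}
    (x : Fin 2 → ℝ) (hG : ∀ X ∈ Ioo 0 b, G X = ∑ k, x k * F k X) {j : ℕ} (hj : 1 ≤ j) :
    NN y0 b j (DD w b G) = ∑ k, NN y0 b j (DD w b (F k)) * x k := by
  choose CF hCF hFG using fun k => (hF k).GOK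
  have i0 := NN_integrable hb hy hC (hCF 0) hw (hFG 0) hj
  have i1 := NN_integrable hb hy hC (hCF 1) hw (hFG 1) hj
  have e : ∀ s ∈ Ioi b, DD w b G s = x 0 * DD w b (F 0) s + x 1 * DD w b (F 1) s := by
    intro s hs
    have k0 := DD_integrable hb hC (hCF 0) hw (hFG 0) hs
    have k1 := DD_integrable hb hC (hCF 1) hw (hFG 1) hs
    unfold DD
    rw [← integral_const_mul, ← integral_const_mul,
      ← integral_add (k0.const_mul _) (k1.const_mul _)]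
    apply setIntegral_congr_fun measurableSet_Ioo
    intro X hX
    simp only
    rw [hG X hX, Fin.sum_univ_two]
    ring
  have e2 : NN y0 b j (DD w b G) =
      ∫ s in Ioi b, (x 0 * (1 / s ^ j * √(s + y0) * DD w b (F 0) s) +
        x 1 * (1 / s ^ j * √(s + y0) * DD w b (F 1) s)) := by
    unfold NN
    apply setIntegral_congr_fun measurableSet_Ioi
    intro s hs
    simp only
    rw [e s hs]
    ring
  rw [e2, integral_add (i0.const_mul _) (i1.const_mul _), integral_const_mul,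
    integral_const_mul, Fin.sum_univ_two]
  unfold NN
  ring

/-! ### segments of profiles -/

lemma seg_hasDerivAt {h tc : ℝ} {ψ₀ ψ₁ : ℝ → ℝ} (H0 : IsProf h tc ψ₀) (H1 : IsProf h tc ψ₁)
    (s t : ℝ) : HasDerivAt (psiSeg ψ₀ ψ₁ s) ((1 - s) * deriv ψ₀ t + s * deriv ψ₁ t) t :=
  ((prof_hasDerivAt H0 t).const_mul _).add ((prof_hasDerivAt H1 t).const_mul _)

lemma seg_deriv {h tc : ℝ} {ψ₀ ψ₁ : ℝ → ℝ} (H0 : IsProf h tc ψ₀) (H1 : IsProf h tc ψ₁)
    (s : ℝ) : deriv (psiSeg ψ₀ ψ₁ s) = fun t => (1 - s) * deriv ψ₀ t + s * deriv ψ₁ t := by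
  ext t
  exact (seg_hasDerivAt H0 H1 s t).deriv

lemma seg_deriv2 {h tc : ℝ} {ψ₀ ψ₁ : ℝ → ℝ} (H0 : IsProf h tc ψ₀) (H1 : IsProf h tc ψ₁)
    (s t : ℝ) : deriv (deriv (psiSeg ψ₀ ψ₁ s)) t =
      (1 - s) * deriv (deriv ψ₀) t + s * deriv (deriv ψ₁) t := by
  rw [seg_deriv H0 H1]
  exact (((prof_hasDerivAt2 H0 t).const_mul _).add ((prof_hasDerivAt2 H1 t).const_mul _)).deriv

lemma seg_prof {h tc : ℝ} {ψ₀ ψ₁ : ℝ → ℝ} (H0 : IsProf h tc ψ₀) (H1 : IsProf h tc ψ₁)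
    {s : ℝ} (hs : s ∈ Icc (0:ℝ) 1) : IsProf h tc (psiSeg ψ₀ ψ₁ s) where
  one_lt := H0.one_lt
  tc_pos := H0.tc_pos
  tc_lt := H0.tc_lt
  smooth := (contDiff_const.mul H0.smooth).add (contDiff_const.mul H1.smooth)
  even t := by simp only [psiSeg, H0.even, H1.even]
  conv t := by
    rw [seg_deriv2 H0 H1]
    have h0 := H0.conv t
    have h1 := H1.conv t
    have s0 : 0 ≤ s := hs.1
    have s1 : 0 ≤ 1 - s := by linarith [hs.2]
    rcases eq_or_lt_of_le s0 with he | he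
    · rw [← he]
      linarith
    · have : 0 < s * deriv (deriv ψ₁) t := by positivity
      have : 0 ≤ (1 - s) * deriv (deriv ψ₀) t := by positivity
      linarith
  S_pos t := by
    have e : Sf (psiSeg ψ₀ ψ₁ s) t = (1 - s) * Sf ψ₀ t + s * Sf ψ₁ t := by
      unfold Sf
      rw [seg_deriv H0 H1]
      simp only [psiSeg]
      ring
    rw [e]
    have h0 := H0.S_pos t
    have h1 := H1.S_pos t
    have s0 : 0 ≤ s := hs.1
    have s1 : 0 ≤ 1 - s := by linarith [hs.2]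
    rcases eq_or_lt_of_le s0 with he | he
    · rw [← he]
      linarith
    · have : 0 < s * Sf ψ₁ t := by positivity
      have : 0 ≤ (1 - s) * Sf ψ₀ t := by positivity
      linarith
  cap t ht := by
    simp only [psiSeg, H0.cap t ht, H1.cap t ht]
    ring

/-- local equality of weights -/
lemma omψ_congr {ψ ψ' : ℝ → ℝ} {t₁ : ℝ} (h : ∀ t, |t| ≤ t₁ → ψ t = ψ' t) {X Y : ℝ}
    (hX : X ∈ Ioo 0 (t₁ ^ 2)) (ht : 0 < t₁) : omψ ψ X Y = omψ ψ' X Y := by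
  have h1 : √X < t₁ := (Real.sqrt_lt' ht).2 hX.2
  have h2 : 0 < √X := Real.sqrt_pos.2 hX.1
  have he : ∀ t, |t| < t₁ → ψ =ᶠ[𝓝 t] ψ' := by
    intro t ht'
    have : ∀ᶠ u in 𝓝 t, |u| < t₁ := (continuous_abs.tendsto t).eventually (gt_mem_nhds ht')
    filter_upwards [this] with u hu
    exact h u hu.le
  have hd : ∀ t, |t| < t₁ → deriv ψ t = deriv ψ' t := fun t ht' => (he t ht').deriv_eq
  have hd2 : ∀ t, |t| < t₁ → deriv (deriv ψ) t = deriv (deriv ψ') t := by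
    intro t ht'
    have : ∀ᶠ u in 𝓝 t, |u| < t₁ := (continuous_abs.tendsto t).eventually (gt_mem_nhds ht')
    have he2 : deriv ψ =ᶠ[𝓝 t] deriv ψ' := by
      filter_upwards [this] with u hu
      exact hd u hu
    exact he2.deriv_eq
  have h3 : |√X| < t₁ := by rwa [abs_of_pos h2]
  unfold omψ om Sf
  rw [h _ h3.le, hd _ h3, hd2 _ h3]

/-! ### input -/

/-- vanishing near `0` implies vanishing (7.2) -/
def VanStatement : Prop :=
  ∀ (h tc : ℝ) (ψ : ℝ → ℝ), IsProf h tc ψ → ∀ (b x₁ : ℝ) (G : ℝ → ℝ), 0 < x₁ → x₁ ≤ b →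
    IsSol (omψ ψ) b G → (∀ X ∈ Ioo 0 x₁, G X = 0) → ∀ X ∈ Ioo 0 b, G X = 0

/-- the matrix `N_k(D_j)` -/
noncomputable def Nm (h tc : ℝ) (ψ : ℝ → ℝ) (G : Fin 2 → ℝ → ℝ) : Matrix (Fin 2) (Fin 2) ℝ :=
  Matrix.of fun j k => NN (1 - h ^ 2) (tc ^ 2) (j.val + 1) (DD (omψ ψ) (tc ^ 2) (G k))

/-- two profiles with opposite signs of `det N` -/
structure BordInput (h t₁ tc : ℝ) (ψ : Fin 2 → ℝ → ℝ) (G : Fin 2 → Fin 2 → ℝ → ℝ) : Prop where
  t1_pos : 0 < t₁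
  t1_lt : t₁ < tc
  prof : ∀ i, IsProf h tc (ψ i)
  same : ∀ t, |t| ≤ t₁ → ψ 0 t = ψ 1 t
  sol : ∀ i k, IsSol (omψ (ψ i)) (tc ^ 2) (G i k)
  agree : ∀ k, ∀ X ∈ Ioo 0 (t₁ ^ 2), G 0 k X = G 1 k X
  indep : ∀ x : Fin 2 → ℝ, (∀ X ∈ Ioo 0 (t₁ ^ 2), ∑ k, x k * G 0 k X = 0) → x = 0
  span : ∀ F : ℝ → ℝ, IsSol (omψ (ψ 0)) (t₁ ^ 2) F →
    ∃ x : Fin 2 → ℝ, ∀ X ∈ Ioo 0 (t₁ ^ 2), F X = ∑ k, x k * G 0 k X
  det : (Nm h tc (ψ 0) (G 0)).det * (Nm h tc (ψ 1) (G 1)).det < 0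

end Pool.Agent.Lib.MP_85963d_gt.H70
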