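import Pool.Agent.Lib.MP_85963d_gt.H70.Wdiff

/-!
# MP_85963d_gt: the non-smooth bodies (statement)
-/

set_option autoImplicit false

open MeasureTheory Set Filter Topology Real

namespace Pool.Agent.Lib.MP_85963d_gt.H70

/-- the weight of the normalised data of `κ` with `ψ(0) = p` -/
noncomputable def wκ (p : ℝ) (κ : ℝ → ℝ) : ℝ → ℝ → ℝ := om (nP p κ) (nQ p κ) (nS p κ) (nK p κ)

/-- its derivative in `Y` -/
noncomputable def wκ' (p : ℝ) (κ : ℝ → ℝ) : ℝ → ℝ → ℝ :=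
  om' (nP p κ) (nQ p κ) (nS p κ) (nK p κ)

/-- the (normalised) weight of the limit (non-smooth) capsule -/
noncomputable def winf (h tj tc c0 : ℝ) (φ : ℝ → ℝ) : ℝ → ℝ → ℝ :=
  wκ (pinf h tj tc c0 φ 0) (kinf h tj c0 φ)

/-- the matrix `N_k(D_j)` of a weight and two solutions -/
noncomputable def Nw (h tc : ℝ) (w : ℝ → ℝ → ℝ) (G : Fin 2 → ℝ → ℝ) :
    Matrix (Fin 2) (Fin 2) ℝ :=
  Matrix.of fun j k => NN (1 - h ^ 2) (tc ^ 2) (j.val + 1) (DD w (tc ^ 2) (G k))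

/-- NONSMOOTH: two non-smooth capsules with opposite signs of `det N` -/
def NonsmoothStatement : Prop :=
  ∃ (h tj tc a b c0 : ℝ) (φ : Fin 2 → ℝ → ℝ) (G : Fin 2 → Fin 2 → ℝ → ℝ),
    (∀ i, SmD h tj tc a b c0 (φ i)) ∧
    (∫ t, t * φ 0 t = ∫ t, t * φ 1 t) ∧
    (∀ i, 0 < pinf h tj tc c0 (φ i) 0) ∧
    (∀ i k, H87.SolW (tc ^ 2) (winf h tj tc c0 (φ i)) (G i k)) ∧
    (∀ k, ∀ X ∈ Ioo 0 (a ^ 2), G 0 k X = G 1 k X) ∧
    (∀ y : ℝ, 0 < y → ∀ x : Fin 2 → ℝ, (∀ X ∈ Ioo 0 y, ∑ k, x k * G 0 k X = 0) → x = 0) ∧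
    (Nw h tc (winf h tj tc c0 (φ 0)) (G 0)).det * (Nw h tc (winf h tj tc c0 (φ 1)) (G 1)).det < 0

end Pool.Agent.Lib.MP_85963d_gt.H70
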