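import Mathlib

/-!
# MP_85963d_gt: Lipschitz bounds of the weight (statement)
-/

set_option autoImplicit false

open MeasureTheory Set Filter Topology Real

namespace Pool.Agent.Lib.MP_85963d_gt.H70

/-- the weight as a function of numbers, `P = ψ`, `Q = ψ'`, `S = ψ - tψ'`, `K = ψ''`, `Y = a²-t²` -/
noncomputable def omn (P Q S K Y : ℝ) : ℝ := (S + Y * K) / √(P ^ 2 + Y * (Q ^ 2 + S ^ 2)) ^ 3

/-- its derivative with respect to `Y` -/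
noncomputable def omn' (P Q S K Y : ℝ) : ℝ :=
  K / √(P ^ 2 + Y * (Q ^ 2 + S ^ 2)) ^ 3 -
    3 / 2 * (S + Y * K) * (Q ^ 2 + S ^ 2) / √(P ^ 2 + Y * (Q ^ 2 + S ^ 2)) ^ 5

/-- WLIP: derivative, bounds and Lipschitz bounds on compact sets of parameters -/
def WLipStatement : Prop :=
  (∀ P Q S K Y : ℝ, 0 < P → 0 ≤ Y → HasDerivAt (omn P Q S K) (omn' P Q S K Y) Y) ∧
  ∀ c C b : ℝ, 0 < c → 0 ≤ C → 0 ≤ b → ∃ L : ℝ, 0 ≤ L ∧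
    (∀ P Q S K Y : ℝ, c ≤ P → P ≤ C → c ≤ S → S ≤ C → |Q| ≤ C → |K| ≤ C →
      0 ≤ Y → Y ≤ b → |omn P Q S K Y| ≤ L ∧ |omn' P Q S K Y| ≤ L) ∧
    ∀ P Q S K P' Q' S' K' Y : ℝ, c ≤ P → P ≤ C → c ≤ S → S ≤ C → |Q| ≤ C → |K| ≤ C →
      c ≤ P' → P' ≤ C → c ≤ S' → S' ≤ C → |Q'| ≤ C → |K'| ≤ C → 0 ≤ Y → Y ≤ b →
      |omn P Q S K Y - omn P' Q' S' K' Y| ≤
        L * (|P - P'| + |S - S'| + Y * (|K - K'| + |Q ^ 2 - Q' ^ 2|)) ∧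
      |omn' P Q S K Y - omn' P' Q' S' K' Y| ≤
        L * (|P - P'| + |S - S'| + |Q ^ 2 - Q' ^ 2| + |K - K'|)

end Pool.Agent.Lib.MP_85963d_gt.H70
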