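import Pool.Agent.Lib.MP_85963d_gt.H70.Bord2

/-!
# MP_85963d_gt: BORD1D: `Sign1DStatement` from two profiles with opposite signs
-/

set_option autoImplicit false

open MeasureTheory Set Filter Topology Real

namespace Pool.Agent.Lib.MP_85963d_gt.H70

open Pool.Agent.MP85963d

variable {h t₁ tc : ℝ} {ψ : Fin 2 → ℝ → ℝ} {G : Fin 2 → Fin 2 → ℝ → ℝ}

/-- the functions `g_k` -/
noncomputable def gk (G : Fin 2 → Fin 2 → ℝ → ℝ) (k : Fin 2) (t : ℝ) : ℝ := t * G 0 k (t ^ 2)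

lemma BordInput.gk_cont (H : BordInput h t₁ tc ψ G) (k : Fin 2) :
    ContinuousOn (gk G k) (Ioo 0 t₁) := by
  unfold gk
  apply continuousOn_id.mul
  apply (H.sol 0 k).cont.comp (by fun_prop)
  intro t ht
  have := H.t1_lt
  have := ht.1
  have := ht.2
  exact ⟨by positivity, by nlinarith⟩

lemma BordInput.gk_indep (H : BordInput h t₁ tc ψ G) (x : Fin 2 → ℝ)
    (hx : ∀ t ∈ Ioo 0 t₁, ∑ k, x k * gk G k t = 0) : x = 0 := by
  apply H.indep x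
  intro X hX
  have h1 : √X < t₁ := (Real.sqrt_lt' H.t1_pos).2 hX.2
  have h2 : 0 < √X := Real.sqrt_pos.2 hX.1
  have h3 := hx (√X) ⟨h2, h1⟩
  unfold gk at h3
  rw [Real.sq_sqrt hX.1.le] at h3
  have h4 : √X * ∑ k, x k * G 0 k X = 0 := by
    rw [← h3, Finset.mul_sum]
    apply Finset.sum_congr rfl
    intro k _
    ring
  rcases mul_eq_zero.1 h4 with h5 | h5
  · exact absurd h5 h2.ne'
  · exact h5

/-- what we know about a solution of the bordered problem -/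
structure BSol (h t₁ tc : ℝ) (φ : ℝ → ℝ) (β ϖ : Fin 2 → ℝ → ℝ) (g : ℝ → ℝ) (c : Fin 2 → ℝ) :
    Prop where
  prof : IsProf h tc φ
  cont : Continuous g
  lin : LinGrowth g
  eq : ∀ a : ℝ, 0 < a → T1 φ g a + ∑ i, c i * β i a = 0

variable {β ϖ : Fin 2 → ℝ → ℝ} {φ g : ℝ → ℝ} {c : Fin 2 → ℝ}

lemma BSol.TX_eq (hT : T1ConvStatement) (B : BSol h t₁ tc φ β ϖ g c) {S : ℝ} (hS : 0 < S) :
    1 / 2 * TX (omψ φ) (Gx g) S + ∑ i, c i * β i (√S) = 0 := by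
  have h1 := B.eq (√S) (Real.sqrt_pos.2 hS)
  rw [hT φ g (√S) (Real.sqrt_pos.2 hS), Real.sq_sqrt hS.le] at h1
  exact h1

lemma BSol.isSol (hT : T1ConvStatement) (B : BSol h t₁ tc φ β ϖ g c)
    (hβ : ∀ i, tsupport (β i) ⊆ Ioi tc) : IsSol (omψ φ) (tc ^ 2) (Gx g) := by
  refine ⟨?_, ?_, ?_⟩
  · unfold Gx
    apply ContinuousOn.div
    · exact (B.cont.comp Real.continuous_sqrt).continuousOn
    · exact Real.continuous_sqrt.continuousOn
    · intro X hX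
      exact (Real.sqrt_pos.2 hX.1).ne'
  · obtain ⟨C, _, hC⟩ := Gx_GOK B.cont (tc ^ 2 + 1)
    exact ⟨C, fun X hX => hC.bd X ⟨hX.1, by linarith [hX.2]⟩⟩
  · refine Eventually.of_forall fun s hs => ?_
    have h1 := B.TX_eq hT hs.1
    have h2 : √s < tc := (Real.sqrt_lt' B.prof.tc_pos).2 hs.2
    have h3 : ∀ i, β i (√s) = 0 := by
      intro i
      by_contra hne
      have := hβ i (subset_tsupport _ (Function.mem_support.2 hne))
      exact absurd this (not_lt.2 h2.le)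
    simp only [h3, mul_zero, Finset.sum_const_zero, add_zero] at h1
    linarith

/-- the moment matrix of `β` -/
noncomputable def Bm (h tc : ℝ) (β : Fin 2 → ℝ → ℝ) : Matrix (Fin 2) (Fin 2) ℝ :=
  Matrix.of fun j i =>
    ∫ S in Ioi (tc ^ 2), 1 / S ^ (j.val + 1) * √(S + (1 - h ^ 2)) * β i (√S)

/-- the matrix of the functionals -/
noncomputable def Pm (t₁ : ℝ) (G : Fin 2 → Fin 2 → ℝ → ℝ) (ϖ : Fin 2 → ℝ → ℝ) :
    Matrix (Fin 2) (Fin 2) ℝ :=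
  Matrix.of fun i k => ∫ t in (0:ℝ)..t₁, ϖ i t * gk G k t

lemma BSol.cormack (hT : T1ConvStatement) (B : BSol h t₁ tc φ β ϖ g c)
    (hβi : ∀ (i : Fin 2) (j : ℕ), 1 ≤ j →
      IntegrableOn (fun S => 1 / S ^ j * √(S + (1 - h ^ 2)) * β i (√S)) (Ioi (tc ^ 2))) (j : Fin 2) :
    1 / 2 * NN (1 - h ^ 2) (tc ^ 2) (j.val + 1) (DD (omψ φ) (tc ^ 2) (Gx g)) +
      ((Bm h tc β).mulVec c) j = 0 := by
  have hj : j.val + 1 = 1 ∨ j.val + 1 = 2 := by omega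
  have hj1 : 1 ≤ j.val + 1 := by omega
  have e0 : ∀ S, 1 / S ^ (j.val + 1) * √(S + (1 - h ^ 2)) * (∑ i, c i * β i (√S)) =
      c 0 * (1 / S ^ (j.val + 1) * √(S + (1 - h ^ 2)) * β 0 (√S)) +
      c 1 * (1 / S ^ (j.val + 1) * √(S + (1 - h ^ 2)) * β 1 (√S)) := by
    intro S
    rw [Fin.sum_univ_two]
    ring
  have i0 := (hβi 0 _ hj1).const_mul (c 0)
  have i1 := (hβi 1 _ hj1).const_mul (c 1)
  have hF : IntegrableOn (fun S => 1 / S ^ (j.val + 1) * √(S + (1 - h ^ 2)) *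
      (∑ i, c i * β i (√S))) (Ioi (tc ^ 2)) := by
    simp only [e0]
    exact i0.add i1
  have h1 := cormack_prof B.prof B.cont B.lin hj hF
    (fun S hS => B.TX_eq hT (lt_of_le_of_lt (sq_nonneg tc) hS))
  rw [← h1]
  congr 1
  simp only [e0]
  rw [integral_add i0 i1, integral_const_mul, integral_const_mul]
  simp only [Bm, Matrix.mulVec, dotProduct, Matrix.of_apply, Fin.sum_univ_two]
  ring

/-- functionals of a combination -/
lemma func_eq (H : BordInput h t₁ tc ψ G) (hϖc : ∀ i, Continuous (ϖ i))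
    (hϖ : ∀ i, tsupport (ϖ i) ⊆ Ioo 0 t₁) (hϖs : ∀ i, HasCompactSupport (ϖ i))
    {x : Fin 2 → ℝ} (hx : ∀ X ∈ Ioo 0 (t₁ ^ 2), Gx g X = ∑ k, x k * G 0 k X) :
    (fun i => ∫ t in (0:ℝ)..t₁, ϖ i t * g t) = (Pm t₁ G ϖ).mulVec x := by
  have ht := H.t1_pos
  have hg : ∀ t ∈ Ioo 0 t₁, g t = x 0 * gk G 0 t + x 1 * gk G 1 t := by
    intro t ht'
    have ht0 := ht'.1
    have h1 := hx (t ^ 2) ⟨by positivity, by have := ht'.2; nlinarith⟩
    unfold Gx at h1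
    rw [Real.sqrt_sq ht0.le, div_eq_iff ht0.ne', Fin.sum_univ_two] at h1
    rw [h1]
    unfold gk
    ring
  have hi : ∀ i k, IntervalIntegrable (fun t => ϖ i t * gk G k t) volume 0 t₁ := by
    intro i k
    have hcont : Continuous fun t => ϖ i t * gk G k t := by
      rw [continuous_iff_continuousAt]
      intro t
      by_cases htm : t ∈ Ioo 0 t₁
      · exact (hϖc i).continuousAt.mul ((H.gk_cont k).continuousAt (isOpen_Ioo.mem_nhds htm))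
      · have h1 : t ∉ tsupport (ϖ i) := fun h2 => htm (hϖ i h2)
        have h2 : (fun t => ϖ i t * gk G k t) =ᶠ[𝓝 t] fun _ => 0 := by
          filter_upwards [(notMem_tsupport_iff_eventuallyEq.1 h1)] with u hu
          rw [hu]
          simp
        exact continuousAt_const.congr h2.symm
    exact hcont.intervalIntegrable _ _
  ext i
  have e1 : ∫ t in (0:ℝ)..t₁, ϖ i t * g t =
      ∫ t in (0:ℝ)..t₁, (x 0 * (ϖ i t * gk G 0 t) + x 1 * (ϖ i t * gk G 1 t)) := by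
    rw [intervalIntegral.integral_of_le ht.le, intervalIntegral.integral_of_le ht.le,
      integral_Ioc_eq_integral_Ioo, integral_Ioc_eq_integral_Ioo]
    apply setIntegral_congr_fun measurableSet_Ioo
    intro t ht'
    simp only
    rw [hg t ht']
    ring
  rw [e1, intervalIntegral.integral_add ((hi i 0).const_mul _) ((hi i 1).const_mul _),
    intervalIntegral.integral_const_mul, intervalIntegral.integral_const_mul]
  simp only [Pm, Matrix.mulVec, dotProduct, Matrix.of_apply, Fin.sum_univ_two]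
  ring

/-- the coordinates of a solution -/
lemma BSol.coord (hT : T1ConvStatement) (H : BordInput h t₁ tc ψ G)
    (B : BSol h t₁ tc φ β ϖ g c) (hβ : ∀ i, tsupport (β i) ⊆ Ioi tc)
    (hφ : ∀ t, |t| ≤ t₁ → φ t = ψ 0 t) :
    ∃ x : Fin 2 → ℝ, ∀ X ∈ Ioo 0 (t₁ ^ 2), Gx g X = ∑ k, x k * G 0 k X := by
  have h1 := B.isSol hT hβ
  have ht := H.t1_pos
  have htl := H.t1_lt
  have h2 := h1.mono (by nlinarith : t₁ ^ 2 ≤ tc ^ 2)
  have h3 := h2.congr_w (w' := omψ (ψ 0)) fun X hX Y _ => omψ_congr hφ hX ht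
  exact H.span _ h3

/-- uniqueness (8.1) -/
lemma BSol.unique (hT : T1ConvStatement) (hV : VanStatement) (H : BordInput h t₁ tc ψ G)
    (B : BSol h t₁ tc φ β ϖ g c) (hβ : ∀ i, tsupport (β i) ⊆ Ioi tc)
    (hβi : ∀ (i : Fin 2) (j : ℕ), 1 ≤ j →
      IntegrableOn (fun S => 1 / S ^ j * √(S + (1 - h ^ 2)) * β i (√S)) (Ioi (tc ^ 2)))
    (hβd : (Bm h tc β).det ≠ 0)
    (hϖc : ∀ i, Continuous (ϖ i)) (hϖs : ∀ i, HasCompactSupport (ϖ i))
    (hϖ : ∀ i, tsupport (ϖ i) ⊆ Ioo 0 t₁) (hϖd : (Pm t₁ G ϖ).det ≠ 0)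
    (hφ : ∀ t, |t| ≤ t₁ → φ t = ψ 0 t) (hz : ∀ i, ∫ t in (0:ℝ)..t₁, ϖ i t * g t = 0) :
    (∀ t : ℝ, 0 < t → g t = 0) ∧ c = 0 := by
  have ht := H.t1_pos
  have htl := H.t1_lt
  obtain ⟨x, hx⟩ := B.coord hT H hβ hφ
  have h1 := func_eq H hϖc hϖ hϖs hx
  have h2 : (Pm t₁ G ϖ).mulVec x = 0 := by
    rw [← h1]
    ext i
    exact hz i
  have hx0 : x = 0 := Matrix.eq_zero_of_mulVec_eq_zero hϖd h2
  have h3 : ∀ X ∈ Ioo 0 (t₁ ^ 2), Gx g X = 0 := by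
    intro X hX
    rw [hx X hX, hx0]
    simp
  have hsol := B.isSol hT hβ
  have h4 := hV h tc φ B.prof (tc ^ 2) (t₁ ^ 2) (Gx g) (by positivity) (by nlinarith) hsol h3
  have h5 : ∀ S, DD (omψ φ) (tc ^ 2) (Gx g) S = 0 := by
    intro S
    unfold DD
    rw [setIntegral_congr_fun (g := fun _ => 0) measurableSet_Ioo]
    · simp
    · intro X hX
      simp only
      rw [h4 X hX, zero_mul]
  have h6 : (Bm h tc β).mulVec c = 0 := by
    ext j
    have := B.cormack hT hβi j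
    have h7 : NN (1 - h ^ 2) (tc ^ 2) (j.val + 1) (DD (omψ φ) (tc ^ 2) (Gx g)) = 0 := by
      unfold NN
      simp only [h5, mul_zero, integral_zero]
    rw [h7] at this
    simpa using this
  have hc0 : c = 0 := Matrix.eq_zero_of_mulVec_eq_zero hβd h6
  refine ⟨fun t ht0 => ?_, hc0⟩
  -- solution on every interval
  have hs2 : IsSol (omψ φ) (t ^ 2 + tc ^ 2) (Gx g) := by
    refine ⟨?_, ?_, ?_⟩
    · unfold Gx
      apply ContinuousOn.div
      · exact (B.cont.comp Real.continuous_sqrt).continuousOn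
      · exact Real.continuous_sqrt.continuousOn
      · intro X hX
        exact (Real.sqrt_pos.2 hX.1).ne'
    · obtain ⟨C, _, hC⟩ := Gx_GOK B.cont (t ^ 2 + tc ^ 2 + 1)
      exact ⟨C, fun X hX => hC.bd X ⟨hX.1, by linarith [hX.2]⟩⟩
    · refine Eventually.of_forall fun s hs => ?_
      have h1 := B.TX_eq hT hs.1
      rw [hc0] at h1
      simp only [Pi.zero_apply, zero_mul, Finset.sum_const_zero, add_zero] at h1
      linarith
  have h8 := hV h tc φ B.prof (t ^ 2 + tc ^ 2) (t₁ ^ 2) (Gx g) (by positivity)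
    (by nlinarith [sq_nonneg t]) hs2 h3 (t ^ 2)
    ⟨by positivity, by have := B.prof.tc_pos; nlinarith [sq_pos_of_pos this]⟩
  unfold Gx at h8
  rw [Real.sqrt_sq ht0.le, div_eq_zero_iff] at h8
  rcases h8 with h8 | h8
  · exact h8
  · exact absurd h8 ht0.ne'

/-- the matrix `C` (8.2) -/
lemma BSol.cmat (hT : T1ConvStatement) (hV : VanStatement) (H : BordInput h t₁ tc ψ G)
    (i : Fin 2) (B : BSol h t₁ tc (ψ i) β ϖ g c) (hβ : ∀ i, tsupport (β i) ⊆ Ioi tc)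
    (hβi : ∀ (i : Fin 2) (j : ℕ), 1 ≤ j →
      IntegrableOn (fun S => 1 / S ^ j * √(S + (1 - h ^ 2)) * β i (√S)) (Ioi (tc ^ 2)))
    (hβd : (Bm h tc β).det ≠ 0)
    (hϖc : ∀ i, Continuous (ϖ i)) (hϖs : ∀ i, HasCompactSupport (ϖ i))
    (hϖ : ∀ i, tsupport (ϖ i) ⊆ Ioo 0 t₁) (hϖd : (Pm t₁ G ϖ).det ≠ 0) :
    c = ((-(1 / 2) : ℝ) • ((Bm h tc β)⁻¹ * Nm h tc (ψ i) (G i) * (Pm t₁ G ϖ)⁻¹)).mulVec
      (fun i => ∫ t in (0:ℝ)..t₁, ϖ i t * g t) := by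
  have ht := H.t1_pos
  have htl := H.t1_lt
  have hφ : ∀ t, |t| ≤ t₁ → ψ i t = ψ 0 t := by
    intro t ht'
    fin_cases i
    · rfl
    · exact (H.same t ht').symm
  have hag : ∀ k, ∀ X ∈ Ioo 0 (t₁ ^ 2), G 0 k X = G i k X := by
    intro k X hX
    fin_cases i
    · rfl
    · exact H.agree k X hX
  obtain ⟨x, hx⟩ := B.coord hT H hβ hφ
  have h1 := func_eq H hϖc hϖ hϖs hx
  have hsol := B.isSol hT hβ
  obtain ⟨C, hC, hW⟩ := prof_WOK (H.prof i) (tc ^ 2)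
  have h2 := hsol.sub_sum hC hW (H.sol i) x
  have h3 := hV h tc (ψ i) B.prof (tc ^ 2) (t₁ ^ 2) _ (by positivity) (by nlinarith) h2 (by
    intro X hX
    rw [hx X hX, sub_eq_zero]
    apply Finset.sum_congr rfl
    intro k _
    rw [hag k X hX])
  have h4 : ∀ X ∈ Ioo 0 (tc ^ 2), Gx g X = ∑ k, x k * G i k X := fun X hX =>
    sub_eq_zero.1 (h3 X hX)
  have hb : 0 < tc ^ 2 := by
    have := B.prof.tc_pos
    positivity
  have hy : 0 < tc ^ 2 + (1 - h ^ 2) := by linarith [prof_rad B.prof le_rfl]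
  have h5 : (Bm h tc β).mulVec c = (-(1 / 2) : ℝ) • (Nm h tc (ψ i) (G i)).mulVec x := by
    ext j
    have h6 := B.cormack hT hβi j
    rw [NN_sum hb hy hC hW (H.sol i) x h4 (by omega)] at h6
    have h7 : ((Nm h tc (ψ i) (G i)).mulVec x) j = ∑ k, NN (1 - h ^ 2) (tc ^ 2) (j.val + 1)
        (DD (omψ (ψ i)) (tc ^ 2) (G i k)) * x k := by
      simp only [Nm, Matrix.mulVec, dotProduct, Matrix.of_apply]
    rw [← h7] at h6
    simp only [Pi.smul_apply, smul_eq_mul]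
    linarith
  have hBu : IsUnit (Bm h tc β).det := isUnit_iff_ne_zero.2 hβd
  have hPu : IsUnit (Pm t₁ G ϖ).det := isUnit_iff_ne_zero.2 hϖd
  rw [h1, Matrix.smul_mulVec, Matrix.mulVec_mulVec, Matrix.mul_assoc, Matrix.nonsing_inv_mul _ hPu,
    Matrix.mul_one, ← Matrix.mulVec_mulVec, ← Matrix.mulVec_smul, ← h5, Matrix.mulVec_mulVec,
    Matrix.nonsing_inv_mul _ hBu, Matrix.one_mulVec]

/-- BORD1D -/
theorem sign1d_of_bord (hT : T1ConvStatement) (hβ : BetaStatement) (hϖ : VarpiStatement)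
    (hV : VanStatement) (H : BordInput h t₁ tc ψ G) : Sign1DStatement := by
  have htc := (H.prof 0).tc_pos
  have ht := H.t1_pos
  have htl := H.t1_lt
  have hy : 0 < tc ^ 2 + (1 - h ^ 2) := by linarith [prof_rad (H.prof 0) le_rfl]
  obtain ⟨β, b1, b2, b3, b4, b5⟩ := hβ tc (1 - h ^ 2) htc hy
  obtain ⟨ϖ, w1, w2, w3, w4⟩ := hϖ t₁ (gk G) ht H.gk_cont H.gk_indep
  have b6 : (Bm h tc β).det ≠ 0 := b5
  have w5 : (Pm t₁ G ϖ).det ≠ 0 := w4
  have w0 : ∀ i, Continuous (ϖ i) := fun i => (w1 i).continuous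
  refine ⟨h, t₁, tc, ψ 0, ψ 1, β, ϖ,
    (-(1 / 2) : ℝ) • ((Bm h tc β)⁻¹ * Nm h tc (ψ 0) (G 0) * (Pm t₁ G ϖ)⁻¹),
    (-(1 / 2) : ℝ) • ((Bm h tc β)⁻¹ * Nm h tc (ψ 1) (G 1) * (Pm t₁ G ϖ)⁻¹),
    ht, htl, H.prof 0, H.prof 1, fun i => ⟨b1 i, b2 i, (b3 i).trans (Ioi_subset_Ioi htc.le)⟩,
    fun i => ⟨w1 i, w2 i, w3 i⟩, ?_, ?_, ?_, ?_⟩
  · intro s hs g c hg hl he hz
    have hP := seg_prof (H.prof 0) (H.prof 1) hs
    have B : BSol h t₁ tc (psiSeg (ψ 0) (ψ 1) s) β ϖ g c := ⟨hP, hg, hl, he⟩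
    refine B.unique hT hV H b3 b4 b6 w0 w2 w3 w5 ?_ hz
    intro t ht'
    simp only [psiSeg, ← H.same t ht']
    ring
  · intro g c hg hl he
    exact BSol.cmat hT hV H 0 ⟨H.prof 0, hg, hl, he⟩ b3 b4 b6 w0 w2 w3 w5
  · intro g c hg hl he
    exact BSol.cmat hT hV H 1 ⟨H.prof 1, hg, hl, he⟩ b3 b4 b6 w0 w2 w3 w5
  · rw [Matrix.det_smul, Matrix.det_smul, Matrix.det_mul, Matrix.det_mul, Matrix.det_mul,
      Matrix.det_mul]
    simp only [Matrix.det_nonsing_inv, Ring.inverse_eq_inv', Fintype.card_fin]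
    have e : (-(1 / 2) : ℝ) ^ 2 * ((Bm h tc β).det⁻¹ * (Nm h tc (ψ 0) (G 0)).det *
        (Pm t₁ G ϖ).det⁻¹) * ((-(1 / 2)) ^ 2 * ((Bm h tc β).det⁻¹ *
        (Nm h tc (ψ 1) (G 1)).det * (Pm t₁ G ϖ).det⁻¹)) =
        (1 / 16) * (((Bm h tc β).det⁻¹) ^ 2 * ((Pm t₁ G ϖ).det⁻¹) ^ 2) *
        ((Nm h tc (ψ 0) (G 0)).det * (Nm h tc (ψ 1) (G 1)).det) := by ring
    rw [e]
    apply mul_neg_of_pos_of_neg _ H.det
    have e1 : (Bm h tc β).det⁻¹ ≠ 0 := inv_ne_zero b6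
    have e2 : (Pm t₁ G ϖ).det⁻¹ ≠ 0 := inv_ne_zero w5
    positivity

end Pool.Agent.Lib.MP_85963d_gt.H70
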