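import Mathlib

/-!
# MP_85963d_gt, (7.5): Cormack's moment conditions (in the variables `X = t²`, `S = a²`)
-/

set_option autoImplicit false

open MeasureTheory Set Filter Topology Real

namespace Pool.Agent.Lib.MP_85963d_gt.H70

/-- the kernel of mode four -/
noncomputable def cker (X S : ℝ) : ℝ := (1 - 8 * X * (S - X) / S ^ 2) / √(S - X)

lemma cfac_abs {X S : ℝ} (hS : 0 < S) (hX : 0 ≤ X) (hXS : X ≤ S) :
    |1 - 8 * X * (S - X) / S ^ 2| ≤ 1 := by
  have h1 : 0 ≤ 8 * X * (S - X) / S ^ 2 := by
    have : 0 ≤ S - X := by linarith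
    positivity
  have h2 : 8 * X * (S - X) / S ^ 2 ≤ 2 := by
    rw [div_le_iff₀ (by positivity)]
    nlinarith [sq_nonneg (S - 2 * X)]
  rw [abs_le]
  constructor <;> linarith

lemma cker_abs {X S : ℝ} (hX : 0 < X) (hXS : X < S) : |cker X S| ≤ 1 / √(S - X) := by
  unfold cker
  rw [abs_div, abs_of_nonneg (Real.sqrt_nonneg (S - X))]
  exact div_le_div_of_nonneg_right (cfac_abs (hX.trans hXS) hX.le hXS.le) (Real.sqrt_nonneg _)

/-- the dominating integral -/
lemma dom_int {X : ℝ} (hX : 0 < X) :
    IntegrableOn (fun S => 1 / (S * √(S - X))) (Ioi X) ∧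
      ∫ S in Ioi X, 1 / (S * √(S - X)) = π / √X := by
  set F : ℝ → ℝ := fun S => 2 / √X * arctan (√(S - X) / √X) with hF
  have hr : 0 < √X := Real.sqrt_pos.2 hX
  have hc : ContinuousWithinAt F (Ici X) X := by
    apply Continuous.continuousWithinAt
    rw [hF]
    have := continuous_arctan
    fun_prop
  have hd : ∀ S ∈ Ioi X, HasDerivAt F (1 / (S * √(S - X))) S := by
    intro S hS
    have hS' : 0 < S - X := sub_pos.2 hS
    have hs : 0 < √(S - X) := Real.sqrt_pos.2 hS'
    have hS0 : 0 < S := hX.trans hS
    have h1 : HasDerivAt (fun S => √(S - X)) (1 / (2 * √(S - X))) S :=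
      ((hasDerivAt_id S).sub_const X).sqrt hS'.ne'
    have h2 := ((h1.div_const (√X)).arctan).const_mul (2 / √X)
    refine h2.congr_deriv ?_
    have e1 : √(S - X) ^ 2 = S - X := Real.sq_sqrt hS'.le
    have e2 : √X ^ 2 = X := Real.sq_sqrt hX.le
    rw [div_pow, e1, e2]
    have e3 : 1 + (S - X) / X = S / X := by
      field_simp
      ring
    rw [e3]
    field_simp
    rw [e2]
  have hpos : ∀ S ∈ Ioi X, 0 ≤ 1 / (S * √(S - X)) := by
    intro S hS
    have hS0 : 0 < S := hX.trans hS
    positivity
  have hlim : Tendsto F atTop (𝓝 (2 / √X * (π / 2))) := by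
    rw [hF]
    apply Tendsto.const_mul
    have h1 : Tendsto (fun S : ℝ => √(S - X) / √X) atTop atTop :=
      (Real.tendsto_sqrt_atTop.comp (tendsto_atTop_add_const_right atTop (-X) tendsto_id)).atTop_div_const hr
    exact (tendsto_nhds_of_tendsto_nhdsWithin tendsto_arctan_atTop).comp h1
  refine ⟨integrableOn_Ioi_deriv_of_nonneg hc hd hpos hlim, ?_⟩
  rw [integral_Ioi_of_hasDerivAt_of_nonneg hc hd hpos hlim, hF]
  simp only [sub_self, Real.sqrt_zero, zero_div, arctan_zero, mul_zero, sub_zero]
  field_simp

lemma meas_cker : Measurable fun p : ℝ × ℝ => cker p.1 p.2 := by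
  unfold cker
  fun_prop

lemma moment_int {X : ℝ} (hX : 0 < X) {j : ℕ} (hj : 1 ≤ j) :
    IntegrableOn (fun S => 1 / S ^ j * cker X S) (Ioi X) := by
  refine Integrable.mono' ((dom_int hX).1.const_mul (1 / X ^ (j - 1))) ?_ ?_
  · have : Measurable fun S => 1 / S ^ j * cker X S := by
      unfold cker
      fun_prop
    exact this.aestronglyMeasurable
  · filter_upwards [ae_restrict_mem measurableSet_Ioi] with S hS
    have hS' : X < S := hS
    have hS0 : 0 < S := hX.trans hS'
    have hs : 0 < √(S - X) := Real.sqrt_pos.2 (sub_pos.2 hS')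
    rw [Real.norm_eq_abs, abs_mul, abs_of_pos (by positivity)]
    calc 1 / S ^ j * |cker X S| ≤ 1 / S ^ j * (1 / √(S - X)) := by
          gcongr
          exact cker_abs hX hS'
      _ ≤ (1 / (X ^ (j - 1) * S)) * (1 / √(S - X)) := by
          gcongr
          calc X ^ (j - 1) * S ≤ S ^ (j - 1) * S := by gcongr
            _ = S ^ j := by rw [← pow_succ]; congr 1; omega
      _ = 1 / X ^ (j - 1) * (1 / (S * √(S - X))) := by
          field_simp

/-- antiderivatives -/
lemma moment_zero {X : ℝ} (hX : 0 < X) {j : ℕ} (hj : j = 1 ∨ j = 2) :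
    ∫ S in Ioi X, 1 / S ^ j * cker X S = 0 := by
  rcases hj with rfl | rfl
  · set F : ℝ → ℝ := fun S => 2 * √(S - X) * (2 * X - S) / S ^ 2 with hF
    have hd : ∀ S ∈ Ioi X, HasDerivAt F (1 / S ^ 1 * cker X S) S := by
      intro S hS
      have hS' : 0 < S - X := sub_pos.2 hS
      have hs : 0 < √(S - X) := Real.sqrt_pos.2 hS'
      have hS0 : 0 < S := hX.trans hS
      have h1 : HasDerivAt (fun S => √(S - X)) (1 / (2 * √(S - X))) S :=
        ((hasDerivAt_id S).sub_const X).sqrt hS'.ne'
      have h2 : HasDerivAt (fun S : ℝ => 2 * X - S) (-1) S :=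
        (hasDerivAt_id S).const_sub (2 * X)
      have h3 : HasDerivAt (fun S : ℝ => S ^ 2) (2 * S) S := by
        simpa using hasDerivAt_pow 2 S
      have h4 := ((h1.const_mul 2).mul h2).div h3 (by positivity)
      refine h4.congr_deriv ?_
      have e1 : √(S - X) ^ 2 = S - X := Real.sq_sqrt hS'.le
      simp only [Pi.mul_apply]
      unfold cker
      field_simp
      ring_nf
      ring_nf at e1
      rw [e1]
      ring
    have hc : ContinuousWithinAt F (Ici X) X := by
      apply ContinuousAt.continuousWithinAt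
      rw [hF]
      apply ContinuousAt.div (by fun_prop) (by fun_prop)
      positivity
    have hlim : Tendsto F atTop (𝓝 0) := by
      have h5 : Tendsto (fun S : ℝ => 4 / √S) atTop (𝓝 0) :=
        Tendsto.div_atTop tendsto_const_nhds Real.tendsto_sqrt_atTop
      refine squeeze_zero_norm' ?_ h5
      filter_upwards [eventually_gt_atTop X] with S hS
      have hS0 : 0 < S := hX.trans hS
      have hs : 0 < √S := Real.sqrt_pos.2 hS0
      have hs2 : √S ^ 2 = S := Real.sq_sqrt hS0.le
      rw [Real.norm_eq_abs, hF, abs_div, abs_mul, abs_mul, abs_of_nonneg (Real.sqrt_nonneg _),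
        abs_of_pos (by positivity : (0 : ℝ) < S ^ 2), abs_of_pos (by norm_num : (0 : ℝ) < 2)]
      have h6 : √(S - X) ≤ √S := Real.sqrt_le_sqrt (by linarith)
      have h7 : |2 * X - S| ≤ S := by
        rw [abs_le]
        constructor <;> linarith
      rw [div_le_div_iff₀ (by positivity) hs]
      calc 2 * √(S - X) * |2 * X - S| * √S ≤ 2 * √S * S * √S := by gcongr
        _ = 2 * S ^ 2 := by
          rw [show 2 * √S * S * √S = 2 * √S ^ 2 * S by ring, hs2]
          ring
        _ ≤ 4 * S ^ 2 := by nlinarith [sq_nonneg S]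
    have := integral_Ioi_of_hasDerivAt_of_tendsto hc hd (moment_int hX le_rfl) hlim
    rw [this, hF]
    simp
  · set F : ℝ → ℝ := fun S => 2 / 3 * √(S - X) * (4 * X - S) / S ^ 3 with hF
    have hd : ∀ S ∈ Ioi X, HasDerivAt F (1 / S ^ 2 * cker X S) S := by
      intro S hS
      have hS' : 0 < S - X := sub_pos.2 hS
      have hs : 0 < √(S - X) := Real.sqrt_pos.2 hS'
      have hS0 : 0 < S := hX.trans hS
      have h1 : HasDerivAt (fun S => √(S - X)) (1 / (2 * √(S - X))) S :=
        ((hasDerivAt_id S).sub_const X).sqrt hS'.ne'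
      have h2 : HasDerivAt (fun S : ℝ => 4 * X - S) (-1) S :=
        (hasDerivAt_id S).const_sub (4 * X)
      have h3 : HasDerivAt (fun S : ℝ => S ^ 3) (3 * S ^ 2) S := by
        simpa using hasDerivAt_pow 3 S
      have h4 := ((h1.const_mul (2 / 3)).mul h2).div h3 (by positivity)
      refine h4.congr_deriv ?_
      have e1 : √(S - X) ^ 2 = S - X := Real.sq_sqrt hS'.le
      simp only [Pi.mul_apply]
      unfold cker
      field_simp
      ring_nf
      ring_nf at e1
      rw [e1]
      ring
    have hc : ContinuousWithinAt F (Ici X) X := by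
      apply ContinuousAt.continuousWithinAt
      rw [hF]
      apply ContinuousAt.div (by fun_prop) (by fun_prop)
      positivity
    have hlim : Tendsto F atTop (𝓝 0) := by
      have h5 : Tendsto (fun S : ℝ => 4 / √S) atTop (𝓝 0) :=
        Tendsto.div_atTop tendsto_const_nhds Real.tendsto_sqrt_atTop
      refine squeeze_zero_norm' ?_ h5
      filter_upwards [eventually_gt_atTop X, eventually_ge_atTop 1] with S hS hS1
      have hS0 : 0 < S := hX.trans hS
      have hs : 0 < √S := Real.sqrt_pos.2 hS0
      have hs2 : √S ^ 2 = S := Real.sq_sqrt hS0.le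
      rw [Real.norm_eq_abs, hF, abs_div, abs_mul, abs_mul, abs_of_nonneg (Real.sqrt_nonneg _),
        abs_of_pos (by positivity : (0 : ℝ) < S ^ 3), abs_of_pos (by norm_num : (0 : ℝ) < 2 / 3)]
      have h6 : √(S - X) ≤ √S := Real.sqrt_le_sqrt (by linarith)
      have h7 : |4 * X - S| ≤ 3 * S := by
        rw [abs_le]
        constructor <;> linarith
      rw [div_le_div_iff₀ (by positivity) hs]
      calc 2 / 3 * √(S - X) * |4 * X - S| * √S ≤ 2 / 3 * √S * (3 * S) * √S := by gcongr
        _ = 2 * S ^ 2 := by
          rw [show 2 / 3 * √S * (3 * S) * √S = 2 * √S ^ 2 * S by ring, hs2]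
          ring
        _ ≤ 4 * S ^ 3 := by
          nlinarith [sq_nonneg S, mul_le_mul_of_nonneg_left hS1 (sq_nonneg S)]
    have := integral_Ioi_of_hasDerivAt_of_tendsto hc hd (moment_int hX (by norm_num)) hlim
    rw [this, hF]
    simp

/-- the integrand on the product -/
noncomputable def F2 (j : ℕ) (h : ℝ → ℝ) : ℝ × ℝ → ℝ :=
  {p : ℝ × ℝ | p.1 < p.2}.indicator fun p => 1 / p.2 ^ j * (cker p.1 p.2 * h p.1)

lemma integrable_F2 {c : ℝ} (hc : 0 < c) {h : ℝ → ℝ}
    (hi : IntegrableOn (fun X => h X / √X) (Ioi c)) {j : ℕ} (hj : 1 ≤ j) :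
    Integrable (F2 j h) ((volume.restrict (Ioi c)).prod (volume.restrict (Ioi c))) := by
  have hset : MeasurableSet {p : ℝ × ℝ | p.1 < p.2} := measurableSet_lt measurable_fst measurable_snd
  have hm : AEStronglyMeasurable h (volume.restrict (Ioi c)) := by
    have h1 : AEStronglyMeasurable (fun X => √X * (h X / √X)) (volume.restrict (Ioi c)) :=
      Real.continuous_sqrt.aestronglyMeasurable.mul hi.aestronglyMeasurable
    refine h1.congr ?_
    filter_upwards [ae_restrict_mem measurableSet_Ioi] with X hX
    have : 0 < √X := Real.sqrt_pos.2 (hc.trans hX)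
    field_simp
  have hmeas : AEStronglyMeasurable (F2 j h)
      ((volume.restrict (Ioi c)).prod (volume.restrict (Ioi c))) := by
    apply AEStronglyMeasurable.indicator _ hset
    have h1 : Measurable fun p : ℝ × ℝ => 1 / p.2 ^ j := by fun_prop
    exact h1.aestronglyMeasurable.mul (meas_cker.aestronglyMeasurable.mul hm.comp_fst)
  rw [integrable_prod_iff hmeas]
  have hsec : ∀ X ∈ Ioi c, ∀ (g : ℝ × ℝ → ℝ),
      (fun S => ({p : ℝ × ℝ | p.1 < p.2}.indicator g) (X, S)) = (Ioi X).indicator fun S => g (X, S) := by
    intro X _ g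
    ext S
    simp only [indicator, mem_ofPred_eq, mem_Ioi]
  have hIoi : ∀ X ∈ Ioi c, Ioi c ∩ Ioi X = Ioi X := by
    intro X hX
    have hX' : c < X := hX
    rw [Ioi_inter_Ioi, sup_of_le_right hX'.le]
  constructor
  · filter_upwards [ae_restrict_mem measurableSet_Ioi] with X hX
    have hX0 : 0 < X := hc.trans hX
    show Integrable (fun S => F2 j h (X, S)) _
    unfold F2
    rw [hsec X hX, integrable_indicator_iff measurableSet_Ioi, IntegrableOn,
      Measure.restrict_restrict measurableSet_Ioi, inter_comm, hIoi X hX]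
    refine ((moment_int hX0 hj).mul_const (h X)).congr (Eventually.of_forall fun S => ?_)
    simp only
    ring
  · refine Integrable.mono' (hi.norm.const_mul (π / c ^ (j - 1))) ?_ ?_
    · exact hmeas.norm.integral_prod_right'
    · filter_upwards [ae_restrict_mem measurableSet_Ioi] with X hX
      have hX' : c < X := hX
      have hX0 : 0 < X := hc.trans hX
      rw [Real.norm_of_nonneg (integral_nonneg fun _ => norm_nonneg _)]
      have e1 : ∫ S in Ioi c, ‖F2 j h (X, S)‖ = ∫ S in Ioi X, ‖1 / S ^ j * (cker X S * h X)‖ := by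
        have : (fun S => ‖F2 j h (X, S)‖) =
            (Ioi X).indicator fun S => ‖1 / S ^ j * (cker X S * h X)‖ := by
          have := hsec X hX (fun p : ℝ × ℝ => 1 / p.2 ^ j * (cker p.1 p.2 * h p.1))
          ext S
          have h2 := congrFun this S
          simp only at h2
          show ‖({p : ℝ × ℝ | p.1 < p.2}.indicator _) (X, S)‖ = _
          rw [h2, norm_indicator_eq_indicator_norm]
        rw [this, integral_indicator measurableSet_Ioi, Measure.restrict_restrict measurableSet_Ioi,
          inter_comm, hIoi X hX]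
      rw [e1]
      have hd := dom_int hX0
      calc ∫ S in Ioi X, ‖1 / S ^ j * (cker X S * h X)‖
          ≤ ∫ S in Ioi X, |h X| * (1 / c ^ (j - 1)) * (1 / (S * √(S - X))) := by
            refine setIntegral_mono_on ?_ (hd.1.const_mul _) measurableSet_Ioi fun S hS => ?_
            · refine (((moment_int hX0 hj).mul_const (h X)).norm).congr
                (Eventually.of_forall fun S => ?_)
              simp only
              congr 1
              ring
            · have hS' : X < S := hS
              have hS0 : 0 < S := hX0.trans hS'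
              have hs : 0 < √(S - X) := Real.sqrt_pos.2 (sub_pos.2 hS')
              rw [Real.norm_eq_abs, abs_mul, abs_mul, abs_of_pos (by positivity : 0 < 1 / S ^ j)]
              calc 1 / S ^ j * (|cker X S| * |h X|)
                  ≤ (1 / (c ^ (j - 1) * S)) * (1 / √(S - X) * |h X|) := by
                    gcongr
                    · calc c ^ (j - 1) * S ≤ S ^ (j - 1) * S := by
                            gcongr
                            exact (hX'.trans hS').le
                        _ = S ^ j := by rw [← pow_succ]; congr 1; omega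
                    · exact cker_abs hX0 hS'
                _ = |h X| * (1 / c ^ (j - 1)) * (1 / (S * √(S - X))) := by
                    field_simp
        _ = |h X| * (1 / c ^ (j - 1)) * (π / √X) := by
            rw [integral_const_mul, hd.2]
        _ = π / c ^ (j - 1) * ‖h X / √X‖ := by
            rw [Real.norm_eq_abs, abs_div, abs_of_nonneg (Real.sqrt_nonneg X)]
            ring

/-- (7.5), in the variables `X = t²`, `S = a²` -/
theorem cormack {c : ℝ} (hc : 0 < c) {h : ℝ → ℝ}
    (hi : IntegrableOn (fun X => h X / √X) (Ioi c)) {j : ℕ} (hj : j = 1 ∨ j = 2) :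
    IntegrableOn (fun S => 1 / S ^ j * ∫ X in Ioo c S, cker X S * h X) (Ioi c) ∧
      ∫ S in Ioi c, 1 / S ^ j * ∫ X in Ioo c S, cker X S * h X = 0 := by
  have hj1 : 1 ≤ j := by omega
  have hI := integrable_F2 hc hi hj1
  have e1 : ∀ S ∈ Ioi c, ∫ X in Ioi c, F2 j h (X, S) =
      1 / S ^ j * ∫ X in Ioo c S, cker X S * h X := by
    intro S hS
    have : (fun X => F2 j h (X, S)) =
        (Iio S).indicator fun X => 1 / S ^ j * (cker X S * h X) := by
      ext X
      simp only [F2, indicator, mem_ofPred_eq, mem_Iio]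
    rw [this, integral_indicator measurableSet_Iio, Measure.restrict_restrict measurableSet_Iio,
      inter_comm, Ioi_inter_Iio, integral_const_mul]
  constructor
  · refine (hI.integral_prod_right).congr ?_
    filter_upwards [ae_restrict_mem measurableSet_Ioi] with S hS
    exact e1 S hS
  · rw [← setIntegral_congr_fun measurableSet_Ioi e1]
    rw [← integral_prod_symm _ hI, integral_prod _ hI]
    have e2 : ∀ X ∈ Ioi c, ∫ S in Ioi c, F2 j h (X, S) = 0 := by
      intro X hX
      have hX' : c < X := hX
      have hX0 : 0 < X := hc.trans hX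
      have : (fun S => F2 j h (X, S)) =
          (Ioi X).indicator fun S => (1 / S ^ j * cker X S) * h X := by
        ext S
        simp only [F2, indicator, mem_ofPred_eq, mem_Ioi]
        split_ifs
        · ring
        · rfl
      rw [this, integral_indicator measurableSet_Ioi, Measure.restrict_restrict measurableSet_Ioi,
        Ioi_inter_Ioi, sup_of_le_left hX'.le, integral_mul_const, moment_zero hX0 hj, zero_mul]
    rw [setIntegral_congr_fun measurableSet_Ioi e2]
    simp

end Pool.Agent.Lib.MP_85963d_gt.H70
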