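import Pool.Agent.Lib.MP_85963d_gt.H70.Forms5

/-!
# MP_85963d_gt: estimates for the smoothing
-/

set_option autoImplicit false

open MeasureTheory Set Filter Topology Real

namespace Pool.Agent.Lib.MP_85963d_gt.H70

variable {Kb : ℝ} {κ : ℝ → ℝ}

/-- `S` is decreasing -/
lemma KB.S_anti (h : KB Kb κ) {s t : ℝ} (hs : 0 ≤ s) (hst : s ≤ t) :
    PP κ t - t * Qi κ t ≤ PP κ s - s * Qi κ s := by
  have hc : ∀ s t, IntervalIntegrable (Qi κ) volume s t := fun s t =>
    h.cont.intervalIntegrable _ _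
  have e : PP κ t = PP κ s + ∫ u in s..t, Qi κ u := by
    unfold PP
    rw [intervalIntegral.integral_add_adjacent_intervals (hc _ _) (hc _ _)]
  have h1 : ∫ u in s..t, Qi κ u ≤ ∫ _u in s..t, Qi κ t :=
    intervalIntegral.integral_mono_on hst (hc _ _) (by simp) fun u hu =>
      h.Q_mono (hs.trans hu.1) hu.2
  simp only [intervalIntegral.integral_const, smul_eq_mul] at h1
  have h2 := h.Q_mono hs hst
  have h3 : s * Qi κ s ≤ s * Qi κ t := by gcongr
  rw [e]
  nlinarith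

variable {h tj tc a b c0 δ : ℝ} {φ : ℝ → ℝ}

/-- common bound for the second derivatives -/
noncomputable def Kbd (h tj c0 M : ℝ) : ℝ := c0 * M + 2 * cp2 h tj

namespace SmD

variable (H : SmD h tj tc a b c0 φ)

include H

lemma kb_kap (hδ : 0 < δ) (hδc : tj + δ ≤ tc) (hδj : δ ≤ tj) {M : ℝ} (hM : ∀ t, φ t ≤ M) :
    KB (Kbd h tj c0 M) (kap h tj tc c0 δ φ) where
  meas := (H.contDiff_kap hδ).continuous.measurable
  nn t _ := (H.kap_pos hδ t).le
  int s t := H.kap_int hδ s t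
  le t ht := by
    have hj := H.tj_pos
    have hM2 := H.cp2_tj_pos
    have hg := H.gam_pos hδ
    have hg2 : gam h tj tc δ ≤ cp2 h tj := by
      refine (H.gam_le hδ hδc).trans ?_
      have : δ / tj ≤ 1 := (div_le_one hj).2 hδj
      nlinarith
    have h1 := chi_nonneg tj δ t
    have h2 := chi_le_one tj δ t
    have h3 : c0 * φ t ≤ c0 * M := mul_le_mul_of_nonneg_left (hM t) H.hc0.le
    have h4 : chi tj δ t * cp2 h t ≤ cp2 h tj := by
      rcases le_total t tj with hle | hle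
      · rw [chi_zero hδ hle, zero_mul]
        exact hM2.le
      · have h5 := H.cp2_le hle
        have h6 := (cp2_pos (H.rad_pos hle)).le
        calc chi tj δ t * cp2 h t ≤ 1 * cp2 h tj := by gcongr
          _ = _ := one_mul _
    have h7 : (1 - chi tj δ t) * gam h tj tc δ ≤ cp2 h tj := by
      calc (1 - chi tj δ t) * gam h tj tc δ ≤ 1 * cp2 h tj := by
            gcongr
            linarith
        _ = _ := one_mul _
    rw [H.kap_eq hδ ht]
    unfold Kbd
    linarith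

lemma kb_kinf {M : ℝ} (hM0 : 0 ≤ M) (hM : ∀ t, φ t ≤ M) :
    KB (Kbd h tj c0 M) (kinf h tj c0 φ) where
  meas := H.measurable_kinf
  nn _ _ := H.kinf_nonneg
  int s t := H.kinf_int s t
  le t _ := by
    have hM2 := H.cp2_tj_pos
    have hc := H.hc0
    refine (H.kinf_le hM t).trans ?_
    unfold Kbd
    have : 0 ≤ c0 * M := by positivity
    apply max_le <;> linarith

lemma psm_eq (hδ : 0 < δ) (t : ℝ) :
    psm h tj tc c0 δ φ t = psm h tj tc c0 δ φ 0 + PP (kap h tj tc c0 δ φ) t := by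
  unfold psm Pi' PP
  simp

omit H in
lemma pinf_eq (t : ℝ) :
    pinf h tj tc c0 φ t = pinf h tj tc c0 φ 0 + PP (kinf h tj c0 φ) t := by
  unfold pinf Pi' PP
  simp

lemma psm_zero_le (hδ : 0 < δ) (hδc : tj + δ ≤ tc) (hδj : δ ≤ tj) :
    psm h tj tc c0 δ φ 0 ≤ cp h tc := by
  obtain ⟨M, hM0, hM⟩ := H.phi_bdd
  have h1 := (H.kb_kap hδ hδc hδj hM).PP_nonneg H.tc_pos.le
  rw [← H.psm_far hδ hδc le_rfl, H.psm_eq hδ tc]
  linarith

lemma pinf_zero_le : pinf h tj tc c0 φ 0 ≤ cp h tc := by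
  obtain ⟨M, hM0, hM⟩ := H.phi_bdd
  have h1 := (H.kb_kinf hM0 hM).PP_nonneg H.tc_pos.le
  rw [← H.pinf_hi (tc := tc) H.hjc.le, pinf_eq tc]
  linarith

/-- lower bound of `S` -/
lemma nS_ge (hδ : 0 < δ) (hδc : tj + δ ≤ tc) (hδj : δ ≤ tj) (hp : 0 < psm h tj tc c0 δ φ 0)
    {t : ℝ} (ht : t ∈ Ioc 0 tc) :
    min 1 (cpS h tc / cp h tc) ≤ nS (psm h tj tc c0 δ φ 0) (kap h tj tc c0 δ φ) t := by
  obtain ⟨M, hM0, hM⟩ := H.phi_bdd
  have h1 := (H.kb_kap hδ hδc hδj hM).S_anti ht.1.le ht.2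
  have h2 := H.psm_far hδ hδc (le_refl tc)
  have h3 := H.Qi_far hδ hδc (le_refl tc)
  have hr := H.rad_pos H.hjc.le
  have h4 := cpS_eq H.hh hr
  rw [H.psm_eq hδ tc] at h2
  have h5 : nS (psm h tj tc c0 δ φ 0) (kap h tj tc c0 δ φ) t =
      (psm h tj tc c0 δ φ 0 + (PP (kap h tj tc c0 δ φ) t - t * Qi (kap h tj tc c0 δ φ) t)) /
        psm h tj tc c0 δ φ 0 := by
    unfold nS
    rw [add_div, div_self hp.ne']
  rw [h5]
  have h6 : cpS h tc ≤ psm h tj tc c0 δ φ 0 +
      (PP (kap h tj tc c0 δ φ) t - t * Qi (kap h tj tc c0 δ φ) t) := by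
    rw [← h4, ← h2, ← h3]
    linarith
  have h7 := H.psm_zero_le hδ hδc hδj
  have h8 := cpS_pos hr
  calc min 1 (cpS h tc / cp h tc) ≤ cpS h tc / cp h tc := min_le_right _ _
    _ ≤ cpS h tc / psm h tj tc c0 δ φ 0 := by gcongr
    _ ≤ _ := by gcongr

lemma nSinf_ge (hp : 0 < pinf h tj tc c0 φ 0) {t : ℝ} (ht : t ∈ Ioc 0 tc) :
    min 1 (cpS h tc / cp h tc) ≤ nS (pinf h tj tc c0 φ 0) (kinf h tj c0 φ) t := by
  obtain ⟨M, hM0, hM⟩ := H.phi_bdd
  have h1 := (H.kb_kinf hM0 hM).S_anti ht.1.le ht.2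
  have h2 := H.pinf_hi (tc := tc) H.hjc.le
  have h3 := H.Qinf_hi H.hjc.le
  have hr := H.rad_pos H.hjc.le
  have h4 := cpS_eq H.hh hr
  rw [pinf_eq tc] at h2
  have h5 : nS (pinf h tj tc c0 φ 0) (kinf h tj c0 φ) t =
      (pinf h tj tc c0 φ 0 + (PP (kinf h tj c0 φ) t - t * Qi (kinf h tj c0 φ) t)) /
        pinf h tj tc c0 φ 0 := by
    unfold nS
    rw [add_div, div_self hp.ne']
  rw [h5]
  have h6 : cpS h tc ≤ pinf h tj tc c0 φ 0 +
      (PP (kinf h tj c0 φ) t - t * Qi (kinf h tj c0 φ) t) := by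
    rw [← h4, ← h2, ← h3]
    linarith
  have h7 := H.pinf_zero_le
  have h8 := cpS_pos hr
  calc min 1 (cpS h tc / cp h tc) ≤ cpS h tc / cp h tc := min_le_right _ _
    _ ≤ cpS h tc / pinf h tj tc c0 φ 0 := by gcongr
    _ ≤ _ := by gcongr

/-! ### differences -/

lemma gam_le' (hδ : 0 < δ) (hδc : tj + δ ≤ tc) : gam h tj tc δ ≤ cp2 h tj / tj * δ := by
  refine (H.gam_le hδ hδc).trans (le_of_eq ?_)
  ring

/-- `|t (Q_n - Q)|` and `|PP_n - PP|` -/
lemma diff_le (hδ : 0 < δ) (hδc : tj + δ ≤ tc) (hδj : δ ≤ tj) {t : ℝ} (ht : t ∈ Ioc 0 tc) :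
    |t * (Qi (kap h tj tc c0 δ φ) t - Qi (kinf h tj c0 φ) t)| ≤
        (cp2 h tj / tj + 2 * cp2 h tj / a) * δ * t ^ 2 ∧
      |PP (kap h tj tc c0 δ φ) t - PP (kinf h tj c0 φ) t| ≤
        (cp2 h tj / tj + 2 * cp2 h tj / a) * δ * t ^ 2 := by
  have ht0 := ht.1
  have hj := H.tj_pos
  have ha := H.ha
  have hM2 := H.cp2_tj_pos
  have hg := (H.gam_pos hδ).le
  have hg2 := H.gam_le' hδ hδc
  rcases lt_or_ge t a with hta | hta
  · have e1 := H.Q_near hδ ht0.le hta
    have e2 := H.Qinf_near ht0.le hta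
    have hc1 : ∀ s t, IntervalIntegrable (Qi (kap h tj tc c0 δ φ)) volume s t := fun s t =>
      (H.contDiff_Qi hδ).continuous.intervalIntegrable _ _
    have e3 : PP (kap h tj tc c0 δ φ) t = gam h tj tc δ * t ^ 2 / 2 := by
      have h1 := H.psm_near hδ ht0.le hta
      rw [H.psm_eq hδ t] at h1
      linarith
    have e4 : PP (kinf h tj c0 φ) t = 0 := by
      have h1 := H.pinf_near (tc := tc) ht0.le hta
      rw [pinf_eq t] at h1
      linarith
    have hle : gam h tj tc δ * t ^ 2 ≤ (cp2 h tj / tj + 2 * cp2 h tj / a) * δ * t ^ 2 := by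
      gcongr
      have : 0 ≤ 2 * cp2 h tj / a * δ := by positivity
      linarith
    constructor
    · rw [e1, e2, sub_zero, abs_of_nonneg (by positivity)]
      calc t * (gam h tj tc δ * t) = gam h tj tc δ * t ^ 2 := by ring
        _ ≤ _ := hle
    · rw [e3, e4, sub_zero, abs_of_nonneg (by positivity)]
      have : 0 ≤ gam h tj tc δ * t ^ 2 := by positivity
      linarith
  · have h1 := H.Q_sub_le hδ hδc hδj ht0.le ht.2
    have hle : t * (2 * cp2 h tj * δ) ≤ (cp2 h tj / tj + 2 * cp2 h tj / a) * δ * t ^ 2 := by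
      have e : t * (2 * cp2 h tj * δ) = 2 * cp2 h tj * δ / a * (a * t) := by field_simp
      rw [e]
      calc 2 * cp2 h tj * δ / a * (a * t) ≤ 2 * cp2 h tj * δ / a * (t * t) := by gcongr
        _ ≤ _ := by
          have : 0 ≤ cp2 h tj / tj * δ * t ^ 2 := by positivity
          have e2 : 2 * cp2 h tj * δ / a * (t * t) = 2 * cp2 h tj / a * δ * t ^ 2 := by ring
          rw [e2]
          linarith
    constructor
    · rw [abs_mul, abs_of_pos ht0]
      refine le_trans ?_ hle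
      gcongr
    · have hc1 : ∀ s t, IntervalIntegrable (Qi (kap h tj tc c0 δ φ)) volume s t := fun s t =>
        (H.contDiff_Qi hδ).continuous.intervalIntegrable _ _
      have hc2 : ∀ s t, IntervalIntegrable (Qi (kinf h tj c0 φ)) volume s t := fun s t =>
        H.Qinf_cont.intervalIntegrable _ _
      unfold PP
      rw [← intervalIntegral.integral_sub (hc1 _ _) (hc2 _ _)]
      have h2 : ‖∫ u in (0:ℝ)..t, (Qi (kap h tj tc c0 δ φ) u - Qi (kinf h tj c0 φ) u)‖ ≤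
          (2 * cp2 h tj * δ) * |t - 0| := by
        apply intervalIntegral.norm_integral_le_of_norm_le_const
        intro u hu
        rw [uIoc_of_le ht0.le] at hu
        exact H.Q_sub_le hδ hδc hδj hu.1.le (hu.2.trans ht.2)
      rw [sub_zero, abs_of_pos ht0, Real.norm_eq_abs] at h2
      refine h2.trans ?_
      linarith

omit H in
/-- quotients -/
lemma quot_diff {u v p q r U D : ℝ} (hr : 0 < r) (hp : r ≤ p) (hq : r ≤ q) (hv : |v| ≤ U)
    (hD : |p - q| ≤ D) : |u / p - v / q| ≤ |u - v| / r + U * D / r ^ 2 := by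
  have hp0 : 0 < p := hr.trans_le hp
  have hq0 : 0 < q := hr.trans_le hq
  have e : u / p - v / q = (u - v) / p + v * (q - p) / (p * q) := by
    field_simp
    ring
  have hD0 : 0 ≤ D := (abs_nonneg _).trans hD
  have hU0 : 0 ≤ U := (abs_nonneg _).trans hv
  rw [e]
  refine (abs_add_le _ _).trans ?_
  rw [abs_div, abs_div, abs_of_pos hp0, abs_of_pos (by positivity : 0 < p * q), abs_mul,
    abs_sub_comm q p]
  have h1 : |u - v| / p ≤ |u - v| / r := by gcongr
  have h2 : |v| * |p - q| / (p * q) ≤ U * D / r ^ 2 := by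
    rw [pow_two]
    gcongr
  linarith

end SmD

end Pool.Agent.Lib.MP_85963d_gt.H70
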