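import Pool.Agent.Lib.MP_85963d_gt.H70.Est

/-!
# MP_85963d_gt: estimates for the smoothing, part 2
-/

set_option autoImplicit false

open MeasureTheory Set Filter Topology Real

namespace Pool.Agent.Lib.MP_85963d_gt.H70

variable {h tj tc a b c0 δ : ℝ} {φ : ℝ → ℝ}

lemma PD.mono {T c C c2 C2 : ℝ} {P Q S K : ℝ → ℝ} (h : PD T c C P Q S K) (hc : c2 ≤ c)
    (hC : C ≤ C2) : PD T c2 C2 P Q S K where
  mP := h.mP
  mQ := h.mQ
  mS := h.mS
  mK := h.mK
  cP := h.cP
  cS := h.cS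
  bP t ht := ⟨hc.trans (h.bP t ht).1, (h.bP t ht).2.trans hC⟩
  bS t ht := ⟨hc.trans (h.bS t ht).1, (h.bS t ht).2.trans hC⟩
  bQ t ht := (h.bQ t ht).trans hC
  bK t ht := (h.bK t ht).trans hC
  nP t ht := (h.nP t ht).trans (by gcongr)
  nS t ht := (h.nS t ht).trans (by gcongr)

/-- the error function of `κ` -/
noncomputable def ek (h tj tc c0 δ : ℝ) (φ : ℝ → ℝ) (t : ℝ) : ℝ :=
  |kap h tj tc c0 δ φ t - kinf h tj c0 φ t|

/-- uniform estimates for the smoothing -/
theorem SmD.est (H : SmD h tj tc a b c0 φ) (hp : 0 < pinf h tj tc c0 φ 0) :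
    ∃ δ₀ c C E q : ℝ, 0 < δ₀ ∧ 0 < c ∧ c ≤ 1 ∧ 0 ≤ C ∧ 0 ≤ E ∧ 0 < q ∧ tj + δ₀ ≤ tc ∧ δ₀ ≤ tj ∧
      PD tc c C (nP (pinf h tj tc c0 φ 0) (kinf h tj c0 φ))
        (nQ (pinf h tj tc c0 φ 0) (kinf h tj c0 φ)) (nS (pinf h tj tc c0 φ 0) (kinf h tj c0 φ))
        (nK (pinf h tj tc c0 φ 0) (kinf h tj c0 φ)) ∧
      ∀ δ, 0 < δ → δ ≤ δ₀ → 0 < psm h tj tc c0 δ φ 0 ∧
        PD tc c C (nP (psm h tj tc c0 δ φ 0) (kap h tj tc c0 δ φ))
          (nQ (psm h tj tc c0 δ φ 0) (kap h tj tc c0 δ φ))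
          (nS (psm h tj tc c0 δ φ 0) (kap h tj tc c0 δ φ))
          (nK (psm h tj tc c0 δ φ 0) (kap h tj tc c0 δ φ)) ∧
        ∀ t ∈ Ioc 0 tc,
          |nP (psm h tj tc c0 δ φ 0) (kap h tj tc c0 δ φ) t -
            nP (pinf h tj tc c0 φ 0) (kinf h tj c0 φ) t| ≤ E * δ * t ^ 2 ∧
          |nS (psm h tj tc c0 δ φ 0) (kap h tj tc c0 δ φ) t -
            nS (pinf h tj tc c0 φ 0) (kinf h tj c0 φ) t| ≤ E * δ * t ^ 2 ∧
          |nQ (psm h tj tc c0 δ φ 0) (kap h tj tc c0 δ φ) t ^ 2 -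
            nQ (pinf h tj tc c0 φ 0) (kinf h tj c0 φ) t ^ 2| ≤ E * δ ∧
          |nK (psm h tj tc c0 δ φ 0) (kap h tj tc c0 δ φ) t -
            nK (pinf h tj tc c0 φ 0) (kinf h tj c0 φ) t| ≤
            E * δ + ek h tj tc c0 δ φ t / q := by
  obtain ⟨M, hM0, hM⟩ := H.phi_bdd
  have htc := H.tc_pos
  have htj := H.tj_pos
  have ha := H.ha
  have hM2 := H.cp2_tj_pos
  have hjc := H.hjc
  set p := pinf h tj tc c0 φ 0 with hpdef
  set M2 := cp2 h tj with hM2def
  set Kb := Kbd h tj c0 M with hKbdef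
  have hKb : 0 ≤ Kb := (H.kb_kinf hM0 hM).Kb_nonneg
  set q := p / 2 with hqdef
  have hq : 0 < q := by positivity
  have hqp : q ≤ p := by rw [hqdef]; linarith
  set E1 := M2 / tj + 2 * M2 / a with hE1
  have hE10 : 0 ≤ E1 := by positivity
  set E2 := 2 * M2 * tc with hE2
  have hE20 : 0 ≤ E2 := by positivity
  set δ₀ := min (min (tc - tj) tj) (q / (E2 + 1)) with hδ₀
  have hδ₀pos : 0 < δ₀ := by
    rw [hδ₀]
    refine lt_min (lt_min (by linarith) htj) (by positivity)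
  set c := min 1 (cpS h tc / cp h tc) with hc
  have hr := H.rad_pos hjc.le
  have hcp := cp_pos H.hh htc hr
  have hcS := cpS_pos hr
  have hc0 : 0 < c := lt_min one_pos (by positivity)
  set C := 1 + Kb / q * (1 + tc + tc ^ 2) with hC
  have hC0 : 0 ≤ C := by positivity
  -- the constant
  set E := (2 * E1 / q + Kb * E2 / q ^ 2) + (2 * C) * (2 * M2 / q + Kb * tc * E2 / q ^ 2) with hE
  have hE0 : 0 ≤ E := by positivity
  have hcb : c ≤ 1 := min_le_left _ _
  refine ⟨δ₀, c, C, E, q, hδ₀pos, hc0, hcb, hC0, hE0, hq, ?_, ?_, ?_, ?_⟩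
  · have : δ₀ ≤ tc - tj := (min_le_left _ _).trans (min_le_left _ _)
    linarith
  · exact (min_le_left _ _).trans (min_le_right _ _)
  · exact (H.kb_kinf hM0 hM).pd hq hqp hcb fun t ht => H.nSinf_ge hp ht
  · intro δ hδ hδle
    have hδc : tj + δ ≤ tc := by
      have : δ₀ ≤ tc - tj := (min_le_left _ _).trans (min_le_left _ _)
      linarith
    have hδj : δ ≤ tj := hδle.trans ((min_le_left _ _).trans (min_le_right _ _))
    have hδq : E2 * δ ≤ q := by
      have h1 : δ ≤ q / (E2 + 1) := hδle.trans (min_le_right _ _)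
      calc E2 * δ ≤ (E2 + 1) * (q / (E2 + 1)) := by
            gcongr
            linarith
        _ = q := by field_simp
    set pn := psm h tj tc c0 δ φ 0 with hpn
    have hpd : |pn - p| ≤ E2 * δ := by
      have h1 := H.p_sub_le hδ hδc hδj le_rfl htc.le
      rw [← hpn, ← hpdef] at h1
      refine h1.trans (le_of_eq ?_)
      rw [hE2]
      ring
    have hqpn : q ≤ pn := by
      have := (abs_le.1 hpd).1
      rw [hqdef] at *
      linarith
    have hpn0 : 0 < pn := hq.trans_le hqpn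
    have kb1 := H.kb_kap hδ hδc hδj hM
    have kb2 := H.kb_kinf hM0 hM
    have pdn := kb1.pd (T := tc) hq hqpn hcb fun t ht => H.nS_ge hδ hδc hδj hpn0 ht
    have pdi := kb2.pd (T := tc) hq hqp hcb fun t ht => H.nSinf_ge hp ht
    refine ⟨hpn0, pdn, fun t ht => ?_⟩
    have ht0 := ht.1.le
    obtain ⟨d1, d2⟩ := H.diff_le hδ hδc hδj ht
    have hEt : (2 * E1 / q + Kb * E2 / q ^ 2) * δ * t ^ 2 ≤ E * δ * t ^ 2 := by
      have : 0 ≤ (2 * C) * (2 * M2 / q + Kb * tc * E2 / q ^ 2) := by positivity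
      gcongr
      rw [hE]
      linarith
    refine ⟨?_, ?_, ?_, ?_⟩
    · have e : nP pn (kap h tj tc c0 δ φ) t - nP p (kinf h tj c0 φ) t =
          PP (kap h tj tc c0 δ φ) t / pn - PP (kinf h tj c0 φ) t / p := by
        unfold nP
        ring
      have hv : |PP (kinf h tj c0 φ) t| ≤ Kb * t ^ 2 := by
        rw [abs_of_nonneg (kb2.PP_nonneg ht0)]
        exact kb2.PP_le2 ht0
      rw [e]
      refine (SmD.quot_diff hq hqpn hqp hv hpd).trans ?_
      refine le_trans ?_ hEt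
      have h1 : |PP (kap h tj tc c0 δ φ) t - PP (kinf h tj c0 φ) t| / q ≤
          E1 * δ * t ^ 2 / q := by gcongr
      have h2 : 0 ≤ E1 * δ * t ^ 2 / q := by positivity
      have e2 : (2 * E1 / q + Kb * E2 / q ^ 2) * δ * t ^ 2 =
          E1 * δ * t ^ 2 / q + E1 * δ * t ^ 2 / q + Kb * t ^ 2 * (E2 * δ) / q ^ 2 := by ring
      rw [e2]
      linarith
    · have e : nS pn (kap h tj tc c0 δ φ) t - nS p (kinf h tj c0 φ) t =
          (PP (kap h tj tc c0 δ φ) t - t * Qi (kap h tj tc c0 δ φ) t) / pn -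
          (PP (kinf h tj c0 φ) t - t * Qi (kinf h tj c0 φ) t) / p := by
        unfold nS
        ring
      have hv : |PP (kinf h tj c0 φ) t - t * Qi (kinf h tj c0 φ) t| ≤ Kb * t ^ 2 := by
        have h1 := kb2.PP_le ht0
        have h2 := kb2.PP_nonneg ht0
        have h3 := kb2.Q_le ht0
        rw [abs_of_nonpos (by linarith)]
        nlinarith
      rw [e]
      refine (SmD.quot_diff hq hqpn hqp hv hpd).trans ?_
      refine le_trans ?_ hEt
      have h0 : |PP (kap h tj tc c0 δ φ) t - t * Qi (kap h tj tc c0 δ φ) t -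
          (PP (kinf h tj c0 φ) t - t * Qi (kinf h tj c0 φ) t)| ≤ 2 * (E1 * δ * t ^ 2) := by
        have e3 : PP (kap h tj tc c0 δ φ) t - t * Qi (kap h tj tc c0 δ φ) t -
            (PP (kinf h tj c0 φ) t - t * Qi (kinf h tj c0 φ) t) =
            (PP (kap h tj tc c0 δ φ) t - PP (kinf h tj c0 φ) t) -
            t * (Qi (kap h tj tc c0 δ φ) t - Qi (kinf h tj c0 φ) t) := by ring
        rw [e3]
        refine (abs_sub _ _).trans ?_
        linarith
      have h1 : |PP (kap h tj tc c0 δ φ) t - t * Qi (kap h tj tc c0 δ φ) t -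
          (PP (kinf h tj c0 φ) t - t * Qi (kinf h tj c0 φ) t)| / q ≤
          2 * (E1 * δ * t ^ 2) / q := by gcongr
      have e2 : (2 * E1 / q + Kb * E2 / q ^ 2) * δ * t ^ 2 =
          2 * (E1 * δ * t ^ 2) / q + Kb * t ^ 2 * (E2 * δ) / q ^ 2 := by ring
      rw [e2]
      linarith
    · have hv : |Qi (kinf h tj c0 φ) t| ≤ Kb * tc := by
        rw [abs_of_nonneg (kb2.Q_nonneg ht0)]
        refine (kb2.Q_le ht0).trans ?_
        gcongr
        exact ht.2
      have h1 := SmD.quot_diff (u := Qi (kap h tj tc c0 δ φ) t) hq hqpn hqp hv hpd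
      have h2 := H.Q_sub_le hδ hδc hδj ht0 ht.2
      have h3 : |nQ pn (kap h tj tc c0 δ φ) t - nQ p (kinf h tj c0 φ) t| ≤
          (2 * M2 / q + Kb * tc * E2 / q ^ 2) * δ := by
        unfold nQ
        refine h1.trans ?_
        have h4 : |Qi (kap h tj tc c0 δ φ) t - Qi (kinf h tj c0 φ) t| / q ≤
            2 * M2 * δ / q := by gcongr
        have e2 : (2 * M2 / q + Kb * tc * E2 / q ^ 2) * δ =
            2 * M2 * δ / q + Kb * tc * (E2 * δ) / q ^ 2 := by ring
        rw [e2]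
        linarith
      have h5 := pdn.bQ t ht
      have h6 := pdi.bQ t ht
      have e3 : nQ pn (kap h tj tc c0 δ φ) t ^ 2 - nQ p (kinf h tj c0 φ) t ^ 2 =
          (nQ pn (kap h tj tc c0 δ φ) t + nQ p (kinf h tj c0 φ) t) *
          (nQ pn (kap h tj tc c0 δ φ) t - nQ p (kinf h tj c0 φ) t) := by ring
      rw [e3, abs_mul]
      have h7 : |nQ pn (kap h tj tc c0 δ φ) t + nQ p (kinf h tj c0 φ) t| ≤ 2 * C := by
        refine (abs_add_le _ _).trans ?_
        linarith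
      calc |nQ pn (kap h tj tc c0 δ φ) t + nQ p (kinf h tj c0 φ) t| *
          |nQ pn (kap h tj tc c0 δ φ) t - nQ p (kinf h tj c0 φ) t|
          ≤ (2 * C) * ((2 * M2 / q + Kb * tc * E2 / q ^ 2) * δ) := by gcongr
        _ = (2 * C) * (2 * M2 / q + Kb * tc * E2 / q ^ 2) * δ := by ring
        _ ≤ E * δ := by
          gcongr
          rw [hE]
          have : 0 ≤ 2 * E1 / q + Kb * E2 / q ^ 2 := by positivity
          linarith
    · have hv : |kinf h tj c0 φ t| ≤ Kb := by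
        rw [abs_of_nonneg (kb2.nn t ht0)]
        exact kb2.le t ht0
      have h1 := SmD.quot_diff (u := kap h tj tc c0 δ φ t) hq hqpn hqp hv hpd
      unfold nK ek
      refine h1.trans ?_
      have h2 : Kb * (E2 * δ) / q ^ 2 ≤ E * δ := by
        have e2 : Kb * (E2 * δ) / q ^ 2 = Kb * E2 / q ^ 2 * δ := by ring
        rw [e2, hE]
        have : 0 ≤ 2 * E1 / q + (2 * C) * (2 * M2 / q + Kb * tc * E2 / q ^ 2) := by positivity
        gcongr
        linarith
      linarith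

/-- the error of `κ` in the variable `X` -/
lemma SmD.ek_le (H : SmD h tj tc a b c0 φ) (hδ : 0 < δ) (hδc : tj + δ ≤ tc) (hδj : δ ≤ tj)
    {X : ℝ} (hX : 0 < X) :
    ek h tj tc c0 δ φ (√X) ≤ cp2 h tj / tj * δ +
      (Icc (tj ^ 2) ((tj + δ) ^ 2)).indicator (fun _ => cp2 h tj) X := by
  have htj := H.tj_pos
  have hM2 := H.cp2_tj_pos
  have h0 := Real.sqrt_nonneg X
  have hi : 0 ≤ (Icc (tj ^ 2) ((tj + δ) ^ 2)).indicator (fun _ => cp2 h tj) X :=
    indicator_nonneg (fun _ _ => hM2.le) X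
  have hg := H.gam_pos hδ
  have hg2 := H.gam_le' hδ hδc
  unfold ek
  rcases le_total (√X) tj with h1 | h1
  · rw [H.kap_sub_lo hδ h0 h1, abs_of_pos hg]
    linarith
  · rcases le_total (tj + δ) (√X) with h2 | h2
    · rw [H.kap_sub_hi hδ h2, abs_zero]
      positivity
    · rcases eq_or_lt_of_le h1 with h3 | h3
      · rw [← h3] at h0 ⊢
        rw [H.kap_sub_lo hδ htj.le le_rfl, abs_of_pos hg]
        linarith
      · have h4 := H.kap_sub_mid hδ hδc hδj h3
        have h5 : X ∈ Icc (tj ^ 2) ((tj + δ) ^ 2) := by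
          constructor
          · exact (Real.le_sqrt htj.le hX.le).1 h1
          · exact (Real.sqrt_le_left (by linarith)).1 h2
        rw [indicator_of_mem h5]
        have : 0 ≤ cp2 h tj / tj * δ := by positivity
        linarith

end Pool.Agent.Lib.MP_85963d_gt.H70
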