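import Pool.Agent.Lib.MP_85963d_gt.H70.Est2
import Pool.Agent.Lib.MP_85963d_gt.H87.AB7

/-!
# MP_85963d_gt: smoothing, final part 1
-/

set_option autoImplicit false

open MeasureTheory Set Filter Topology Real

namespace Pool.Agent.Lib.MP_85963d_gt.H70

open Pool.Agent.MP85963d

variable {h tj tc a b c0 δ : ℝ} {φ φ' : ℝ → ℝ}

/-! ### equal moments -/

lemma int_Qi {f : ℝ → ℝ} (hf : Continuous f) (T : ℝ) :
    ∫ u in (0:ℝ)..T, Qi f u = T * Qi f T - ∫ u in (0:ℝ)..T, u * f u := by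
  have hQ : ∀ t, HasDerivAt (Qi f) (f t) t := fun t =>
    intervalIntegral.integral_hasDerivAt_right (hf.intervalIntegrable _ _)
      (hf.stronglyMeasurableAtFilter _ _) hf.continuousAt
  have hQc : Continuous (Qi f) := by
    rw [continuous_iff_continuousAt]
    exact fun t => (hQ t).continuousAt
  have hU : ∀ t, HasDerivAt (fun t => ∫ u in (0:ℝ)..t, u * f u) (t * f t) t := fun t =>
    intervalIntegral.integral_hasDerivAt_right ((continuous_id.mul hf).intervalIntegrable _ _)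
      ((continuous_id.mul hf).stronglyMeasurableAtFilter _ _) (continuous_id.mul hf).continuousAt
  have hd : ∀ t ∈ uIcc 0 T, HasDerivAt (fun t => t * Qi f t - ∫ u in (0:ℝ)..t, u * f u)
      (Qi f t) t := by
    intro t _
    refine (((hasDerivAt_id t).mul (hQ t)).sub (hU t)).congr_deriv ?_
    simp
  rw [intervalIntegral.integral_eq_sub_of_hasDerivAt hd (hQc.intervalIntegrable _ _)]
  simp

lemma SmD.int_first (H : SmD h tj tc a b c0 φ) {t : ℝ} (ht : b ≤ t) :
    ∫ u in (0:ℝ)..t, u * φ u = ∫ u, u * φ u := by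
  have h0 : 0 ≤ t := (H.ha.trans H.hab).le.trans ht
  rw [intervalIntegral.integral_of_le h0]
  apply setIntegral_eq_integral_of_forall_compl_eq_zero
  intro x hx
  rw [H.sp x, mul_zero]
  intro h1
  apply hx
  exact ⟨H.ha.trans_le h1.1, h1.2.trans ht⟩

/-- the double integrals agree -/
lemma double_eq (H : SmD h tj tc a b c0 φ) (H' : SmD h tj tc a b c0 φ')
    (hm : ∫ t, t * φ t = ∫ t, t * φ' t) {T : ℝ} (hT : b ≤ T) :
    ∫ u in (0:ℝ)..T, Qi φ u = ∫ u in (0:ℝ)..T, Qi φ' u := by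
  rw [int_Qi H.sm.continuous, int_Qi H'.sm.continuous, H.int_first hT, H'.int_first hT, hm]
  congr 2
  unfold Qi
  rw [H.int_phi hT, H'.int_phi hT]
  have h1 := H.mass
  have h2 := H'.mass
  exact mul_left_cancel₀ H.hc0.ne' (h1.trans h2.symm)

lemma pinf_zero_eq (H : SmD h tj tc a b c0 φ) (H' : SmD h tj tc a b c0 φ')
    (hm : ∫ t, t * φ t = ∫ t, t * φ' t) :
    pinf h tj tc c0 φ 0 = pinf h tj tc c0 φ' 0 := by
  rw [H.pinf_lo le_rfl H.tj_pos.le, H'.pinf_lo le_rfl H.tj_pos.le,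
    double_eq H H' hm H.hbj.le]
  simp

lemma psm_zero_eq (H : SmD h tj tc a b c0 φ) (H' : SmD h tj tc a b c0 φ')
    (hm : ∫ t, t * φ t = ∫ t, t * φ' t) (hδ : 0 < δ) :
    psm h tj tc c0 δ φ 0 = psm h tj tc c0 δ φ' 0 := by
  have hk : ∀ s t, IntervalIntegrable (kap h tj tc c0 δ φ) volume s t := H.kap_int hδ
  have hk' : ∀ s t, IntervalIntegrable (kap h tj tc c0 δ φ') volume s t := H'.kap_int hδ
  have hQ : ∀ s t, IntervalIntegrable (Qi (kap h tj tc c0 δ φ)) volume s t := fun s t =>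
    (H.contDiff_Qi hδ).continuous.intervalIntegrable _ _
  have hQ' : ∀ s t, IntervalIntegrable (Qi (kap h tj tc c0 δ φ')) volume s t := fun s t =>
    (H'.contDiff_Qi hδ).continuous.intervalIntegrable _ _
  have hφ : ∀ s t, IntervalIntegrable φ volume s t := fun s t =>
    H.sm.continuous.intervalIntegrable _ _
  have hφ' : ∀ s t, IntervalIntegrable φ' volume s t := fun s t =>
    H'.sm.continuous.intervalIntegrable _ _
  have hQφ : Continuous (Qi φ) := intervalIntegral.continuous_primitive hφ 0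
  have hQφ' : Continuous (Qi φ') := intervalIntegral.continuous_primitive hφ' 0
  have e1 : ∀ t, 0 ≤ t → Qi (kap h tj tc c0 δ φ) t - Qi (kap h tj tc c0 δ φ') t =
      c0 * (Qi φ t - Qi φ' t) := by
    intro t ht
    unfold Qi
    rw [← intervalIntegral.integral_sub (hk _ _) (hk' _ _),
      ← intervalIntegral.integral_sub (hφ _ _) (hφ' _ _), ← intervalIntegral.integral_const_mul]
    apply intervalIntegral.integral_congr
    intro u hu
    rw [uIcc_of_le ht] at hu
    simp only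
    rw [H.kap_eq hδ hu.1, H'.kap_eq hδ hu.1]
    ring
  have e2 : ∫ u in (0:ℝ)..tc, (Qi (kap h tj tc c0 δ φ) u - Qi (kap h tj tc c0 δ φ') u) = 0 := by
    rw [intervalIntegral.integral_congr (g := fun u => c0 * (Qi φ u - Qi φ' u))]
    · rw [intervalIntegral.integral_const_mul, intervalIntegral.integral_sub
        (hQφ.intervalIntegrable _ _) (hQφ'.intervalIntegrable _ _),
        double_eq H H' hm (H.hbj.trans H.hjc).le, sub_self, mul_zero]
    · intro u hu
      rw [uIcc_of_le H.tc_pos.le] at hu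
      exact e1 u hu.1
  rw [intervalIntegral.integral_sub (hQ _ _) (hQ' _ _)] at e2
  unfold psm Pi'
  simp only [intervalIntegral.integral_same, add_zero]
  linarith

/-! ### the smoothed profiles are profiles -/

lemma SmD.isProf (H : SmD h tj tc a b c0 φ) (hδ : 0 < δ) (hδc : tj + δ ≤ tc) :
    IsProf h tc (psm h tj tc c0 δ φ) where
  one_lt := H.hh
  tc_pos := H.tc_pos
  tc_lt := by linarith [H.rad_pos H.hjc.le]
  smooth := H.contDiff_psm hδ
  even t := H.psm_even t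
  conv t := by
    rw [H.deriv2_psm hδ]
    exact H.kap_pos hδ t
  S_pos t := by
    unfold Sf
    rw [H.deriv_psm hδ]
    exact H.S_pos hδ hδc t
  cap t ht := H.psm_far hδ hδc ht

/-- the `S`-function of `κ` with `ψ(0) = p` -/
noncomputable def uS (p : ℝ) (κ : ℝ → ℝ) (t : ℝ) : ℝ := p + PP κ t - t * Qi κ t

/-- the profile of `κ` with `ψ(0) = p` -/
noncomputable def uP (p : ℝ) (κ : ℝ → ℝ) (t : ℝ) : ℝ := p + PP κ t

lemma SmD.omψ_psm (H : SmD h tj tc a b c0 φ) (hδ : 0 < δ) :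
    omψ (psm h tj tc c0 δ φ) =
      om (uP (psm h tj tc c0 δ φ 0) (kap h tj tc c0 δ φ)) (Qi (kap h tj tc c0 δ φ))
        (uS (psm h tj tc c0 δ φ 0) (kap h tj tc c0 δ φ)) (kap h tj tc c0 δ φ) := by
  have e1 : psm h tj tc c0 δ φ = uP (psm h tj tc c0 δ φ 0) (kap h tj tc c0 δ φ) := by
    ext t
    exact H.psm_eq hδ t
  have e2 : Sf (psm h tj tc c0 δ φ) = uS (psm h tj tc c0 δ φ 0) (kap h tj tc c0 δ φ) := by
    ext t
    unfold Sf uS
    rw [H.deriv_psm hδ, H.psm_eq hδ t]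
  unfold omψ
  rw [e2, H.deriv2_psm hδ, H.deriv_psm hδ]
  nth_rewrite 1 [e1]
  rfl

/-- the limit weight -/
lemma winf_eq' (hp : 0 < pinf h tj tc c0 φ 0) :
    winf h tj tc c0 φ = fun X Y => pinf h tj tc c0 φ 0 ^ 2 *
      om (uP (pinf h tj tc c0 φ 0) (kinf h tj c0 φ)) (Qi (kinf h tj c0 φ))
        (uS (pinf h tj tc c0 φ 0) (kinf h tj c0 φ)) (kinf h tj c0 φ) X Y := by
  rw [← H87.om_norm hp]
  unfold winf wκ
  have e1 : nP (pinf h tj tc c0 φ 0) (kinf h tj c0 φ) =
      H87.nm (pinf h tj tc c0 φ 0) (uP (pinf h tj tc c0 φ 0) (kinf h tj c0 φ)) := by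
    ext t
    unfold nP H87.nm uP
    rw [add_div, div_self hp.ne']
  have e2 : nS (pinf h tj tc c0 φ 0) (kinf h tj c0 φ) =
      H87.nm (pinf h tj tc c0 φ 0) (uS (pinf h tj tc c0 φ 0) (kinf h tj c0 φ)) := by
    ext t
    unfold nS H87.nm uS
    rw [add_sub_assoc, add_div, div_self hp.ne']
  rw [e1, e2]
  rfl

/-- un-normalised profile data -/
lemma KB.pd87 {Kb : ℝ} {κ : ℝ → ℝ} (hK : KB Kb κ) {T c C p : ℝ} (hT : 0 ≤ T) (hcp : c ≤ p)
    (hpC : p + Kb * (1 + T + T ^ 2) ≤ C) (hp0 : 0 ≤ p) (hS : ∀ t ∈ Ioc 0 T, c ≤ uS p κ t) :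
    H87.PD (T ^ 2) c C p (uP p κ) (Qi κ) (uS p κ) κ := by
  have hKb := hK.Kb_nonneg
  have hQc := hK.cont
  have hPc := hK.contPP
  have hcS : Continuous (uS p κ) := by
    unfold uS
    fun_prop
  have hcP : Continuous (uP p κ) := by
    unfold uP
    fun_prop
  have hKT : 0 ≤ Kb * (1 + T + T ^ 2) := by positivity
  have hb : ∀ t ∈ Ioc 0 T, Kb * t ^ 2 ≤ Kb * (1 + T + T ^ 2) ∧
      Kb * t ≤ Kb * (1 + T + T ^ 2) ∧ Kb ≤ Kb * (1 + T + T ^ 2) := by
    intro t ht
    have h0 := ht.1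
    have h1 := ht.2
    have hT : 0 < T := h0.trans_le h1
    refine ⟨?_, ?_, ?_⟩
    · gcongr
      nlinarith
    · gcongr
      nlinarith
    · apply le_mul_of_one_le_right hKb
      nlinarith
  refine ⟨hcP.measurable, hQc.measurable, hcS.measurable, hK.meas, hcP.continuousOn,
    hcS.continuousOn, ⟨hcp, by linarith⟩, ?_, ?_, ?_, ?_, ?_, ?_⟩
  all_goals
    rw [Real.sqrt_sq hT]
    intro t ht
    have ht0 := ht.1.le
    obtain ⟨b1, b2, b3⟩ := hb t ht
    have k1 := hK.PP_nonneg ht0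
    have k2 := hK.PP_le2 ht0
    have k3 := hK.PP_le ht0
    have k4 := hK.Q_nonneg ht0
    have k5 := hK.Q_le ht0
    have k6 := hK.nn t ht0
    have k7 := hK.le t ht0
  · unfold uP
    constructor <;> linarith
  · refine ⟨hS t ht, ?_⟩
    unfold uS
    linarith
  · rw [abs_of_nonneg k4]
    linarith
  · rw [abs_of_nonneg k6]
    linarith
  · unfold uP
    rw [add_sub_cancel_left, abs_of_nonneg k1]
    refine k2.trans ?_
    gcongr
    linarith
  · unfold uS
    have e : p + PP κ t - t * Qi κ t - p = PP κ t - t * Qi κ t := by ring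
    rw [e, abs_of_nonpos (by linarith)]
    have k8 : t * Qi κ t ≤ Kb * t ^ 2 := by nlinarith
    have k9 : Kb * t ^ 2 ≤ C * t ^ 2 := by
      gcongr
      linarith
    linarith

end Pool.Agent.Lib.MP_85963d_gt.H70
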