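import Pool.Agent.Lib.MP_85963d_gt.H70.Fin1

/-!
# MP_85963d_gt: smoothing, final part 2
-/

set_option autoImplicit false

open MeasureTheory Set Filter Topology Real

namespace Pool.Agent.Lib.MP_85963d_gt.H70

open Pool.Agent.MP85963d

/-- continuity statement (helper87, AB8) -/
def DatTendstoStatement : Prop :=
  ∀ (b c C δ x p₀ α β : ℝ) (P Q S K G : ℝ → ℝ) (pn : ℕ → ℝ) (Pn Qn Sn Kn Gn : ℕ → ℝ → ℝ)
    (ε : ℕ → ℝ), 0 < b → 0 < c → H87.Small b c C δ → 0 < x → H87.PD b c C p₀ P Q S K →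
    (∀ n, H87.PD b c C (pn n) (Pn n) (Qn n) (Sn n) (Kn n)) → H87.Dat b δ P Q S K α β G →
    (∀ n, H87.Dat b δ (Pn n) (Qn n) (Sn n) (Kn n) α β (Gn n)) → Tendsto ε atTop (𝓝 0) →
    (∀ n, |pn n - p₀| ≤ ε n) →
    (∀ n, ∀ t ∈ Ioc 0 (√b), |(Pn n t - pn n) - (P t - p₀)| ≤ ε n * t ^ 2) →
    (∀ n, ∀ t ∈ Ioc 0 (√b), |(Sn n t - pn n) - (S t - p₀)| ≤ ε n * t ^ 2) →
    (∀ n, ∀ t ∈ Ioc 0 (√b), |Qn n t - Q t| ≤ ε n) →
    (∀ n, ∀ t ∈ Ioo 0 x, |Kn n t - K t| ≤ ε n) →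
    (∀ n, ∫ t in (0:ℝ)..(√b), |Kn n t - K t| ≤ ε n) →
    (∀ X ∈ Ioc 0 b, Tendsto (fun n => Gn n X) atTop (𝓝 (G X))) ∧
      ∃ M, 0 ≤ M ∧ ∀ n, ∀ X ∈ Ioc 0 b, |Gn n X| ≤ M / √X

/-! ### generalities -/

lemma tendsto_om {Pn Qn Sn Kn : ℕ → ℝ → ℝ} {P Q S K : ℝ → ℝ} {X Y : ℝ}
    (hP : Tendsto (fun n => Pn n (√X)) atTop (𝓝 (P (√X))))
    (hQ : Tendsto (fun n => Qn n (√X)) atTop (𝓝 (Q (√X))))
    (hS : Tendsto (fun n => Sn n (√X)) atTop (𝓝 (S (√X))))
    (hK : Tendsto (fun n => Kn n (√X)) atTop (𝓝 (K (√X)))) (hp : 0 < P (√X)) (hY : 0 ≤ Y) :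
    Tendsto (fun n => om (Pn n) (Qn n) (Sn n) (Kn n) X Y) atTop (𝓝 (om P Q S K X Y)) := by
  unfold om
  have h1 : Tendsto (fun n => Pn n (√X) ^ 2 + Y * (Qn n (√X) ^ 2 + Sn n (√X) ^ 2)) atTop
      (𝓝 (P (√X) ^ 2 + Y * (Q (√X) ^ 2 + S (√X) ^ 2))) :=
    (hP.pow 2).add (((hQ.pow 2).add (hS.pow 2)).const_mul Y)
  have h2 := (h1.sqrt).pow 3
  refine (hS.add (hK.const_mul Y)).div h2 ?_
  have : 0 < P (√X) ^ 2 + Y * (Q (√X) ^ 2 + S (√X) ^ 2) := by positivity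
  have := Real.sqrt_pos.2 this
  positivity

lemma wok_of_pd {T c C p : ℝ} {P Q S K : ℝ → ℝ} (h : H87.PD (T ^ 2) c C p P Q S K) (hT : 0 ≤ T)
    (hc : 0 < c) (hK : ∀ t, 0 ≤ t → 0 ≤ K t) : WOK (T ^ 2) (C / c ^ 3) (om P Q S K) := by
  refine ⟨?_, fun X hX Y hY => ?_⟩
  · have := h.mP
    have := h.mQ
    have := h.mS
    have := h.mK
    unfold om Function.uncurry
    fun_prop
  · have ht : √X ∈ Ioc 0 (√(T ^ 2)) :=
      ⟨Real.sqrt_pos.2 hX.1, Real.sqrt_le_sqrt hX.2.le⟩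
    have h1 := h.bP _ ht
    have h2 := h.bS _ ht
    have h3 := h.bK _ ht
    exact om_le hc h1.1 h2.1 h2.2 (hK _ (Real.sqrt_nonneg _)) ((le_abs_self _).trans h3) hY

lemma Small.le {b c C δ δ' : ℝ} (h : H87.Small b c C δ) (h0 : 0 < δ') (hle : δ' ≤ δ) :
    H87.Small b c C δ' := by
  obtain ⟨h1, h2, M, hM, hs, hm⟩ := h
  refine ⟨h0, hle.trans h2, M, hM, ?_, hm⟩
  refine le_trans ?_ hs
  gcongr

lemma Dat.mono {b b' δ α β : ℝ} {P Q S K G : ℝ → ℝ} (h : H87.Dat b δ P Q S K α β G)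
    (hb : b' ≤ b) : H87.Dat b' δ P Q S K α β G := by
  obtain ⟨g, h1, h2, h3⟩ := h
  exact ⟨g, h1.mono (Icc_subset_Icc_right hb), fun X hX => h2 X ⟨hX.1, hX.2.trans hb⟩,
    fun σ hσ => h3 σ ⟨hσ.1, hσ.2.trans hb⟩⟩

/-- scaling the weight scales `DD`, `NN` -/
lemma NN_smul {y0 b k : ℝ} {j : ℕ} {w : ℝ → ℝ → ℝ} {G : ℝ → ℝ} :
    NN y0 b j (DD (fun X Y => k * w X Y) b G) = k * NN y0 b j (DD w b G) := by
  unfold NN DD
  rw [← integral_const_mul]
  apply setIntegral_congr_fun measurableSet_Ioi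
  intro s _
  simp only
  have : ∫ X in Ioo 0 b, G X * (cker X s * (k * w X (s - X))) =
      k * ∫ X in Ioo 0 b, G X * (cker X s * w X (s - X)) := by
    rw [← integral_const_mul]
    apply setIntegral_congr_fun measurableSet_Ioo
    intro X _
    simp only
    ring
  rw [this]
  ring

lemma Nw_smul {h tc k : ℝ} {w : ℝ → ℝ → ℝ} {G : Fin 2 → ℝ → ℝ} :
    (Nw h tc (fun X Y => k * w X Y) G).det = k ^ 2 * (Nw h tc w G).det := by
  rw [Matrix.det_fin_two, Matrix.det_fin_two]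
  simp only [Nw, Matrix.of_apply, NN_smul]
  ring

variable {h tj tc a b c0 δ : ℝ} {φ : ℝ → ℝ}

/-- uniform constants for one body -/
theorem SmD.est87 (H : SmD h tj tc a b c0 φ) (hp : 0 < pinf h tj tc c0 φ 0) :
    ∃ δ₀ c C E : ℝ, 0 < δ₀ ∧ 0 < c ∧ 0 ≤ C ∧ 0 ≤ E ∧ tj + δ₀ ≤ tc ∧ δ₀ ≤ tj ∧
      H87.PD (tc ^ 2) c C (pinf h tj tc c0 φ 0) (uP (pinf h tj tc c0 φ 0) (kinf h tj c0 φ))
        (Qi (kinf h tj c0 φ)) (uS (pinf h tj tc c0 φ 0) (kinf h tj c0 φ)) (kinf h tj c0 φ) ∧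
      ∀ δ, 0 < δ → δ ≤ δ₀ → H87.PD (tc ^ 2) c C (psm h tj tc c0 δ φ 0)
          (uP (psm h tj tc c0 δ φ 0) (kap h tj tc c0 δ φ)) (Qi (kap h tj tc c0 δ φ))
          (uS (psm h tj tc c0 δ φ 0) (kap h tj tc c0 δ φ)) (kap h tj tc c0 δ φ) ∧
        |psm h tj tc c0 δ φ 0 - pinf h tj tc c0 φ 0| ≤ E * δ ∧
        (∀ t ∈ Ioc 0 tc,
          |(uP (psm h tj tc c0 δ φ 0) (kap h tj tc c0 δ φ) t - psm h tj tc c0 δ φ 0) -
            (uP (pinf h tj tc c0 φ 0) (kinf h tj c0 φ) t - pinf h tj tc c0 φ 0)| ≤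
            E * δ * t ^ 2) ∧
        (∀ t ∈ Ioc 0 tc,
          |(uS (psm h tj tc c0 δ φ 0) (kap h tj tc c0 δ φ) t - psm h tj tc c0 δ φ 0) -
            (uS (pinf h tj tc c0 φ 0) (kinf h tj c0 φ) t - pinf h tj tc c0 φ 0)| ≤
            E * δ * t ^ 2) ∧
        (∀ t ∈ Ioc 0 tc, |Qi (kap h tj tc c0 δ φ) t - Qi (kinf h tj c0 φ) t| ≤ E * δ) ∧
        (∀ t ∈ Ioo 0 tj, |kap h tj tc c0 δ φ t - kinf h tj c0 φ t| ≤ E * δ) ∧
        ∫ t in (0:ℝ)..tc, |kap h tj tc c0 δ φ t - kinf h tj c0 φ t| ≤ E * δ := by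
  obtain ⟨M, hM0, hM⟩ := H.phi_bdd
  have htc := H.tc_pos
  have htj := H.tj_pos
  have ha := H.ha
  have hM2 := H.cp2_tj_pos
  have hjc := H.hjc
  have hr := H.rad_pos hjc.le
  have hcp := cp_pos H.hh htc hr
  have hcS := cpS_pos hr
  set p := pinf h tj tc c0 φ 0 with hpdef
  set M2 := cp2 h tj with hM2def
  set Kb := Kbd h tj c0 M with hKbdef
  have hKb : 0 ≤ Kb := (H.kb_kinf hM0 hM).Kb_nonneg
  set q := p / 2 with hqdef
  have hq : 0 < q := by positivity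
  have hqp : q ≤ p := by rw [hqdef]; linarith
  set E1 := M2 / tj + 2 * M2 / a with hE1
  have hE10 : 0 ≤ E1 := by positivity
  set E2 := 2 * M2 * tc with hE2
  have hE20 : 0 ≤ E2 := by positivity
  set δ₀ := min (min (tc - tj) tj) (q / (E2 + 1)) with hδ₀
  have hδ₀pos : 0 < δ₀ := lt_min (lt_min (by linarith) htj) (by positivity)
  set E := E2 + 2 * E1 + 2 * M2 with hE
  have hE0 : 0 ≤ E := by positivity
  set c := min q (cpS h tc) with hcdef
  have hc0 : 0 < c := lt_min hq hcS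
  set C := cp h tc + Kb * (1 + tc + tc ^ 2) with hC
  have hC0 : 0 ≤ C := by positivity
  refine ⟨δ₀, c, C, E, hδ₀pos, hc0, hC0, hE0, ?_, ?_, ?_, ?_⟩
  · have : δ₀ ≤ tc - tj := (min_le_left _ _).trans (min_le_left _ _)
    linarith
  · exact (min_le_left _ _).trans (min_le_right _ _)
  · have hkb := H.kb_kinf hM0 hM
    refine hkb.pd87 htc.le ((min_le_left _ _).trans hqp) ?_ hp.le ?_
    · have := H.pinf_zero_le
      rw [hC]
      linarith
    · intro t ht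
      have h1 := hkb.S_anti ht.1.le ht.2
      have h2 := H.pinf_hi (tc := tc) hjc.le
      have h3 := H.Qinf_hi hjc.le
      have h4 := cpS_eq H.hh hr
      rw [pinf_eq tc] at h2
      have h5 : cpS h tc ≤ uS p (kinf h tj c0 φ) t := by
        unfold uS
        rw [← h4, ← h2, ← h3]
        linarith
      exact (min_le_right _ _).trans h5
  · intro δ hδ hδle
    have hδc : tj + δ ≤ tc := by
      have : δ₀ ≤ tc - tj := (min_le_left _ _).trans (min_le_left _ _)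
      linarith
    have hδj : δ ≤ tj := hδle.trans ((min_le_left _ _).trans (min_le_right _ _))
    have hδq : E2 * δ ≤ q := by
      have h1 : δ ≤ q / (E2 + 1) := hδle.trans (min_le_right _ _)
      calc E2 * δ ≤ (E2 + 1) * (q / (E2 + 1)) := by
            gcongr
            linarith
        _ = q := by field_simp
    set pn := psm h tj tc c0 δ φ 0 with hpn
    have hpd : |pn - p| ≤ E2 * δ := by
      have h1 := H.p_sub_le hδ hδc hδj le_rfl htc.le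
      rw [← hpn, ← hpdef] at h1
      refine h1.trans (le_of_eq ?_)
      rw [hE2]
      ring
    have hqpn : q ≤ pn := by
      have := (abs_le.1 hpd).1
      rw [hqdef] at *
      linarith
    have hpn0 : 0 < pn := hq.trans_le hqpn
    have hkb := H.kb_kap hδ hδc hδj hM
    have hEE : ∀ x, x ≤ E → 0 ≤ x → x * δ ≤ E * δ := fun x hx _ => by gcongr
    refine ⟨?_, ?_, ?_, ?_, ?_, ?_, ?_⟩
    · refine hkb.pd87 htc.le ((min_le_left _ _).trans hqpn) ?_ hpn0.le ?_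
      · have := H.psm_zero_le hδ hδc hδj
        rw [hC]
        linarith
      · intro t ht
        have h1 := hkb.S_anti ht.1.le ht.2
        have h2 := H.psm_far hδ hδc (le_refl tc)
        have h3 := H.Qi_far hδ hδc (le_refl tc)
        have h4 := cpS_eq H.hh hr
        rw [H.psm_eq hδ tc] at h2
        have h5 : cpS h tc ≤ uS pn (kap h tj tc c0 δ φ) t := by
          unfold uS
          rw [← h4, ← h2, ← h3]
          linarith
        exact (min_le_right _ _).trans h5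
    · refine hpd.trans ?_
      gcongr
      rw [hE]
      linarith
    · intro t ht
      obtain ⟨_, d2⟩ := H.diff_le hδ hδc hδj ht
      unfold uP
      rw [add_sub_cancel_left, add_sub_cancel_left]
      refine d2.trans ?_
      gcongr
      rw [hE]
      linarith
    · intro t ht
      obtain ⟨d1, d2⟩ := H.diff_le hδ hδc hδj ht
      unfold uS
      have e3 : pn + PP (kap h tj tc c0 δ φ) t - t * Qi (kap h tj tc c0 δ φ) t - pn -
          (p + PP (kinf h tj c0 φ) t - t * Qi (kinf h tj c0 φ) t - p) =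
          (PP (kap h tj tc c0 δ φ) t - PP (kinf h tj c0 φ) t) -
          t * (Qi (kap h tj tc c0 δ φ) t - Qi (kinf h tj c0 φ) t) := by ring
      rw [e3]
      refine (abs_sub _ _).trans ?_
      have e4 : E * δ * t ^ 2 = (E2 + 2 * M2) * δ * t ^ 2 + (E1 * δ * t ^ 2 + E1 * δ * t ^ 2) := by
        rw [hE]
        ring
      have e5 : 0 ≤ (E2 + 2 * M2) * δ * t ^ 2 := by positivity
      rw [e4]
      linarith
    · intro t ht
      refine (H.Q_sub_le hδ hδc hδj ht.1.le ht.2).trans ?_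
      gcongr
      rw [hE]
      linarith
    · intro t ht
      rw [H.kap_sub_lo hδ ht.1.le ht.2.le, abs_of_pos (H.gam_pos hδ)]
      refine (H.gam_le' hδ hδc).trans ?_
      gcongr
      have : 0 ≤ 2 * M2 / a := by positivity
      rw [hE, hE1]
      have : 0 ≤ M2 / tj := by positivity
      linarith
    · refine (H.kap_sub_int hδ hδc hδj).trans ?_
      gcongr
      rw [hE]
      linarith

end Pool.Agent.Lib.MP_85963d_gt.H70
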