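import Pool.Agent.Lib.MP_85963d_gt.H70.Fin2
import Pool.Agent.Lib.MP_85963d_gt.H70.Bord3

/-!
# MP_85963d_gt: smoothing, final part 3: the sequence of one body
-/

set_option autoImplicit false

open MeasureTheory Set Filter Topology Real

namespace Pool.Agent.Lib.MP_85963d_gt.H70

open Pool.Agent.MP85963d

variable {h tj tc a b c0 : ℝ} {φ : ℝ → ℝ}

/-- the smoothed profile data with parameter `d` -/
noncomputable def dP (h tj tc c0 : ℝ) (φ : ℝ → ℝ) (d : ℝ) : ℝ → ℝ :=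
  uP (psm h tj tc c0 d φ 0) (kap h tj tc c0 d φ)

noncomputable def dQ (h tj tc c0 : ℝ) (φ : ℝ → ℝ) (d : ℝ) : ℝ → ℝ :=
  Qi (kap h tj tc c0 d φ)

noncomputable def dS (h tj tc c0 : ℝ) (φ : ℝ → ℝ) (d : ℝ) : ℝ → ℝ :=
  uS (psm h tj tc c0 d φ 0) (kap h tj tc c0 d φ)

noncomputable def dK (h tj tc c0 : ℝ) (φ : ℝ → ℝ) (d : ℝ) : ℝ → ℝ := kap h tj tc c0 d φ

/-- the limit data -/
noncomputable def lP (h tj tc c0 : ℝ) (φ : ℝ → ℝ) : ℝ → ℝ :=
  uP (pinf h tj tc c0 φ 0) (kinf h tj c0 φ)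

noncomputable def lS (h tj tc c0 : ℝ) (φ : ℝ → ℝ) : ℝ → ℝ :=
  uS (pinf h tj tc c0 φ 0) (kinf h tj c0 φ)

/-- one body: convergence of the matrix entries -/
theorem body_tendsto (hD : DatTendstoStatement) (H : SmD h tj tc a b c0 φ) {c C E : ℝ}
    (hc : 0 < c) (hC : 0 ≤ C)
    (hl : H87.PD (tc ^ 2) c C (pinf h tj tc c0 φ 0) (lP h tj tc c0 φ)
        (Qi (kinf h tj c0 φ)) (lS h tj tc c0 φ) (kinf h tj c0 φ))
    (d : ℕ → ℝ) (hd : ∀ n, 0 < d n) (hd0 : Tendsto d atTop (𝓝 0))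
    (hpd : ∀ n, H87.PD (tc ^ 2) c C (psm h tj tc c0 (d n) φ 0)
          (dP h tj tc c0 φ (d n)) (dQ h tj tc c0 φ (d n))
          (dS h tj tc c0 φ (d n)) (dK h tj tc c0 φ (d n)))
    (h1 : ∀ n, |psm h tj tc c0 (d n) φ 0 - pinf h tj tc c0 φ 0| ≤ E * d n)
    (h2 : ∀ n, ∀ t ∈ Ioc 0 tc, |(dP h tj tc c0 φ (d n) t - psm h tj tc c0 (d n) φ 0) -
            (lP h tj tc c0 φ t - pinf h tj tc c0 φ 0)| ≤ E * d n * t ^ 2)
    (h3 : ∀ n, ∀ t ∈ Ioc 0 tc, |(dS h tj tc c0 φ (d n) t - psm h tj tc c0 (d n) φ 0) -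
            (lS h tj tc c0 φ t - pinf h tj tc c0 φ 0)| ≤ E * d n * t ^ 2)
    (h4 : ∀ n, ∀ t ∈ Ioc 0 tc, |dQ h tj tc c0 φ (d n) t - Qi (kinf h tj c0 φ) t| ≤ E * d n)
    (h5 : ∀ n, ∀ t ∈ Ioo 0 tj, |dK h tj tc c0 φ (d n) t - kinf h tj c0 φ t| ≤ E * d n)
    (h6 : ∀ n, ∫ t in (0:ℝ)..tc, |dK h tj tc c0 φ (d n) t - kinf h tj c0 φ t| ≤ E * d n)
    {δd α β : ℝ} {G : ℝ → ℝ} (hs : H87.Small (tc ^ 2) c C δd)
    (hG : H87.Dat (tc ^ 2) δd (lP h tj tc c0 φ) (Qi (kinf h tj c0 φ)) (lS h tj tc c0 φ)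
      (kinf h tj c0 φ) α β G) {Gn : ℕ → ℝ → ℝ}
    (hGn : ∀ n, H87.Dat (tc ^ 2) δd (dP h tj tc c0 φ (d n)) (dQ h tj tc c0 φ (d n))
          (dS h tj tc c0 φ (d n)) (dK h tj tc c0 φ (d n)) α β (Gn n)) {j : ℕ} (hj : 1 ≤ j) :
    Tendsto (fun n => NN (1 - h ^ 2) (tc ^ 2) j (DD (om (dP h tj tc c0 φ (d n))
      (dQ h tj tc c0 φ (d n)) (dS h tj tc c0 φ (d n)) (dK h tj tc c0 φ (d n))) (tc ^ 2) (Gn n)))
      atTop (𝓝 (NN (1 - h ^ 2) (tc ^ 2) j (DD (om (lP h tj tc c0 φ) (Qi (kinf h tj c0 φ))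
        (lS h tj tc c0 φ) (kinf h tj c0 φ)) (tc ^ 2) G))) := by
  have htc := H.tc_pos
  have htj := H.tj_pos
  have hb : 0 < tc ^ 2 := by positivity
  have hsq : √(tc ^ 2) = tc := Real.sqrt_sq htc.le
  have hy : 0 < tc ^ 2 + (1 - h ^ 2) := by linarith [H.rad_pos H.hjc.le]
  have hε : Tendsto (fun n => E * d n) atTop (𝓝 0) := by
    simpa using hd0.const_mul E
  obtain ⟨r1, M, hM0, r2⟩ := hD (tc ^ 2) c C δd tj (pinf h tj tc c0 φ 0) α β
    (lP h tj tc c0 φ) (Qi (kinf h tj c0 φ)) (lS h tj tc c0 φ) (kinf h tj c0 φ) G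
    (fun n => psm h tj tc c0 (d n) φ 0) (fun n => dP h tj tc c0 φ (d n))
    (fun n => dQ h tj tc c0 φ (d n)) (fun n => dS h tj tc c0 φ (d n))
    (fun n => dK h tj tc c0 φ (d n)) Gn (fun n => E * d n) hb hc hs htj hl hpd hG hGn hε h1
    (by rw [hsq]; exact h2) (by rw [hsq]; exact h3) (by rw [hsq]; exact h4) h5
    (by rw [hsq]; exact h6)
  have hGn2 : ∀ n, GOK (tc ^ 2) M (Gn n) := by
    intro n
    have h7 := H87.Dat.isSol hb hc hs (hpd n) (hGn n)
    exact ⟨(h7.cont.mono Ioo_subset_Ioc_self).aestronglyMeasurable measurableSet_Ioo,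
      fun X hX => r2 n X ⟨hX.1, hX.2.le⟩⟩
  have hw : ∀ n, WOK (tc ^ 2) (C / c ^ 3) (om (dP h tj tc c0 φ (d n))
      (dQ h tj tc c0 φ (d n)) (dS h tj tc c0 φ (d n)) (dK h tj tc c0 φ (d n))) := fun n =>
    wok_of_pd (hpd n) htc.le hc fun t _ => (H.kap_pos (hd n) t).le
  have hC3 : 0 ≤ C / c ^ 3 := by positivity
  refine NN_tendsto hb hy hC3 hM0 hw hGn2 ?_ ?_ hj
  · refine Eventually.of_forall fun X hX Y hY => ?_
    have ht : √X ∈ Ioc 0 tc := by
      refine ⟨Real.sqrt_pos.2 hX.1, ?_⟩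
      rw [← hsq]
      exact Real.sqrt_le_sqrt hX.2.le
    have hp0 : Tendsto (fun n => psm h tj tc c0 (d n) φ 0) atTop (𝓝 (pinf h tj tc c0 φ 0)) := by
      rw [tendsto_iff_norm_sub_tendsto_zero]
      refine squeeze_zero (fun _ => norm_nonneg _) h1 hε
    have hε2 : Tendsto (fun n => E * d n * √X ^ 2) atTop (𝓝 0) := by
      simpa using hε.mul_const (√X ^ 2)
    have tP : Tendsto (fun n => dP h tj tc c0 φ (d n) (√X)) atTop (𝓝 (lP h tj tc c0 φ (√X))) := by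
      have e : Tendsto (fun n => dP h tj tc c0 φ (d n) (√X) - psm h tj tc c0 (d n) φ 0) atTop
          (𝓝 (lP h tj tc c0 φ (√X) - pinf h tj tc c0 φ 0)) := by
        rw [tendsto_iff_norm_sub_tendsto_zero]
        exact squeeze_zero (fun _ => norm_nonneg _) (fun n => h2 n _ ht) hε2
      simpa using e.add hp0
    have tS : Tendsto (fun n => dS h tj tc c0 φ (d n) (√X)) atTop (𝓝 (lS h tj tc c0 φ (√X))) := by
      have e : Tendsto (fun n => dS h tj tc c0 φ (d n) (√X) - psm h tj tc c0 (d n) φ 0) atTop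
          (𝓝 (lS h tj tc c0 φ (√X) - pinf h tj tc c0 φ 0)) := by
        rw [tendsto_iff_norm_sub_tendsto_zero]
        exact squeeze_zero (fun _ => norm_nonneg _) (fun n => h3 n _ ht) hε2
      simpa using e.add hp0
    have tQ : Tendsto (fun n => dQ h tj tc c0 φ (d n) (√X)) atTop
        (𝓝 (Qi (kinf h tj c0 φ) (√X))) := by
      rw [tendsto_iff_norm_sub_tendsto_zero]
      exact squeeze_zero (fun _ => norm_nonneg _) (fun n => h4 n _ ht) hε
    have tK : Tendsto (fun n => dK h tj tc c0 φ (d n) (√X)) atTop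
        (𝓝 (kinf h tj c0 φ (√X))) := by
      rcases le_or_gt (√X) tj with hle | hgt
      · rcases eq_or_lt_of_le hle with heq | hlt
        · -- at `tj` itself
          rw [tendsto_iff_norm_sub_tendsto_zero]
          have hb2 : Tendsto (fun n => cp2 h tj / tj * d n) atTop (𝓝 0) := by
            simpa using hd0.const_mul (cp2 h tj / tj)
          have hev : ∀ᶠ n in atTop, ‖dK h tj tc c0 φ (d n) (√X) - kinf h tj c0 φ (√X)‖ ≤
              cp2 h tj / tj * d n := by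
            have : ∀ᶠ n in atTop, d n < tc - tj := hd0.eventually (gt_mem_nhds (by
              linarith [H.hjc]))
            filter_upwards [this] with n hn
            unfold dK
            rw [H.kap_sub_lo (hd n) ht.1.le hle, Real.norm_of_nonneg (H.gam_pos (hd n)).le]
            exact H.gam_le' (hd n) (by linarith)
          exact squeeze_zero' (Eventually.of_forall fun _ => norm_nonneg _) hev hb2
        · rw [tendsto_iff_norm_sub_tendsto_zero]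
          exact squeeze_zero (fun _ => norm_nonneg _) (fun n => h5 n _ ⟨ht.1, hlt⟩) hε
      · have hev : ∀ᶠ n in atTop, dK h tj tc c0 φ (d n) (√X) = kinf h tj c0 φ (√X) := by
          have : ∀ᶠ n in atTop, d n < √X - tj := hd0.eventually (gt_mem_nhds (by linarith))
          filter_upwards [this] with n hn
          have := H.kap_sub_hi (hd n) (by linarith : tj + d n ≤ √X)
          unfold dK
          linarith
        exact tendsto_const_nhds.congr' (hev.mono fun n hn => hn.symm)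
    refine tendsto_om tP tQ tS tK ?_ hY.le
    have ht2 : √X ∈ Ioc 0 (√(tc ^ 2)) := by
      rw [hsq]
      exact ht
    exact hc.trans_le (hl.bP _ ht2).1
  · exact Eventually.of_forall fun X hX => r1 X ⟨hX.1, hX.2.le⟩

end Pool.Agent.Lib.MP_85963d_gt.H70
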