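import Pool.Agent.Lib.MP_85963d_gt.H70.Fin3
import Pool.Agent.Lib.MP_85963d_gt.H55.T1Conv
import Pool.Agent.Lib.MP_85963d_gt.H55.Beta
import Pool.Agent.Lib.MP_85963d_gt.H84.Varpi

/-!
# MP_85963d_gt: smoothing, final part 4: `BordInput`
-/

set_option autoImplicit false

open MeasureTheory Set Filter Topology Real

namespace Pool.Agent.Lib.MP_85963d_gt.H70

open Pool.Agent.MP85963d

/-- finite sums of solutions with data -/
lemma Dat.sum {b c C δ p₀ : ℝ} {P Q S K : ℝ → ℝ} (hs : H87.Small b c C δ)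
    (h : H87.PD b c C p₀ P Q S K) {α β : Fin 2 → ℝ} {G : Fin 2 → ℝ → ℝ}
    (d : ∀ k, H87.Dat b δ P Q S K (α k) (β k) (G k)) (x : Fin 2 → ℝ) :
    H87.Dat b δ P Q S K (∑ k, x k * α k) (∑ k, x k * β k) (fun X => ∑ k, x k * G k X) := by
  have := H87.Dat.lin hs h (d 0) (d 1) (x 0) (x 1)
  simpa only [Fin.sum_univ_two] using this

lemma Dat.zero {b c C δ p₀ : ℝ} {P Q S K : ℝ → ℝ} (hs : H87.Small b c C δ)
    (h : H87.PD b c C p₀ P Q S K) {α β : ℝ} {G : ℝ → ℝ}
    (d : H87.Dat b δ P Q S K α β G) : H87.Dat b δ P Q S K 0 0 (fun _ => 0) := by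
  have := H87.Dat.lin hs h d d 0 0
  simpa using this

theorem exists_bordInput (hD : DatTendstoStatement) (hN : NonsmoothStatement) :
    ∃ (h t₁ tc : ℝ) (ψ : Fin 2 → ℝ → ℝ) (G : Fin 2 → Fin 2 → ℝ → ℝ),
      BordInput h t₁ tc ψ G := by
  obtain ⟨h, tj, tc, a, b, c0, φ, G, H, hmom, hp, hsol, hag, hind, hdet⟩ := hN
  have htc := (H 0).tc_pos
  have htj := (H 0).tj_pos
  have hjc := (H 0).hjc
  have ha := (H 0).ha
  have hac : a < tc := (H 0).hab.trans ((H 0).hbj.trans hjc)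
  have hbb : 0 < tc ^ 2 := by positivity
  have hsq : √(tc ^ 2) = tc := Real.sqrt_sq htc.le
  have hy : 0 < tc ^ 2 + (1 - h ^ 2) := by linarith [(H 0).rad_pos hjc.le]
  -- constants
  choose δ₀ c' C' E' hδ₀ hc' hC' hE' e1 e2 hl' hn' using fun i => (H i).est87 (hp i)
  set c := min (c' 0) (c' 1) with hcdef
  set C := max (C' 0) (C' 1) with hCdef
  have hc : 0 < c := lt_min (hc' 0) (hc' 1)
  have hC : 0 ≤ C := (hC' 0).trans (le_max_left _ _)
  have hci : ∀ i, c ≤ c' i := by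
    intro i
    fin_cases i
    · exact min_le_left _ _
    · exact min_le_right _ _
  have hCi : ∀ i, C' i ≤ C := by
    intro i
    fin_cases i
    · exact le_max_left _ _
    · exact le_max_right _ _
  have mono87 : ∀ {b1 c1 C1 p : ℝ} {P Q S K : ℝ → ℝ}, H87.PD b1 c1 C1 p P Q S K → c ≤ c1 →
      C1 ≤ C → H87.PD b1 c C p P Q S K := by
    intro b1 c1 C1 p P Q S K hh h1 h2
    exact ⟨hh.mP, hh.mQ, hh.mS, hh.mK, hh.cP, hh.cS, ⟨h1.trans hh.p0.1, hh.p0.2.trans h2⟩,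
      fun t ht => ⟨h1.trans (hh.bP t ht).1, (hh.bP t ht).2.trans h2⟩,
      fun t ht => ⟨h1.trans (hh.bS t ht).1, (hh.bS t ht).2.trans h2⟩,
      fun t ht => (hh.bQ t ht).trans h2, fun t ht => (hh.bK t ht).trans h2,
      fun t ht => (hh.nP t ht).trans (by gcongr), fun t ht => (hh.nS t ht).trans (by gcongr)⟩
  have hl : ∀ i, H87.PD (tc ^ 2) c C (pinf h tj tc c0 (φ i) 0) (lP h tj tc c0 (φ i))
      (Qi (kinf h tj c0 (φ i))) (lS h tj tc c0 (φ i)) (kinf h tj c0 (φ i)) := fun i =>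
    mono87 (hl' i) (hci i) (hCi i)
  -- the sequence
  set dd : ℝ := min (δ₀ 0) (δ₀ 1) with hdd
  have hdd0 : 0 < dd := lt_min (hδ₀ 0) (hδ₀ 1)
  have hddi : ∀ i, dd ≤ δ₀ i := by
    intro i
    fin_cases i
    · exact min_le_left _ _
    · exact min_le_right _ _
  set d : ℕ → ℝ := fun n => dd / (n + 1) with hd
  have hd1 : ∀ n, 0 < d n := fun n => by
    rw [hd]
    positivity
  have hd2 : ∀ n, d n ≤ dd := fun n => by
    rw [hd]
    apply div_le_self hdd0.le
    have : (0:ℝ) ≤ n := Nat.cast_nonneg n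
    linarith
  have hd3 : Tendsto d atTop (𝓝 0) := by
    rw [hd]
    have := (tendsto_const_div_atTop_nhds_zero_nat dd).comp (tendsto_add_atTop_nat 1)
    refine this.congr fun n => ?_
    simp
  have hpd : ∀ i n, H87.PD (tc ^ 2) c C (psm h tj tc c0 (d n) (φ i) 0)
      (dP h tj tc c0 (φ i) (d n)) (dQ h tj tc c0 (φ i) (d n))
      (dS h tj tc c0 (φ i) (d n)) (dK h tj tc c0 (φ i) (d n)) := fun i n =>
    mono87 (hn' i (d n) (hd1 n) ((hd2 n).trans (hddi i))).1 (hci i) (hCi i)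
  -- the parameter of the data
  set t₁ : ℝ := a / 2 with ht₁
  have ht1 : 0 < t₁ := by positivity
  have ht1a : t₁ < a := by rw [ht₁]; linarith
  have hb1 : 0 < t₁ ^ 2 := by positivity
  have hb1a : t₁ ^ 2 < a ^ 2 := by gcongr
  have hb1c : t₁ ^ 2 ≤ tc ^ 2 := by
    have : t₁ ≤ tc := (ht1a.trans hac).le
    gcongr
  have hac2 : a ^ 2 ≤ tc ^ 2 := by gcongr
  obtain ⟨δa, hsa, hδa⟩ := H87.exists_small hbb hc C (x := t₁ ^ 2 / 2) (by positivity)
    (by linarith)
  obtain ⟨δb, hsb, hδb⟩ := H87.exists_small hb1 hc C (x := t₁ ^ 2 / 2) (by positivity)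
    (by linarith)
  set δd := min δa δb with hδd
  have hδd0 : 0 < δd := lt_min hsa.1 hsb.1
  have hs : H87.Small (tc ^ 2) c C δd := Small.le hsa hδd0 (min_le_left _ _)
  have hs1 : H87.Small (t₁ ^ 2) c C δd := Small.le hsb hδd0 (min_le_right _ _)
  have hδt : δd < t₁ ^ 2 := by
    have : δd ≤ t₁ ^ 2 / 2 := (min_le_left _ _).trans hδa
    linarith
  have hδa2 : δd < a ^ 2 := hδt.trans hb1a
  -- data of the limit solutions
  have hsol2 : ∀ i k, IsSol (om (lP h tj tc c0 (φ i)) (Qi (kinf h tj c0 (φ i)))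
      (lS h tj tc c0 (φ i)) (kinf h tj c0 (φ i))) (tc ^ 2) (G i k) := by
    intro i k
    have hpi : 0 < pinf h tj tc c0 (φ i) 0 := hp i
    have h1 := hsol i k
    rw [winf_eq' hpi] at h1
    have hne : pinf h tj tc c0 (φ i) 0 ^ 2 ≠ 0 := by positivity
    refine ⟨h1.cont, ?_, ?_⟩
    · -- the bound through the Volterra form
      have h3 : ∀ᵐ s ∂(volume.restrict (Ioo (0 : ℝ) (tc ^ 2))), H87.TG (H87.HK
          (om (lP h tj tc c0 (φ i)) (Qi (kinf h tj c0 (φ i)))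
          (lS h tj tc c0 (φ i)) (kinf h tj c0 (φ i)))) (G i k) s = 0 := by
        filter_upwards [h1.eq] with s hs'
        have e : H87.TG (H87.HK (fun X Y => pinf h tj tc c0 (φ i) 0 ^ 2 *
            om (uP (pinf h tj tc c0 (φ i) 0) (kinf h tj c0 (φ i))) (Qi (kinf h tj c0 (φ i)))
            (uS (pinf h tj tc c0 (φ i) 0) (kinf h tj c0 (φ i))) (kinf h tj c0 (φ i)) X Y))
            (G i k) s = pinf h tj tc c0 (φ i) 0 ^ 2 * H87.TG (H87.HK
            (om (lP h tj tc c0 (φ i)) (Qi (kinf h tj c0 (φ i)))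
            (lS h tj tc c0 (φ i)) (kinf h tj c0 (φ i)))) (G i k) s := by
          unfold H87.TG H87.HK lP lS
          rw [← integral_const_mul]
          apply setIntegral_congr_fun measurableSet_Ioo
          intro X _
          simp only
          ring
        rw [e] at hs'
        exact (mul_eq_zero.1 hs').resolve_left hne
      obtain ⟨A, cc, hcc, hw⟩ := H87.wt_unif (tc ^ 2) hbb (c := c / C) (by
        have := (hl i).C_pos hc
        positivity) (C / c)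
      have hwt := hw _ _ _ _ ((hl i).norm hc)
      have h4 : H87.SolW (tc ^ 2) (om (H87.nm (pinf h tj tc c0 (φ i) 0) (lP h tj tc c0 (φ i)))
          (H87.nm (pinf h tj tc c0 (φ i) 0) (Qi (kinf h tj c0 (φ i))))
          (H87.nm (pinf h tj tc c0 (φ i) 0) (lS h tj tc c0 (φ i)))
          (H87.nm (pinf h tj tc c0 (φ i) 0) (kinf h tj c0 (φ i)))) (G i k) := by
        rw [H87.om_norm hpi]
        exact h1
      exact (H87.SolW.isSol hwt hbb hcc h4).bd
    · have h2 := H87.eq_iff.2 h1.eq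
      filter_upwards [h2] with s hs' hsb'
      have := hs' hsb'
      rw [H87.TX_smul] at this
      exact (mul_eq_zero.1 this).resolve_left hne
  choose α β hdat using fun k => H87.Dat.of_isSol hbb hc hs (hl 0) (hsol2 0 k)
  have hp01 : pinf h tj tc c0 (φ 1) 0 = pinf h tj tc c0 (φ 0) 0 :=
    (pinf_zero_eq (H 0) (H 1) hmom).symm
  -- local equality of the limit data
  have loc_l : ∀ t ∈ Ioo 0 (√(a ^ 2)), lP h tj tc c0 (φ 1) t = lP h tj tc c0 (φ 0) t ∧
      Qi (kinf h tj c0 (φ 1)) t = Qi (kinf h tj c0 (φ 0)) t ∧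
      lS h tj tc c0 (φ 1) t = lS h tj tc c0 (φ 0) t ∧
      kinf h tj c0 (φ 1) t = kinf h tj c0 (φ 0) t := by
    rw [Real.sqrt_sq ha.le]
    intro t ht
    have q1 : ∀ i, Qi (kinf h tj c0 (φ i)) t = 0 := fun i => (H i).Qinf_near ht.1.le ht.2
    have q2 : ∀ i, PP (kinf h tj c0 (φ i)) t = 0 := by
      intro i
      have h1 := (H i).pinf_near (tc := tc) ht.1.le ht.2
      rw [SmD.pinf_eq t] at h1
      linarith
    have q3 : ∀ i, kinf h tj c0 (φ i) t = 0 := by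
      intro i
      rw [kinf, if_pos (ht.2.le.trans ((H i).hab.trans (H i).hbj).le),
        (H i).sp t (fun h1 => absurd h1.1 (not_le.2 ht.2)), mul_zero]
    refine ⟨?_, ?_, ?_, ?_⟩
    · simp only [lP, uP, q2, hp01]
    · rw [q1, q1]
    · simp only [lS, uS, q2, q1, hp01]
    · rw [q3, q3]
  have hdat2 : ∀ i k, H87.Dat (tc ^ 2) δd (lP h tj tc c0 (φ i)) (Qi (kinf h tj c0 (φ i)))
      (lS h tj tc c0 (φ i)) (kinf h tj c0 (φ i)) (α k) (β k) (G i k) := by
    intro i k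
    fin_cases i
    · exact hdat k
    · obtain ⟨α', β', h1⟩ := H87.Dat.of_isSol hbb hc hs (hl 1) (hsol2 1 k)
      have h2 := H87.Dat.inj hs (hl 0) (hl 1) hδa2 hac2 loc_l (hdat k) h1
        (fun X hX => (hag k X hX).symm)
      rw [h2.1, h2.2] at h1
      exact h1
  -- the smoothed solutions
  choose Gn hGn using fun (i k : Fin 2) (n : ℕ) =>
    H87.Dat.exists' (δ := δd) hs (hpd i n) (α k) (β k)
  -- convergence of the determinants
  have hconv : ∀ (i k : Fin 2) (j : ℕ), 1 ≤ j → Tendsto (fun n => NN (1 - h ^ 2) (tc ^ 2) j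
      (DD (om (dP h tj tc c0 (φ i) (d n)) (dQ h tj tc c0 (φ i) (d n))
        (dS h tj tc c0 (φ i) (d n)) (dK h tj tc c0 (φ i) (d n))) (tc ^ 2) (Gn i k n)))
      atTop (𝓝 (NN (1 - h ^ 2) (tc ^ 2) j (DD (om (lP h tj tc c0 (φ i))
        (Qi (kinf h tj c0 (φ i))) (lS h tj tc c0 (φ i)) (kinf h tj c0 (φ i))) (tc ^ 2)
        (G i k)))) := by
    intro i k j hj
    have hh := fun n => hn' i (d n) (hd1 n) ((hd2 n).trans (hddi i))
    exact body_tendsto hD (H i) hc hC (hl i) d hd1 hd3 (hpd i) (fun n => (hh n).2.1)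
      (fun n => (hh n).2.2.1) (fun n => (hh n).2.2.2.1) (fun n => (hh n).2.2.2.2.1)
      (fun n => (hh n).2.2.2.2.2.1) (fun n => (hh n).2.2.2.2.2.2) hs (hdat2 i k)
      (fun n => hGn i k n) hj
  have hdetc : ∀ i, Tendsto (fun n => (Nw h tc (om (dP h tj tc c0 (φ i) (d n))
      (dQ h tj tc c0 (φ i) (d n)) (dS h tj tc c0 (φ i) (d n)) (dK h tj tc c0 (φ i) (d n)))
      (fun k => Gn i k n)).det) atTop (𝓝 (Nw h tc (om (lP h tj tc c0 (φ i))
        (Qi (kinf h tj c0 (φ i))) (lS h tj tc c0 (φ i)) (kinf h tj c0 (φ i)))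
        (G i)).det) := by
    intro i
    simp only [Matrix.det_fin_two, Nw, Matrix.of_apply]
    exact ((hconv i 0 _ (by omega)).mul (hconv i 1 _ (by omega))).sub
      ((hconv i 1 _ (by omega)).mul (hconv i 0 _ (by omega)))
  have hlim : (Nw h tc (om (lP h tj tc c0 (φ 0)) (Qi (kinf h tj c0 (φ 0)))
      (lS h tj tc c0 (φ 0)) (kinf h tj c0 (φ 0))) (G 0)).det *
      (Nw h tc (om (lP h tj tc c0 (φ 1)) (Qi (kinf h tj c0 (φ 1)))
      (lS h tj tc c0 (φ 1)) (kinf h tj c0 (φ 1))) (G 1)).det < 0 := by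
    rw [winf_eq' (hp 0), winf_eq' (hp 1), Nw_smul, Nw_smul] at hdet
    by_contra hge
    have h1 := le_of_not_gt hge
    have k0 := hp 0
    have k1 := hp 1
    have : 0 ≤ (pinf h tj tc c0 (φ 0) 0 ^ 2) ^ 2 * (pinf h tj tc c0 (φ 1) 0 ^ 2) ^ 2 *
        ((Nw h tc (om (lP h tj tc c0 (φ 0)) (Qi (kinf h tj c0 (φ 0)))
      (lS h tj tc c0 (φ 0)) (kinf h tj c0 (φ 0))) (G 0)).det *
      (Nw h tc (om (lP h tj tc c0 (φ 1)) (Qi (kinf h tj c0 (φ 1)))
      (lS h tj tc c0 (φ 1)) (kinf h tj c0 (φ 1))) (G 1)).det) := by positivity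
    unfold lP lS at this
    linarith
  have hev := ((hdetc 0).mul (hdetc 1)).eventually (gt_mem_nhds hlim)
  obtain ⟨n, hn⟩ := hev.exists
  -- local equality of the smoothed data
  have hq01 : psm h tj tc c0 (d n) (φ 1) 0 = psm h tj tc c0 (d n) (φ 0) 0 :=
    (psm_zero_eq (H 0) (H 1) hmom (hd1 n)).symm
  have loc_n : ∀ t ∈ Ioo 0 (√(a ^ 2)),
      dP h tj tc c0 (φ 1) (d n) t = dP h tj tc c0 (φ 0) (d n) t ∧
      dQ h tj tc c0 (φ 1) (d n) t = dQ h tj tc c0 (φ 0) (d n) t ∧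
      dS h tj tc c0 (φ 1) (d n) t = dS h tj tc c0 (φ 0) (d n) t ∧
      dK h tj tc c0 (φ 1) (d n) t = dK h tj tc c0 (φ 0) (d n) t := by
    rw [Real.sqrt_sq ha.le]
    intro t ht
    have q1 : ∀ i, Qi (kap h tj tc c0 (d n) (φ i)) t = gam h tj tc (d n) * t := fun i =>
      (H i).Q_near (hd1 n) ht.1.le ht.2
    have q2 : ∀ i, PP (kap h tj tc c0 (d n) (φ i)) t = gam h tj tc (d n) * t ^ 2 / 2 := by
      intro i
      have h1 := (H i).psm_near (hd1 n) ht.1.le ht.2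
      rw [(H i).psm_eq (hd1 n) t] at h1
      linarith
    have q3 : ∀ i, kap h tj tc c0 (d n) (φ i) t = gam h tj tc (d n) := fun i =>
      (H i).kap_near (hd1 n) ht.1.le ht.2
    refine ⟨?_, ?_, ?_, ?_⟩
    · simp only [dP, uP, q2, hq01]
    · simp only [dQ, q1]
    · simp only [dS, uS, q2, q1, hq01]
    · simp only [dK, q3]
  have hdc : tj + d n ≤ tc := by
    have := (hd2 n).trans (hddi 0)
    have := e1 0
    linarith
  -- solutions
  have hsoln : ∀ i k, IsSol (omψ (psm h tj tc c0 (d n) (φ i))) (tc ^ 2) (Gn i k n) := by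
    intro i k
    rw [(H i).omψ_psm (hd1 n)]
    exact H87.Dat.isSol hbb hc hs (hpd i n) (hGn i k n)
  have hpd1 : H87.PD (t₁ ^ 2) c C (psm h tj tc c0 (d n) (φ 0) 0)
      (dP h tj tc c0 (φ 0) (d n)) (dQ h tj tc c0 (φ 0) (d n))
      (dS h tj tc c0 (φ 0) (d n)) (dK h tj tc c0 (φ 0) (d n)) := (hpd 0 n).mono hb1c
  have hdat1 : ∀ k, H87.Dat (t₁ ^ 2) δd (dP h tj tc c0 (φ 0) (d n)) (dQ h tj tc c0 (φ 0) (d n))
      (dS h tj tc c0 (φ 0) (d n)) (dK h tj tc c0 (φ 0) (d n)) (α k) (β k) (Gn 0 k n) := fun k =>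
    Dat.mono (hGn 0 k n) hb1c
  -- injectivity of the data
  have hinj : ∀ x : Fin 2 → ℝ, ∑ k, x k * α k = 0 → ∑ k, x k * β k = 0 → x = 0 := by
    intro x hx1 hx2
    have h1 := Dat.sum hs (hl 0) hdat x
    rw [hx1, hx2] at h1
    have h2 := Dat.zero hs (hl 0) (hdat 0)
    have h3 := H87.Dat.unique hs (hl 0) h2 h1
    apply hind (tc ^ 2) hbb x
    intro X hX
    exact h3 X ⟨hX.1, hX.2.le⟩
  refine ⟨h, t₁, tc, fun i => psm h tj tc c0 (d n) (φ i), fun i k => Gn i k n, ?_⟩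
  refine ⟨ht1, ht1a.trans hac, fun i => (H i).isProf (hd1 n) hdc, ?_, hsoln, ?_, ?_, ?_, ?_⟩
  · -- same
    have key : ∀ t, 0 ≤ t → t ≤ t₁ → psm h tj tc c0 (d n) (φ 0) t =
        psm h tj tc c0 (d n) (φ 1) t := by
      intro t ht0 ht
      have hta : t < a := lt_of_le_of_lt ht ht1a
      rw [(H 0).psm_near (hd1 n) ht0 hta, (H 1).psm_near (hd1 n) ht0 hta, hq01]
    intro t ht
    have := key |t| (abs_nonneg t) ht
    rcases abs_choice t with h1 | h1
    · rwa [h1] at this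
    · rwa [h1, (H 0).psm_even, (H 1).psm_even] at this
  · -- agree
    intro k X hX
    have := H87.Dat.local hs (hpd 0 n) (hpd 1 n) hδa2 hac2 loc_n (hGn 0 k n) (hGn 1 k n) X
      ⟨hX.1, hX.2.trans hb1a⟩
    exact this.symm
  · -- independence
    intro x hx
    have h1 := Dat.sum hs (hpd 0 n) (fun k => hGn 0 k n) x
    have h2 := Dat.zero hs (hpd 0 n) (hGn 0 0 n)
    have h3 := H87.Dat.inj hs (hpd 0 n) (hpd 0 n) hδt hb1c (fun t _ => ⟨rfl, rfl, rfl, rfl⟩) h2 h1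
      (fun X hX => hx X hX)
    exact hinj x h3.1 h3.2
  · -- span
    intro F hF
    have hF2 : IsSol (om (dP h tj tc c0 (φ 0) (d n)) (dQ h tj tc c0 (φ 0) (d n))
      (dS h tj tc c0 (φ 0) (d n)) (dK h tj tc c0 (φ 0) (d n))) (t₁ ^ 2) F := by
      have := (H 0).omψ_psm (hd1 n)
      rw [this] at hF
      exact hF
    obtain ⟨α', β', hF3⟩ := H87.Dat.of_isSol hb1 hc hs1 hpd1 hF2
    set D : Matrix (Fin 2) (Fin 2) ℝ := !![α 0, α 1; β 0, β 1] with hDdef
    have hDdet : D.det ≠ 0 := by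
      intro h0
      obtain ⟨v, hv, hv0⟩ := Matrix.exists_mulVec_eq_zero_iff.2 h0
      apply hv
      apply hinj v
      · have := congrFun hv0 0
        simp [hDdef, Matrix.mulVec, dotProduct, Fin.sum_univ_two] at this
        rw [Fin.sum_univ_two]
        linarith
      · have := congrFun hv0 1
        simp [hDdef, Matrix.mulVec, dotProduct, Fin.sum_univ_two] at this
        rw [Fin.sum_univ_two]
        linarith
    set x : Fin 2 → ℝ := D⁻¹.mulVec ![α', β'] with hx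
    have hDx : D.mulVec x = ![α', β'] := by
      rw [hx, Matrix.mulVec_mulVec, Matrix.mul_nonsing_inv _ (isUnit_iff_ne_zero.2 hDdet),
        Matrix.one_mulVec]
    have hxa : ∑ k, x k * α k = α' := by
      have := congrFun hDx 0
      simp [hDdef, Matrix.mulVec, dotProduct, Fin.sum_univ_two] at this
      rw [Fin.sum_univ_two, ← this]
      ring
    have hxb : ∑ k, x k * β k = β' := by
      have := congrFun hDx 1
      simp [hDdef, Matrix.mulVec, dotProduct, Fin.sum_univ_two] at this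
      rw [Fin.sum_univ_two, ← this]
      ring
    have h1 := Dat.sum hs1 hpd1 hdat1 x
    rw [hxa, hxb] at h1
    have h2 := H87.Dat.unique hs1 hpd1 h1 hF3
    exact ⟨x, fun X hX => h2 X ⟨hX.1, hX.2.le⟩⟩
  · -- determinant
    have e : ∀ i, Nm h tc (psm h tj tc c0 (d n) (φ i)) (fun k => Gn i k n) =
        Nw h tc (om (dP h tj tc c0 (φ i) (d n))
      (dQ h tj tc c0 (φ i) (d n)) (dS h tj tc c0 (φ i) (d n)) (dK h tj tc c0 (φ i) (d n)))
      (fun k => Gn i k n) := by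
      intro i
      unfold Nm Nw
      rw [(H i).omψ_psm (hd1 n)]
      rfl
    rw [e 0, e 1]
    exact hn

/-- SIGN1D -/
theorem sign1d_of (hD : DatTendstoStatement) (hN : NonsmoothStatement) (hV : VanStatement) :
    Sign1DStatement := by
  obtain ⟨h, t₁, tc, ψ, G, H⟩ := exists_bordInput hD hN
  exact sign1d_of_bord H55.t1conv_holds H55.beta_holds H84.varpi_holds hV H

end Pool.Agent.Lib.MP_85963d_gt.H70
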