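import Pool.Agent.Lib.MP_85963d_gt.H70.Bord2
import Pool.Agent.Lib.MP_85963d_gt.H70.Forms3
import Pool.Agent.Lib.MP_85963d_gt.H87.AB4

/-!
# MP_85963d_gt: normalised profile data and the class `WT` (statements)
-/

set_option autoImplicit false

open MeasureTheory Set Filter Topology Real

namespace Pool.Agent.Lib.MP_85963d_gt.H70

open Pool.Agent.MP85963d

/-- the derivative of the weight with respect to `Y` -/
noncomputable def om' (P Q S K : ℝ → ℝ) (X Y : ℝ) : ℝ :=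
  omn' (P (√X)) (Q (√X)) (S (√X)) (K (√X)) Y

lemma om_eq_omn (P Q S K : ℝ → ℝ) (X Y : ℝ) :
    om P Q S K X Y = omn (P (√X)) (Q (√X)) (S (√X)) (K (√X)) Y := rfl

/-- normalised (`P(0) = 1`) profile data on `(0,T]` (smooth or not) -/
structure PD (T c C : ℝ) (P Q S K : ℝ → ℝ) : Prop where
  mP : Measurable P
  mQ : Measurable Q
  mS : Measurable S
  mK : Measurable K
  cP : ContinuousOn P (Ioc 0 T)
  cS : ContinuousOn S (Ioc 0 T)
  bP : ∀ t ∈ Ioc 0 T, c ≤ P t ∧ P t ≤ C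
  bS : ∀ t ∈ Ioc 0 T, c ≤ S t ∧ S t ≤ C
  bQ : ∀ t ∈ Ioc 0 T, |Q t| ≤ C
  bK : ∀ t ∈ Ioc 0 T, |K t| ≤ C
  nP : ∀ t ∈ Ioc 0 T, |P t - 1| ≤ C * t ^ 2
  nS : ∀ t ∈ Ioc 0 T, |S t - 1| ≤ C * t ^ 2

/-- PDWT: profile data give weights of the class `WT`, with uniform constants -/
def PdWtStatement : Prop :=
  ∀ T c C : ℝ, 0 < T → 0 < c → 0 ≤ C → ∃ A c' : ℝ, 0 < c' ∧ ∀ P Q S K : ℝ → ℝ,
    PD T c C P Q S K → H87.WT (T ^ 2) A c' (om P Q S K) (om' P Q S K)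

/-- SOLIFF: the two forms of solutions -/
def SolIffStatement : Prop :=
  ∀ (T c C : ℝ) (P Q S K G : ℝ → ℝ), 0 < T → 0 < c → 0 ≤ C → PD T c C P Q S K →
    (IsSol (om P Q S K) (T ^ 2) G ↔ H87.SolW (T ^ 2) (om P Q S K) G)

/-- PROFPD: smooth profiles, divided by `ψ 0`, are profile data on every interval, and the
division does not change the solutions -/
def ProfPdStatement : Prop :=
  ∀ (h tc : ℝ) (ψ : ℝ → ℝ), IsProf h tc ψ → ∀ T : ℝ, 0 < T → 0 < ψ 0 ∧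
    (∃ c C : ℝ, 0 < c ∧ 0 ≤ C ∧ PD T c C (fun t => ψ t / ψ 0) (fun t => deriv ψ t / ψ 0)
      (fun t => Sf ψ t / ψ 0) (fun t => deriv (deriv ψ) t / ψ 0)) ∧
    ∀ G : ℝ → ℝ, IsSol (omψ ψ) (T ^ 2) G ↔
      IsSol (om (fun t => ψ t / ψ 0) (fun t => deriv ψ t / ψ 0)
        (fun t => Sf ψ t / ψ 0) (fun t => deriv (deriv ψ) t / ψ 0)) (T ^ 2) G

end Pool.Agent.Lib.MP_85963d_gt.H70
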