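import Pool.Agent.Lib.MP_85963d_gt.H70.Forms

/-!
# MP_85963d_gt: facts on smooth profiles (`IsProf`) and Cormack's relations for them
-/

set_option autoImplicit false

open MeasureTheory Set Filter Topology Real
open scoped ContDiff

namespace Pool.Agent.Lib.MP_85963d_gt.H70

open Pool.Agent.MP85963d

variable {h tc : ℝ} {ψ : ℝ → ℝ}

lemma psiCap_eq (h t : ℝ) : psiCap h t = cp h t := rfl

lemma prof_d1 (H : IsProf h tc ψ) : ContDiff ℝ ∞ (deriv ψ) :=
  (contDiff_infty_iff_deriv.1 H.smooth).2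

lemma prof_d2 (H : IsProf h tc ψ) : ContDiff ℝ ∞ (deriv (deriv ψ)) :=
  (contDiff_infty_iff_deriv.1 (prof_d1 H)).2

lemma prof_hasDerivAt (H : IsProf h tc ψ) (t : ℝ) : HasDerivAt ψ (deriv ψ t) t :=
  ((contDiff_infty_iff_deriv.1 H.smooth).1 t).hasDerivAt

lemma prof_hasDerivAt2 (H : IsProf h tc ψ) (t : ℝ) : HasDerivAt (deriv ψ) (deriv (deriv ψ) t) t :=
  ((contDiff_infty_iff_deriv.1 (prof_d1 H)).1 t).hasDerivAt

lemma prof_S_cont (H : IsProf h tc ψ) : Continuous (Sf ψ) := by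
  unfold Sf
  exact H.smooth.continuous.sub (continuous_id.mul (prof_d1 H).continuous)

lemma prof_d1_nonneg (H : IsProf h tc ψ) {t : ℝ} (ht : 0 ≤ t) : 0 ≤ deriv ψ t := by
  have h0 : deriv ψ 0 = 0 := by
    have h1 : HasDerivAt (fun t => ψ (-t)) (-deriv ψ 0) 0 := by
      have := (prof_hasDerivAt H (-0)).comp 0 (hasDerivAt_neg (0:ℝ))
      simp only [neg_zero, mul_neg, mul_one] at this
      exact this
    have h2 : (fun t => ψ (-t)) = ψ := by
      ext t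
      exact H.even t
    rw [h2] at h1
    have := h1.unique (prof_hasDerivAt H 0)
    linarith
  have hm : StrictMono (deriv ψ) := strictMono_of_deriv_pos H.conv
  rw [← h0]
  exact hm.monotone ht

lemma prof_pos (H : IsProf h tc ψ) {t : ℝ} (ht : 0 ≤ t) : 0 < ψ t := by
  have h1 := H.S_pos t
  have h2 := prof_d1_nonneg H ht
  unfold Sf at h1
  have : 0 ≤ t * deriv ψ t := mul_nonneg ht h2
  linarith

lemma prof_rad (H : IsProf h tc ψ) {t : ℝ} (ht : tc ≤ t) : 0 < t ^ 2 - h ^ 2 + 1 := by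
  have := H.tc_lt
  have := H.tc_pos
  nlinarith

lemma prof_cap1 (H : IsProf h tc ψ) {t : ℝ} (ht : tc < t) : deriv ψ t = cp1 h t := by
  have h1 : ψ =ᶠ[𝓝 t] cp h := by
    filter_upwards [Ioi_mem_nhds ht] with s hs
    exact H.cap s (le_of_lt hs)
  rw [h1.deriv_eq]
  exact (cp_hasDerivAt H.one_lt (prof_rad H ht.le)).deriv

lemma prof_cap2 (H : IsProf h tc ψ) {t : ℝ} (ht : tc < t) : deriv (deriv ψ) t = cp2 h t := by
  have h1 : deriv ψ =ᶠ[𝓝 t] cp1 h := by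
    filter_upwards [Ioi_mem_nhds ht] with s hs
    exact prof_cap1 H hs
  rw [h1.deriv_eq]
  exact (cp1_hasDerivAt H.one_lt (prof_rad H ht.le)).deriv

lemma prof_capS (H : IsProf h tc ψ) {t : ℝ} (ht : tc < t) : Sf ψ t = cpS h t := by
  unfold Sf
  rw [prof_cap1 H ht, H.cap t ht.le]
  exact cpS_eq H.one_lt (prof_rad H ht.le)

/-- the product form of the weight on the cap -/
lemma prof_om (H : IsProf h tc ψ) {X Y : ℝ} (hX : tc ^ 2 < X) (hY : 0 < Y) :
    omψ ψ X Y = 1 / cp h (√X) ^ 3 / √(X + Y + (1 - h ^ 2)) := by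
  have hX0 : 0 < X := lt_of_le_of_lt (sq_nonneg tc) hX
  have ht : tc < √X := (Real.lt_sqrt H.tc_pos.le).2 hX
  have ht0 : 0 < √X := Real.sqrt_pos.2 hX0
  unfold omψ om
  rw [prof_cap1 H ht, prof_cap2 H ht, prof_capS H ht, H.cap _ ht.le, psiCap_eq,
    cap_weight H.one_lt ht0 (prof_rad H ht.le) hY, Real.sq_sqrt hX0.le]
  congr 2
  ring

lemma measurable_omψ (H : IsProf h tc ψ) : Measurable (Function.uncurry (omψ ψ)) := by
  have h1 := H.smooth.continuous.measurable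
  have h2 := (prof_d1 H).continuous.measurable
  have h3 := (prof_d2 H).continuous.measurable
  have h4 := (prof_S_cont H).measurable
  unfold omψ om Function.uncurry
  fun_prop

/-- general bound of the weight -/
lemma om_le {P Q S K c C Y : ℝ} (hc : 0 < c) (hP : c ≤ P) (hS : c ≤ S) (hSC : S ≤ C)
    (hK : 0 ≤ K) (hKC : K ≤ C) (hY : 0 < Y) :
    |(S + Y * K) / √(P ^ 2 + Y * (Q ^ 2 + S ^ 2)) ^ 3| ≤ C / c ^ 3 / √(1 + Y) := by
  have h1Y : 0 < 1 + Y := by linarith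
  have hs : 0 < √(1 + Y) := Real.sqrt_pos.2 h1Y
  have hs2 : √(1 + Y) ^ 2 = 1 + Y := Real.sq_sqrt h1Y.le
  have h1 : c * √(1 + Y) ≤ √(P ^ 2 + Y * (Q ^ 2 + S ^ 2)) := by
    have : c * √(1 + Y) = √(c ^ 2 * (1 + Y)) := by
      rw [Real.sqrt_mul (by positivity), Real.sqrt_sq hc.le]
    rw [this]
    apply Real.sqrt_le_sqrt
    have e1 : c ^ 2 ≤ P ^ 2 := by gcongr
    have e2 : c ^ 2 ≤ S ^ 2 := by gcongr
    have e3 : Y * c ^ 2 ≤ Y * (Q ^ 2 + S ^ 2) := by
      gcongr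
      nlinarith [sq_nonneg Q]
    nlinarith
  have hN : 0 ≤ S + Y * K := by
    have : 0 < S := hc.trans_le hS
    positivity
  have hN2 : S + Y * K ≤ C * (1 + Y) := by nlinarith
  have hC : 0 ≤ C := hK.trans hKC
  have hr : 0 < √(P ^ 2 + Y * (Q ^ 2 + S ^ 2)) := lt_of_lt_of_le (by positivity) h1
  rw [abs_of_nonneg (by positivity)]
  calc (S + Y * K) / √(P ^ 2 + Y * (Q ^ 2 + S ^ 2)) ^ 3
      ≤ (C * (1 + Y)) / (c * √(1 + Y)) ^ 3 := by gcongr
    _ = (C * √(1 + Y) ^ 2) / (c * √(1 + Y)) ^ 3 := by rw [hs2]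
    _ = C / c ^ 3 / √(1 + Y) := by
      field_simp

/-- bounds of a profile on a compact interval -/
lemma prof_bounds (H : IsProf h tc ψ) (T : ℝ) : ∃ c C : ℝ, 0 < c ∧ 0 ≤ C ∧ ∀ t ∈ Icc 0 T,
    c ≤ ψ t ∧ c ≤ Sf ψ t ∧ ψ t ≤ C ∧ Sf ψ t ≤ C ∧ 0 ≤ deriv ψ t ∧ deriv ψ t ≤ C ∧
      0 ≤ deriv (deriv ψ) t ∧ deriv (deriv ψ) t ≤ C := by
  rcases lt_or_ge T 0 with hT | hT
  · refine ⟨1, 1, one_pos, zero_le_one, fun t ht => ?_⟩
    exact absurd (ht.1.trans ht.2) (not_le.2 hT)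
  have hne : (Icc 0 T).Nonempty := ⟨0, le_rfl, hT⟩
  obtain ⟨t1, ht1, hm1⟩ := isCompact_Icc.exists_isMinOn hne H.smooth.continuous.continuousOn
  obtain ⟨t2, ht2, hm2⟩ := isCompact_Icc.exists_isMinOn hne (prof_S_cont H).continuousOn
  obtain ⟨t3, ht3, hm3⟩ := isCompact_Icc.exists_isMaxOn hne H.smooth.continuous.continuousOn
  obtain ⟨t4, ht4, hm4⟩ := isCompact_Icc.exists_isMaxOn hne (prof_S_cont H).continuousOn
  obtain ⟨t5, ht5, hm5⟩ := isCompact_Icc.exists_isMaxOn hne (prof_d1 H).continuous.continuousOn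
  obtain ⟨t6, ht6, hm6⟩ := isCompact_Icc.exists_isMaxOn hne (prof_d2 H).continuous.continuousOn
  refine ⟨min (ψ t1) (Sf ψ t2), max (max (ψ t3) (Sf ψ t4)) (max (deriv ψ t5)
    (deriv (deriv ψ) t6)), lt_min (prof_pos H ht1.1) (H.S_pos t2), ?_, ?_⟩
  · exact (prof_pos H ht3.1).le.trans ((le_max_left _ _).trans (le_max_left _ _))
  · intro t ht
    refine ⟨(min_le_left _ _).trans (hm1 ht), (min_le_right _ _).trans (hm2 ht), ?_, ?_,
      prof_d1_nonneg H ht.1, ?_, (H.conv t).le, ?_⟩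
    · exact (hm3 ht).trans ((le_max_left _ _).trans (le_max_left _ _))
    · exact (hm4 ht).trans ((le_max_right _ _).trans (le_max_left _ _))
    · exact (hm5 ht).trans ((le_max_left _ _).trans (le_max_right _ _))
    · exact (hm6 ht).trans ((le_max_right _ _).trans (le_max_right _ _))

lemma prof_WOK (H : IsProf h tc ψ) (B : ℝ) : ∃ C, 0 ≤ C ∧ WOK B C (omψ ψ) := by
  obtain ⟨c, C, hc, hC, hb⟩ := prof_bounds H (√B)
  refine ⟨C / c ^ 3, by positivity, measurable_omψ H, fun X hX Y hY => ?_⟩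
  have ht : √X ∈ Icc 0 (√B) := ⟨Real.sqrt_nonneg _, Real.sqrt_le_sqrt hX.2.le⟩
  obtain ⟨b1, b2, b3, b4, b5, b6, b7, b8⟩ := hb _ ht
  exact om_le hc b1 b2 b4 b7 b8 hY

/-- the function of `X = t²` -/
noncomputable def Gx (g : ℝ → ℝ) (X : ℝ) : ℝ := g (√X) / √X

lemma Gx_meas {g : ℝ → ℝ} (hg : Continuous g) : Measurable (Gx g) := by
  have := hg.measurable
  unfold Gx
  fun_prop

lemma Gx_GOK {g : ℝ → ℝ} (hg : Continuous g) (B : ℝ) : ∃ C, 0 ≤ C ∧ GOK B C (Gx g) := by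
  obtain ⟨C, hC⟩ := (isCompact_Icc (a := 0) (b := √B)).exists_bound_of_continuousOn
    hg.continuousOn
  refine ⟨max C 0, le_max_right _ _, (Gx_meas hg).aestronglyMeasurable, fun X hX => ?_⟩
  have ht : √X ∈ Icc 0 (√B) := ⟨Real.sqrt_nonneg _, Real.sqrt_le_sqrt hX.2.le⟩
  unfold Gx
  rw [abs_div, abs_of_nonneg (Real.sqrt_nonneg X)]
  gcongr
  exact (hC _ ht).trans (le_max_left _ _)

lemma cp_ge {t : ℝ} (hh : 1 < h) (ht0 : 0 < t) : t / (h + 1) ≤ cp h t := by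
  have h0 := h2_pos hh
  unfold cp
  rw [div_le_div_iff₀ (by linarith) h0]
  have h1 : √(t ^ 2 - h ^ 2 + 1) ≤ t := by
    rw [Real.sqrt_le_left ht0.le]
    linarith
  nlinarith [mul_le_mul_of_nonneg_left h1 (by linarith : (0:ℝ) ≤ h + 1)]

/-- the function to which Cormack's relations are applied -/
noncomputable def hX (h : ℝ) (g : ℝ → ℝ) (X : ℝ) : ℝ := 1 / cp h (√X) ^ 3 * Gx g X

lemma hX_int (H : IsProf h tc ψ) {g : ℝ → ℝ} (hg : Continuous g) (hl : LinGrowth g) :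
    IntegrableOn (fun X => hX h g X / √X) (Ioi (tc ^ 2)) := by
  obtain ⟨C, hC⟩ := hl
  have hC0 : 0 ≤ C := by
    have := hC 0
    simp at this
    exact (abs_nonneg _).trans this
  have htc := H.tc_pos
  have hh := H.one_lt
  have h2 : IntegrableOn (fun X : ℝ => X ^ (-2 : ℝ)) (Ioi (tc ^ 2)) :=
    integrableOn_Ioi_rpow_of_lt (by norm_num) (by positivity)
  refine Integrable.mono' (h2.const_mul ((h + 1) ^ 3 * (C * (1 + 1 / tc)))) ?_ ?_
  · have h1 := Gx_meas hg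
    have : Measurable fun X => hX h g X / √X := by
      unfold hX cp
      fun_prop
    exact this.aestronglyMeasurable
  · filter_upwards [ae_restrict_mem measurableSet_Ioi] with X hX'
    have hX1 : tc ^ 2 < X := hX'
    have hX0 : 0 < X := lt_of_le_of_lt (sq_nonneg tc) hX1
    have ht : tc < √X := (Real.lt_sqrt htc.le).2 hX1
    have ht0 : 0 < √X := htc.trans ht
    have hsq : √X ^ 2 = X := Real.sq_sqrt hX0.le
    have hcp := cp_ge hh ht0
    have hcpp := cp_pos hh ht0 (prof_rad H ht.le)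
    have hcp0 : 0 < √X / (h + 1) := by positivity
    have hG : |Gx g X| ≤ C * (1 + 1 / tc) := by
      unfold Gx
      rw [abs_div, abs_of_pos ht0, div_le_iff₀ ht0]
      refine (hC _).trans ?_
      rw [abs_of_pos ht0]
      have : 1 ≤ 1 / tc * √X := by
        rw [div_mul_eq_mul_div, one_mul, one_le_div htc]
        exact ht.le
      have h3 : 1 + √X ≤ (1 + 1 / tc) * √X := by linarith
      calc C * (1 + √X) ≤ C * ((1 + 1 / tc) * √X) := by gcongr
        _ = _ := by ring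
    unfold hX
    rw [Real.norm_eq_abs, abs_div, abs_mul, abs_of_pos ht0,
      abs_of_pos (by positivity : 0 < 1 / cp h (√X) ^ 3)]
    calc 1 / cp h (√X) ^ 3 * |Gx g X| / √X
        ≤ 1 / (√X / (h + 1)) ^ 3 * (C * (1 + 1 / tc)) / √X := by gcongr
      _ = (h + 1) ^ 3 * (C * (1 + 1 / tc)) / (√X ^ 2) ^ 2 := by
          field_simp
      _ = (h + 1) ^ 3 * (C * (1 + 1 / tc)) * X ^ (-2 : ℝ) := by
          rw [hsq, Real.rpow_neg hX0.le]
          norm_num
          ring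

end Pool.Agent.Lib.MP_85963d_gt.H70
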