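import Pool.Agent.Lib.MP_85963d_gt.H70.Fin4
import Pool.Agent.Lib.MP_85963d_gt.H87.AB8
import Pool.Agent.Lib.MP_85963d_gt.H31.NonSm
import Pool.Agent.Lib.MP_85963d_gt.H55.PdWt

/-!
# MP_85963d_gt: `Sign1DStatement` holds (helpers 31, 87, 70, 55, 84)
-/

set_option autoImplicit false

open MeasureTheory Set Filter Topology Real

namespace Pool.Agent.Lib.MP_85963d_gt.H70

open Pool.Agent.MP85963d

theorem datTendsto_holds : DatTendstoStatement := by
  intro b c C δ x p₀ α β P Q S K G pn Pn Qn Sn Kn Gn ε hb hc hs hx h hn d dn hε e0 e1 e2 e3 e4 e5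
  exact H87.Dat.tendsto hb hc hs hx h hn d dn hε e0 e1 e2 e3 e4 e5

theorem sign1d_holds : Sign1DStatement :=
  sign1d_of datTendsto_holds (H31.nonsmooth_of H55.pdwt_holds) H87.van

end Pool.Agent.Lib.MP_85963d_gt.H70
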