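import Pool.Agent.Lib.MP_85963d_gt.H70.Cap

/-!
# MP_85963d_gt: smoothing of the capsule (10.7)
-/

set_option autoImplicit false

open MeasureTheory Set Filter Topology Real
open scoped ContDiff

namespace Pool.Agent.Lib.MP_85963d_gt.H70

/-- antiderivatives of smooth functions -/
lemma contDiff_int {f : ℝ → ℝ} (hf : ContDiff ℝ ∞ f) :
    ContDiff ℝ ∞ (fun t => ∫ u in (0:ℝ)..t, f u) := by
  have hd : ∀ t, HasDerivAt (fun t => ∫ u in (0:ℝ)..t, f u) (f t) t := fun t =>
    intervalIntegral.integral_hasDerivAt_right (hf.continuous.intervalIntegrable _ _)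
      (hf.continuous.stronglyMeasurableAtFilter _ _) hf.continuous.continuousAt
  rw [contDiff_infty_iff_deriv]
  refine ⟨fun t => (hd t).differentiableAt, ?_⟩
  have : deriv (fun t => ∫ u in (0:ℝ)..t, f u) = f := by
    ext t
    exact (hd t).deriv
  rw [this]
  exact hf

/-- first antiderivative -/
noncomputable def Qi (κ : ℝ → ℝ) (t : ℝ) : ℝ := ∫ u in (0:ℝ)..t, κ u

/-- the profile with second derivative `κ` which has the value `v` at `tc` -/
noncomputable def Pi' (v tc : ℝ) (κ : ℝ → ℝ) (t : ℝ) : ℝ :=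
  (v - ∫ u in (0:ℝ)..tc, Qi κ u) + ∫ u in (0:ℝ)..t, Qi κ u

/-- the smooth step -/
noncomputable def chi (tj δ t : ℝ) : ℝ := Real.smoothTransition ((t - tj) / δ)

lemma chi_nonneg (tj δ t : ℝ) : 0 ≤ chi tj δ t := Real.smoothTransition.nonneg _

lemma chi_le_one (tj δ t : ℝ) : chi tj δ t ≤ 1 := Real.smoothTransition.le_one _

lemma chi_zero {tj δ t : ℝ} (hδ : 0 < δ) (ht : t ≤ tj) : chi tj δ t = 0 :=
  Real.smoothTransition.zero_of_nonpos (div_nonpos_of_nonpos_of_nonneg (by linarith) hδ.le)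

lemma chi_one {tj δ t : ℝ} (hδ : 0 < δ) (ht : tj + δ ≤ t) : chi tj δ t = 1 :=
  Real.smoothTransition.one_of_one_le ((one_le_div hδ).2 (by linarith))

lemma contDiff_chi (tj δ : ℝ) : ContDiff ℝ ∞ (chi tj δ) := by
  unfold chi
  exact Real.smoothTransition.contDiff.comp ((contDiff_id.sub contDiff_const).div_const δ)

/-- the constant near the equator -/
noncomputable def gam (h tj tc δ : ℝ) : ℝ :=
  (∫ t in tj..tc, cp2 h t * (1 - chi tj δ t)) / ∫ t in (0:ℝ)..tc, (1 - chi tj δ t)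

/-- half of the second derivative -/
noncomputable def kk (h tj tc c0 δ : ℝ) (φ : ℝ → ℝ) (t : ℝ) : ℝ :=
  c0 * φ t + chi tj δ t * (cp2 h t - gam h tj tc δ)

/-- the second derivative of the smoothed profile -/
noncomputable def kap (h tj tc c0 δ : ℝ) (φ : ℝ → ℝ) (t : ℝ) : ℝ :=
  kk h tj tc c0 δ φ t + kk h tj tc c0 δ φ (-t) + gam h tj tc δ

/-- the data of a capsule -/
structure SmD (h tj tc a b c0 : ℝ) (φ : ℝ → ℝ) : Prop where
  hh : 1 < h
  ha : 0 < a
  hab : a < b
  hbj : b < tj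
  hjc : tj < tc
  hc0 : 0 < c0
  hy : 0 < tj ^ 2 - h ^ 2 + 1
  sm : ContDiff ℝ ∞ φ
  nn : ∀ t, 0 ≤ φ t
  sp : ∀ t, t ∉ Icc a b → φ t = 0
  mass : c0 * ∫ t, φ t = cp1 h tj

variable {h tj tc a b c0 δ : ℝ} {φ : ℝ → ℝ}

namespace SmD

variable (H : SmD h tj tc a b c0 φ)

include H

lemma tj_pos : 0 < tj := H.ha.trans (H.hab.trans H.hbj)

lemma tc_pos : 0 < tc := H.tj_pos.trans H.hjc

lemma rad_pos {t : ℝ} (ht : tj ≤ t) : 0 < t ^ 2 - h ^ 2 + 1 := by
  have := H.hy
  have := H.tj_pos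
  nlinarith

lemma contDiffAt_cp2 {t : ℝ} (ht : tj ≤ t) : ContDiffAt ℝ ∞ (cp2 h) t := by
  have hr := H.rad_pos ht
  have hs : 0 < √(t ^ 2 - h ^ 2 + 1) := Real.sqrt_pos.2 hr
  have h1 : ContDiffAt ℝ ∞ (fun t : ℝ => t ^ 2 - h ^ 2 + 1) t :=
    ((contDiffAt_id.pow 2).sub contDiffAt_const).add contDiffAt_const
  have h2 : ContDiffAt ℝ ∞ (fun t : ℝ => √(t ^ 2 - h ^ 2 + 1) ^ 3) t := (h1.sqrt hr.ne').pow 3
  exact contDiffAt_const.div h2 (by positivity)

lemma continuousOn_cp2 : ContinuousOn (cp2 h) (Ici tj) := fun _ ht =>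
  (H.contDiffAt_cp2 ht).continuousAt.continuousWithinAt

lemma contDiff_kk (hδ : 0 < δ) : ContDiff ℝ ∞ (kk h tj tc c0 δ φ) := by
  unfold kk
  apply (contDiff_const.mul H.sm).add
  rw [contDiff_iff_contDiffAt]
  intro t
  rcases lt_or_ge t tj with ht | ht
  · have : (fun t => chi tj δ t * (cp2 h t - gam h tj tc δ)) =ᶠ[𝓝 t] fun _ => 0 := by
      filter_upwards [Iio_mem_nhds ht] with s hs
      rw [chi_zero hδ (le_of_lt hs), zero_mul]
    exact contDiffAt_const.congr_of_eventuallyEq this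
  · exact (contDiff_chi tj δ).contDiffAt.mul ((H.contDiffAt_cp2 ht).sub contDiffAt_const)

lemma contDiff_kap (hδ : 0 < δ) : ContDiff ℝ ∞ (kap h tj tc c0 δ φ) := by
  unfold kap
  exact ((H.contDiff_kk hδ).add ((H.contDiff_kk hδ).comp contDiff_neg)).add contDiff_const

omit H in
lemma kap_even (t : ℝ) : kap h tj tc c0 δ φ (-t) = kap h tj tc c0 δ φ t := by
  unfold kap
  rw [neg_neg]
  ring

lemma kk_zero (hδ : 0 < δ) {t : ℝ} (ht : t < a) : kk h tj tc c0 δ φ t = 0 := by
  unfold kk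
  rw [chi_zero hδ (ht.le.trans (H.hab.trans H.hbj).le), H.sp t (fun h => absurd h.1 (not_le.2 ht))]
  ring

/-- for `t ≥ 0` -/
lemma kap_eq (hδ : 0 < δ) {t : ℝ} (ht : 0 ≤ t) : kap h tj tc c0 δ φ t =
    c0 * φ t + chi tj δ t * cp2 h t + (1 - chi tj δ t) * gam h tj tc δ := by
  unfold kap
  rw [H.kk_zero hδ (by linarith [H.ha] : -t < a)]
  unfold kk
  ring

omit H in
lemma continuous_one_sub_chi : Continuous fun t => 1 - chi tj δ t :=
  continuous_const.sub (contDiff_chi tj δ).continuous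

lemma int_chi_pos (hδ : 0 < δ) : 0 < ∫ t in (0:ℝ)..tc, (1 - chi tj δ t) := by
  apply intervalIntegral.integral_pos H.tc_pos continuous_one_sub_chi.continuousOn
  · intro x _
    linarith [chi_le_one tj δ x]
  · refine ⟨0, ⟨le_rfl, H.tc_pos.le⟩, ?_⟩
    rw [chi_zero hδ H.tj_pos.le]
    norm_num

lemma num_continuousOn : ContinuousOn (fun t => cp2 h t * (1 - chi tj δ t)) (Icc tj tc) :=
  (H.continuousOn_cp2.mono Icc_subset_Ici_self).mul continuous_one_sub_chi.continuousOn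

lemma gam_pos (hδ : 0 < δ) : 0 < gam h tj tc δ := by
  apply div_pos _ (H.int_chi_pos hδ)
  apply intervalIntegral.integral_pos H.hjc H.num_continuousOn
  · intro x hx
    have := cp2_pos (H.rad_pos hx.1.le)
    have := chi_le_one tj δ x
    have : 0 ≤ 1 - chi tj δ x := by linarith
    positivity
  · refine ⟨tj, ⟨le_rfl, H.hjc.le⟩, ?_⟩
    rw [chi_zero hδ le_rfl]
    have := cp2_pos (H.rad_pos le_rfl)
    linarith

lemma kap_pos_of_nonneg (hδ : 0 < δ) {t : ℝ} (ht : 0 ≤ t) : 0 < kap h tj tc c0 δ φ t := by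
  rw [H.kap_eq hδ ht]
  have h1 : 0 ≤ c0 * φ t := mul_nonneg H.hc0.le (H.nn t)
  have h2 := H.gam_pos hδ
  have h3 := chi_nonneg tj δ t
  have h4 := chi_le_one tj δ t
  rcases le_total t tj with hle | hle
  · rw [chi_zero hδ hle]
    linarith
  · have h5 := cp2_pos (H.rad_pos hle)
    rcases eq_or_lt_of_le h3 with h6 | h6
    · rw [← h6]
      linarith
    · have : 0 < chi tj δ t * cp2 h t := by positivity
      have : 0 ≤ (1 - chi tj δ t) * gam h tj tc δ := mul_nonneg (by linarith) h2.le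
      linarith

lemma kap_pos (hδ : 0 < δ) (t : ℝ) : 0 < kap h tj tc c0 δ φ t := by
  rcases le_total 0 t with h | h
  · exact H.kap_pos_of_nonneg hδ h
  · rw [← kap_even]
    exact H.kap_pos_of_nonneg hδ (by linarith)

lemma kap_near (hδ : 0 < δ) {t : ℝ} (ht : 0 ≤ t) (hta : t < a) :
    kap h tj tc c0 δ φ t = gam h tj tc δ := by
  rw [H.kap_eq hδ ht, H.sp t (fun h => absurd h.1 (not_le.2 hta)),
    chi_zero hδ (hta.le.trans (H.hab.trans H.hbj).le)]
  ring

lemma kap_far (hδ : 0 < δ) {t : ℝ} (ht : tj + δ ≤ t) : kap h tj tc c0 δ φ t = cp2 h t := by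
  have h1 := H.tj_pos
  rw [H.kap_eq hδ (by linarith), chi_one hδ ht,
    H.sp t (fun h => absurd h.2 (not_le.2 (H.hbj.trans_le (by linarith))))]
  ring

lemma contDiff_chi_cp2 (hδ : 0 < δ) : ContDiff ℝ ∞ (fun t => chi tj δ t * cp2 h t) := by
  rw [contDiff_iff_contDiffAt]
  intro t
  rcases lt_or_ge t tj with ht | ht
  · have : (fun t => chi tj δ t * cp2 h t) =ᶠ[𝓝 t] fun _ => 0 := by
      filter_upwards [Iio_mem_nhds ht] with s hs
      rw [chi_zero hδ (le_of_lt hs), zero_mul]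
    exact contDiffAt_const.congr_of_eventuallyEq this
  · exact (contDiff_chi tj δ).contDiffAt.mul (H.contDiffAt_cp2 ht)

lemma int_cp2 {s t : ℝ} (hs : tj ≤ s) (hst : s ≤ t) :
    ∫ u in s..t, cp2 h u = cp1 h t - cp1 h s := by
  apply intervalIntegral.integral_eq_sub_of_hasDerivAt
  · intro u hu
    rw [uIcc_of_le hst] at hu
    exact cp1_hasDerivAt H.hh (H.rad_pos (hs.trans hu.1))
  · apply ContinuousOn.intervalIntegrable
    rw [uIcc_of_le hst]
    exact H.continuousOn_cp2.mono fun u hu => hs.trans hu.1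

lemma int_cp1 {s t : ℝ} (hs : tj ≤ s) (hst : s ≤ t) :
    ∫ u in s..t, cp1 h u = cp h t - cp h s := by
  apply intervalIntegral.integral_eq_sub_of_hasDerivAt
  · intro u hu
    rw [uIcc_of_le hst] at hu
    exact cp_hasDerivAt H.hh (H.rad_pos (hs.trans hu.1))
  · apply ContinuousOn.intervalIntegrable
    rw [uIcc_of_le hst]
    intro u hu
    exact (cp1_hasDerivAt H.hh (H.rad_pos (hs.trans hu.1))).continuousAt.continuousWithinAt

lemma int_phi {t : ℝ} (ht : b ≤ t) : ∫ u in (0:ℝ)..t, φ u = ∫ u, φ u := by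
  have h0 : 0 ≤ t := (H.ha.trans H.hab).le.trans ht
  rw [intervalIntegral.integral_of_le h0]
  apply setIntegral_eq_integral_of_forall_compl_eq_zero
  intro x hx
  apply H.sp
  intro h1
  apply hx
  exact ⟨H.ha.trans_le h1.1, h1.2.trans ht⟩

lemma mass_kap (hδ : 0 < δ) : Qi (kap h tj tc c0 δ φ) tc = cp1 h tc := by
  unfold Qi
  have hc := H.tc_pos
  have e : ∫ u in (0:ℝ)..tc, kap h tj tc c0 δ φ u =
      ∫ u in (0:ℝ)..tc, (c0 * φ u + chi tj δ u * cp2 h u + (1 - chi tj δ u) * gam h tj tc δ) := by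
    apply intervalIntegral.integral_congr
    intro u hu
    rw [uIcc_of_le hc.le] at hu
    exact H.kap_eq hδ hu.1
  have i1 : IntervalIntegrable (fun u => c0 * φ u) volume 0 tc :=
    (continuous_const.mul H.sm.continuous).intervalIntegrable _ _
  have i2 : ∀ s t, IntervalIntegrable (fun u => chi tj δ u * cp2 h u) volume s t := fun s t =>
    (H.contDiff_chi_cp2 hδ).continuous.intervalIntegrable _ _
  have i3 : IntervalIntegrable (fun u => (1 - chi tj δ u) * gam h tj tc δ) volume 0 tc :=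
    (continuous_one_sub_chi.mul continuous_const).intervalIntegrable _ _
  rw [e, intervalIntegral.integral_add (i1.add (i2 _ _)) i3,
    intervalIntegral.integral_add i1 (i2 _ _), intervalIntegral.integral_const_mul,
    intervalIntegral.integral_mul_const, H.int_phi (H.hbj.trans H.hjc).le, H.mass]
  have e2 : ∫ u in (0:ℝ)..tc, chi tj δ u * cp2 h u = ∫ u in tj..tc, chi tj δ u * cp2 h u := by
    rw [← intervalIntegral.integral_add_adjacent_intervals (i2 0 tj) (i2 tj tc)]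
    have : ∫ u in (0:ℝ)..tj, chi tj δ u * cp2 h u = 0 := by
      rw [intervalIntegral.integral_congr (g := fun _ => 0)]
      · simp
      · intro u hu
        rw [uIcc_of_le H.tj_pos.le] at hu
        simp only
        rw [chi_zero hδ hu.2, zero_mul]
    rw [this, zero_add]
  have e3 : (∫ u in (0:ℝ)..tc, (1 - chi tj δ u)) * gam h tj tc δ =
      ∫ t in tj..tc, cp2 h t * (1 - chi tj δ t) := by
    unfold gam
    have := (H.int_chi_pos hδ).ne'
    field_simp
  have i4 : IntervalIntegrable (fun t => cp2 h t * (1 - chi tj δ t)) volume tj tc := by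
    apply ContinuousOn.intervalIntegrable
    rw [uIcc_of_le H.hjc.le]
    exact H.num_continuousOn
  rw [e2, e3, add_assoc, ← intervalIntegral.integral_add (i2 _ _) i4]
  have e4 : ∫ u in tj..tc, (chi tj δ u * cp2 h u + cp2 h u * (1 - chi tj δ u)) =
      ∫ u in tj..tc, cp2 h u := by
    apply intervalIntegral.integral_congr
    intro u _
    simp only
    ring
  rw [e4, H.int_cp2 le_rfl H.hjc.le]
  ring

/-- the smoothed profile -/
noncomputable def _root_.Pool.Agent.Lib.MP_85963d_gt.H70.psm (h tj tc c0 δ : ℝ) (φ : ℝ → ℝ) :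
    ℝ → ℝ := Pi' (cp h tc) tc (kap h tj tc c0 δ φ)

lemma contDiff_Qi (hδ : 0 < δ) : ContDiff ℝ ∞ (Qi (kap h tj tc c0 δ φ)) :=
  contDiff_int (H.contDiff_kap hδ)

lemma hasDerivAt_Qi (hδ : 0 < δ) (t : ℝ) :
    HasDerivAt (Qi (kap h tj tc c0 δ φ)) (kap h tj tc c0 δ φ t) t :=
  intervalIntegral.integral_hasDerivAt_right ((H.contDiff_kap hδ).continuous.intervalIntegrable _ _)
      ((H.contDiff_kap hδ).continuous.stronglyMeasurableAtFilter _ _)
      (H.contDiff_kap hδ).continuous.continuousAt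

lemma contDiff_psm (hδ : 0 < δ) : ContDiff ℝ ∞ (psm h tj tc c0 δ φ) :=
  contDiff_const.add (contDiff_int (H.contDiff_Qi hδ))

lemma hasDerivAt_psm (hδ : 0 < δ) (t : ℝ) :
    HasDerivAt (psm h tj tc c0 δ φ) (Qi (kap h tj tc c0 δ φ) t) t :=
  (intervalIntegral.integral_hasDerivAt_right ((H.contDiff_Qi hδ).continuous.intervalIntegrable _ _)
      ((H.contDiff_Qi hδ).continuous.stronglyMeasurableAtFilter _ _)
      (H.contDiff_Qi hδ).continuous.continuousAt).const_add _

lemma deriv_psm (hδ : 0 < δ) : deriv (psm h tj tc c0 δ φ) = Qi (kap h tj tc c0 δ φ) := by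
  ext t
  exact (H.hasDerivAt_psm hδ t).deriv

lemma deriv2_psm (hδ : 0 < δ) : deriv (deriv (psm h tj tc c0 δ φ)) = kap h tj tc c0 δ φ := by
  rw [H.deriv_psm hδ]
  ext t
  exact (H.hasDerivAt_Qi hδ t).deriv

omit H in
lemma Qi_odd (t : ℝ) : Qi (kap h tj tc c0 δ φ) (-t) = -Qi (kap h tj tc c0 δ φ) t := by
  unfold Qi
  have h1 := intervalIntegral.integral_comp_neg (a := 0) (b := t) (kap h tj tc c0 δ φ)
  simp only [kap_even, neg_zero] at h1
  rw [h1, intervalIntegral.integral_symm (-t) 0]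

lemma psm_even (t : ℝ) : psm h tj tc c0 δ φ (-t) = psm h tj tc c0 δ φ t := by
  unfold psm Pi'
  congr 1
  have h1 := intervalIntegral.integral_comp_neg (a := 0) (b := t) (Qi (kap h tj tc c0 δ φ))
  simp only [Qi_odd, neg_zero, intervalIntegral.integral_neg] at h1
  rw [intervalIntegral.integral_symm (-t) 0, ← h1, neg_neg]

lemma Qi_far (hδ : 0 < δ) (hδc : tj + δ ≤ tc) {t : ℝ} (ht : tc ≤ t) :
    Qi (kap h tj tc c0 δ φ) t = cp1 h t := by
  have hk : ∀ s t, IntervalIntegrable (kap h tj tc c0 δ φ) volume s t := fun s t =>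
    (H.contDiff_kap hδ).continuous.intervalIntegrable _ _
  have h1 : Qi (kap h tj tc c0 δ φ) t =
      Qi (kap h tj tc c0 δ φ) tc + ∫ u in tc..t, kap h tj tc c0 δ φ u := by
    unfold Qi
    rw [intervalIntegral.integral_add_adjacent_intervals (hk _ _) (hk _ _)]
  have h2 : ∫ u in tc..t, kap h tj tc c0 δ φ u = ∫ u in tc..t, cp2 h u := by
    apply intervalIntegral.integral_congr
    intro u hu
    rw [uIcc_of_le ht] at hu
    exact H.kap_far hδ (hδc.trans hu.1)
  rw [h1, H.mass_kap hδ, h2, H.int_cp2 H.hjc.le ht]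
  ring

lemma psm_far (hδ : 0 < δ) (hδc : tj + δ ≤ tc) {t : ℝ} (ht : tc ≤ t) :
    psm h tj tc c0 δ φ t = cp h t := by
  have hk : ∀ s t, IntervalIntegrable (Qi (kap h tj tc c0 δ φ)) volume s t := fun s t =>
    (H.contDiff_Qi hδ).continuous.intervalIntegrable _ _
  unfold psm Pi'
  rw [← intervalIntegral.integral_add_adjacent_intervals (hk 0 tc) (hk tc t)]
  have h2 : ∫ u in tc..t, Qi (kap h tj tc c0 δ φ) u = ∫ u in tc..t, cp1 h u := by
    apply intervalIntegral.integral_congr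
    intro u hu
    rw [uIcc_of_le ht] at hu
    exact H.Qi_far hδ hδc hu.1
  rw [h2, H.int_cp1 H.hjc.le ht]
  ring

lemma S_anti (hδ : 0 < δ) : AntitoneOn (fun t => psm h tj tc c0 δ φ t -
    t * Qi (kap h tj tc c0 δ φ) t) (Ici 0) := by
  have hd : ∀ t, HasDerivAt (fun t => psm h tj tc c0 δ φ t - t * Qi (kap h tj tc c0 δ φ) t)
      (-(t * kap h tj tc c0 δ φ t)) t := by
    intro t
    refine ((H.hasDerivAt_psm hδ t).sub ((hasDerivAt_id t).mul (H.hasDerivAt_Qi hδ t))).congr_deriv ?_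
    simp
  apply antitoneOn_of_deriv_nonpos (convex_Ici 0)
  · exact fun t _ => (hd t).continuousAt.continuousWithinAt
  · exact fun t _ => (hd t).differentiableAt.differentiableWithinAt
  · intro t ht
    rw [interior_Ici] at ht
    rw [(hd t).deriv]
    have := H.kap_pos hδ t
    have : 0 < t := ht
    have : 0 < t * kap h tj tc c0 δ φ t := by positivity
    linarith

lemma S_pos (hδ : 0 < δ) (hδc : tj + δ ≤ tc) (t : ℝ) :
    0 < psm h tj tc c0 δ φ t - t * Qi (kap h tj tc c0 δ φ) t := by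
  wlog ht : 0 ≤ t with hw
  · have := hw H hδ hδc (-t) (by linarith)
    rwa [H.psm_even, Qi_odd, neg_mul_neg] at this
  have h1 := H.S_anti hδ (mem_Ici.2 ht) (mem_Ici.2 (ht.trans (le_max_left t tc)))
    (le_max_left t tc)
  simp only at h1
  have hm : tc ≤ max t tc := le_max_right _ _
  rw [H.psm_far hδ hδc hm, H.Qi_far hδ hδc hm] at h1
  have hr := H.rad_pos (H.hjc.le.trans hm)
  rw [cpS_eq H.hh hr] at h1
  exact (cpS_pos hr).trans_le h1

end SmD

end Pool.Agent.Lib.MP_85963d_gt.H70
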