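import Pool.Agent.Lib.MP_85963d_gt.H70.Forms4
import Pool.Agent.Lib.MP_85963d_gt.H70.Limit

/-!
# MP_85963d_gt: comparison of the weights of two profiles
-/

set_option autoImplicit false

open MeasureTheory Set Filter Topology Real

namespace Pool.Agent.Lib.MP_85963d_gt.H70

/-- Lipschitz dependence of the weight on the profile data -/
theorem wdiff (hL : WLipStatement) {T c C : ℝ} (hc : 0 < c) (hC : 0 ≤ C) :
    ∃ L : ℝ, 0 ≤ L ∧ ∀ (P Q S K P' Q' S' K' κ : ℝ → ℝ) (ε : ℝ), PD T c C P Q S K →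
      PD T c C P' Q' S' K' → 0 ≤ ε →
      (∀ t ∈ Ioc 0 T, |P t - P' t| ≤ ε * t ^ 2 ∧ |S t - S' t| ≤ ε * t ^ 2 ∧
        |Q t ^ 2 - Q' t ^ 2| ≤ ε ∧ |K t - K' t| ≤ κ t) →
      ∀ X Y, 0 < X → 0 ≤ Y → X + Y ≤ T ^ 2 → 0 < T →
        |om P Q S K X Y - om P' Q' S' K' X Y| ≤ (X + Y) * (L * (ε + κ (√X))) ∧
        |om' P Q S K X Y - om' P' Q' S' K' X Y| ≤ L * (ε + κ (√X)) ∧
        |om P Q S K X 0 - om P' Q' S' K' X 0| ≤ X * (L * ε) := by
  obtain ⟨_, hL2⟩ := hL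
  obtain ⟨L, hL0, _, hL3⟩ := hL2 c C (T ^ 2) hc hC (sq_nonneg T)
  refine ⟨L * (2 + 2 * T ^ 2), by positivity, ?_⟩
  intro P Q S K P' Q' S' K' κ ε h h' hε hd X Y hX hY hXY hT
  have ht : √X ∈ Ioc 0 T := by
    refine ⟨Real.sqrt_pos.2 hX, ?_⟩
    rw [Real.sqrt_le_left hT.le]
    linarith
  have hsq : √X ^ 2 = X := Real.sq_sqrt hX.le
  obtain ⟨d1, d2, d3, d4⟩ := hd _ ht
  rw [hsq] at d1 d2
  have hκ : 0 ≤ κ (√X) := (abs_nonneg _).trans d4
  have hXT : X ≤ T ^ 2 := by linarith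
  have hYT : Y ≤ T ^ 2 := by linarith
  obtain ⟨l1, l2⟩ := hL3 (P √X) (Q √X) (S √X) (K √X) (P' √X) (Q' √X) (S' √X) (K' √X) Y
    (h.bP _ ht).1 (h.bP _ ht).2 (h.bS _ ht).1 (h.bS _ ht).2 (h.bQ _ ht) (h.bK _ ht)
    (h'.bP _ ht).1 (h'.bP _ ht).2 (h'.bS _ ht).1 (h'.bS _ ht).2 (h'.bQ _ ht) (h'.bK _ ht) hY hYT
  obtain ⟨l3, _⟩ := hL3 (P √X) (Q √X) (S √X) (K √X) (P' √X) (Q' √X) (S' √X) (K' √X) 0
    (h.bP _ ht).1 (h.bP _ ht).2 (h.bS _ ht).1 (h.bS _ ht).2 (h.bQ _ ht) (h.bK _ ht)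
    (h'.bP _ ht).1 (h'.bP _ ht).2 (h'.bS _ ht).1 (h'.bS _ ht).2 (h'.bQ _ ht) (h'.bK _ ht) le_rfl
    (sq_nonneg T)
  have hT2 : 0 ≤ T ^ 2 := sq_nonneg T
  refine ⟨?_, ?_, ?_⟩
  · rw [om_eq_omn, om_eq_omn]
    refine l1.trans ?_
    calc L * (|P √X - P' √X| + |S √X - S' √X| + Y * (|K √X - K' √X| + |Q √X ^ 2 - Q' √X ^ 2|))
        ≤ L * (ε * X + ε * X + Y * (κ √X + ε)) := by gcongr
      _ ≤ L * ((X + Y) * (2 * (ε + κ √X))) := by
        gcongr
        have : 0 ≤ X * κ √X := by positivity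
        have : 0 ≤ Y * κ √X := by positivity
        have : 0 ≤ Y * ε := by positivity
        linarith
      _ ≤ (X + Y) * (L * (2 + 2 * T ^ 2) * (ε + κ √X)) := by
        have : 0 ≤ (X + Y) * (L * (2 * T ^ 2) * (ε + κ √X)) := by positivity
        linarith
  · refine l2.trans ?_
    calc L * (|P √X - P' √X| + |S √X - S' √X| + |Q √X ^ 2 - Q' √X ^ 2| + |K √X - K' √X|)
        ≤ L * (ε * T ^ 2 + ε * T ^ 2 + ε + κ √X) := by
          gcongr
          · exact d1.trans (by gcongr)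
          · exact d2.trans (by gcongr)
      _ ≤ L * (2 + 2 * T ^ 2) * (ε + κ √X) := by
        have e : L * (2 + 2 * T ^ 2) * (ε + κ √X) = L * (2 * ε + 2 * T ^ 2 * ε +
          (2 + 2 * T ^ 2) * κ √X) := by ring
        rw [e]
        apply mul_le_mul_of_nonneg_left _ hL0
        have : 0 ≤ T ^ 2 * κ √X := by positivity
        linarith
  · rw [om_eq_omn, om_eq_omn]
    refine l3.trans ?_
    rw [zero_mul, add_zero]
    calc L * (|P √X - P' √X| + |S √X - S' √X|) ≤ L * (ε * X + ε * X) := by gcongr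
      _ ≤ X * (L * (2 + 2 * T ^ 2) * ε) := by
        have : 0 ≤ X * (L * (2 * T ^ 2) * ε) := by positivity
        linarith

/-! ### profile data from `κ` -/

/-- `∫∫ κ` -/
noncomputable def PP (κ : ℝ → ℝ) (t : ℝ) : ℝ := ∫ u in (0:ℝ)..t, Qi κ u

/-- normalised data of `κ` with `ψ(0) = p` -/
noncomputable def nP (p : ℝ) (κ : ℝ → ℝ) (t : ℝ) : ℝ := 1 + PP κ t / p

/-- normalised `Q` -/
noncomputable def nQ (p : ℝ) (κ : ℝ → ℝ) (t : ℝ) : ℝ := Qi κ t / p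

/-- normalised `S` -/
noncomputable def nS (p : ℝ) (κ : ℝ → ℝ) (t : ℝ) : ℝ := 1 + (PP κ t - t * Qi κ t) / p

/-- normalised `K` -/
noncomputable def nK (p : ℝ) (κ : ℝ → ℝ) (t : ℝ) : ℝ := κ t / p

/-- admissible second derivatives: nonnegative, bounded -/
structure KB (Kb : ℝ) (κ : ℝ → ℝ) : Prop where
  meas : Measurable κ
  nn : ∀ t, 0 ≤ t → 0 ≤ κ t
  le : ∀ t, 0 ≤ t → κ t ≤ Kb
  int : ∀ s t, IntervalIntegrable κ volume s t

variable {Kb : ℝ} {κ : ℝ → ℝ}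

lemma KB.cont (h : KB Kb κ) : Continuous (Qi κ) := by
  unfold Qi
  exact intervalIntegral.continuous_primitive (fun a b => h.int a b) 0

lemma KB.contPP (h : KB Kb κ) : Continuous (PP κ) := by
  unfold PP
  exact intervalIntegral.continuous_primitive (fun a b => h.cont.intervalIntegrable a b) 0

lemma KB.Q_nonneg (h : KB Kb κ) {t : ℝ} (ht : 0 ≤ t) : 0 ≤ Qi κ t :=
  intervalIntegral.integral_nonneg ht fun u hu => h.nn u hu.1

lemma KB.Q_le (h : KB Kb κ) {t : ℝ} (ht : 0 ≤ t) : Qi κ t ≤ Kb * t := by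
  unfold Qi
  calc ∫ u in (0:ℝ)..t, κ u ≤ ∫ _u in (0:ℝ)..t, Kb :=
        intervalIntegral.integral_mono_on ht (h.int _ _) (by simp) fun u hu => h.le u hu.1
    _ = Kb * t := by simp; ring

lemma KB.PP_nonneg (h : KB Kb κ) {t : ℝ} (ht : 0 ≤ t) : 0 ≤ PP κ t :=
  intervalIntegral.integral_nonneg ht fun _ hu => h.Q_nonneg hu.1

lemma KB.Kb_nonneg (h : KB Kb κ) : 0 ≤ Kb := (h.nn 0 le_rfl).trans (h.le 0 le_rfl)

lemma KB.Q_mono (h : KB Kb κ) {s t : ℝ} (hs : 0 ≤ s) (hst : s ≤ t) : Qi κ s ≤ Qi κ t := by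
  have e : Qi κ t = Qi κ s + ∫ u in s..t, κ u := by
    unfold Qi
    rw [intervalIntegral.integral_add_adjacent_intervals (h.int _ _) (h.int _ _)]
  rw [e]
  have : 0 ≤ ∫ u in s..t, κ u := intervalIntegral.integral_nonneg hst fun u hu =>
    h.nn u (hs.trans hu.1)
  linarith

lemma KB.PP_le (h : KB Kb κ) {t : ℝ} (ht : 0 ≤ t) : PP κ t ≤ t * Qi κ t := by
  unfold PP
  calc ∫ u in (0:ℝ)..t, Qi κ u ≤ ∫ _u in (0:ℝ)..t, Qi κ t :=
        intervalIntegral.integral_mono_on ht (h.cont.intervalIntegrable _ _) (by simp)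
          fun u hu => h.Q_mono hu.1 hu.2
    _ = t * Qi κ t := by simp

lemma KB.PP_le2 (h : KB Kb κ) {t : ℝ} (ht : 0 ≤ t) : PP κ t ≤ Kb * t ^ 2 := by
  refine (h.PP_le ht).trans ?_
  have := h.Q_le ht
  nlinarith

/-- the data are of the class `PD` -/
lemma KB.pd (h : KB Kb κ) {T c p q : ℝ} (hq : 0 < q) (hqp : q ≤ p) (hc1 : c ≤ 1)
    (hS : ∀ t ∈ Ioc 0 T, c ≤ nS p κ t) :
    PD T c (1 + Kb / q * (1 + T + T ^ 2)) (nP p κ) (nQ p κ) (nS p κ) (nK p κ) := by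
  have hp : 0 < p := hq.trans_le hqp
  have hK := h.Kb_nonneg
  have hQc := h.cont
  have hPc := h.contPP
  have hdiv : ∀ x, 0 ≤ x → x / p ≤ x / q := fun x hx => by gcongr
  have hKq : 0 ≤ Kb / q := by positivity
  have hcS : Continuous (nS p κ) := by
    unfold nS
    fun_prop
  have hcP : Continuous (nP p κ) := by
    unfold nP
    fun_prop
  have hcQ : Continuous (nQ p κ) := by
    unfold nQ
    fun_prop
  have hmK : Measurable (nK p κ) := by
    have := h.meas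
    unfold nK
    fun_prop
  have hb : ∀ t ∈ Ioc 0 T, Kb / q * t ^ 2 ≤ Kb / q * (1 + T + T ^ 2) ∧
      Kb / q * t ≤ Kb / q * (1 + T + T ^ 2) ∧ Kb / q ≤ Kb / q * (1 + T + T ^ 2) := by
    intro t ht
    have h0 := ht.1
    have h1 := ht.2
    have hT : 0 < T := h0.trans_le h1
    refine ⟨?_, ?_, ?_⟩
    · gcongr
      nlinarith
    · gcongr
      nlinarith
    · apply le_mul_of_one_le_right hKq
      nlinarith
  have hPle : ∀ t ∈ Ioc 0 T, PP κ t / p ≤ Kb / q * t ^ 2 := by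
    intro t ht
    calc PP κ t / p ≤ PP κ t / q := hdiv _ (h.PP_nonneg ht.1.le)
      _ ≤ Kb * t ^ 2 / q := by
        gcongr
        exact h.PP_le2 ht.1.le
      _ = _ := by ring
  have hQle : ∀ t ∈ Ioc 0 T, Qi κ t / p ≤ Kb / q * t := by
    intro t ht
    calc Qi κ t / p ≤ Qi κ t / q := hdiv _ (h.Q_nonneg ht.1.le)
      _ ≤ Kb * t / q := by
        gcongr
        exact h.Q_le ht.1.le
      _ = _ := by ring
  have hP0 : ∀ t ∈ Ioc 0 T, 0 ≤ PP κ t / p := fun t ht =>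
    div_nonneg (h.PP_nonneg ht.1.le) hp.le
  have hS0 : ∀ t ∈ Ioc 0 T, -(Kb / q * t ^ 2) ≤ (PP κ t - t * Qi κ t) / p ∧
      (PP κ t - t * Qi κ t) / p ≤ 0 := by
    intro t ht
    have h1 := h.PP_le ht.1.le
    have h2 := hP0 t ht
    have h3 := hQle t ht
    constructor
    · rw [sub_div]
      have : t * Qi κ t / p ≤ Kb / q * t ^ 2 := by
        calc t * Qi κ t / p = t * (Qi κ t / p) := by ring
          _ ≤ t * (Kb / q * t) := by
            have := ht.1.le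
            gcongr
          _ = _ := by ring
      linarith
    · exact div_nonpos_of_nonpos_of_nonneg (by linarith) hp.le
  refine ⟨hcP.measurable, hcQ.measurable, hcS.measurable, hmK, hcP.continuousOn,
    hcS.continuousOn, ?_, ?_, ?_, ?_, ?_, ?_⟩
  · intro t ht
    have h1 := hPle t ht
    have h2 := hP0 t ht
    obtain ⟨b1, b2, b3⟩ := hb t ht
    unfold nP
    constructor <;> linarith
  · intro t ht
    refine ⟨hS t ht, ?_⟩
    obtain ⟨b1, b2, b3⟩ := hb t ht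
    have := (hS0 t ht).2
    unfold nS
    have : 0 ≤ Kb / q * (1 + T + T ^ 2) := hKq.trans b3
    linarith
  · intro t ht
    obtain ⟨b1, b2, b3⟩ := hb t ht
    have h1 := hQle t ht
    unfold nQ
    rw [abs_of_nonneg (div_nonneg (h.Q_nonneg ht.1.le) hp.le)]
    linarith
  · intro t ht
    obtain ⟨b1, b2, b3⟩ := hb t ht
    unfold nK
    rw [abs_of_nonneg (div_nonneg (h.nn t ht.1.le) hp.le)]
    have : κ t / p ≤ Kb / q := by
      calc κ t / p ≤ κ t / q := hdiv _ (h.nn t ht.1.le)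
        _ ≤ Kb / q := by
          gcongr
          exact h.le t ht.1.le
    linarith
  · intro t ht
    have h1 := hPle t ht
    have h2 := hP0 t ht
    have hT : 0 < T := ht.1.trans_le ht.2
    unfold nP
    rw [add_sub_cancel_left, abs_of_nonneg h2]
    refine h1.trans ?_
    gcongr
    have : Kb / q ≤ Kb / q * (1 + T + T ^ 2) := (hb t ht).2.2
    linarith
  · intro t ht
    obtain ⟨h1, h2⟩ := hS0 t ht
    unfold nS
    rw [add_sub_cancel_left, abs_of_nonpos h2]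
    have h3 : Kb / q * t ^ 2 ≤ (1 + Kb / q * (1 + T + T ^ 2)) * t ^ 2 := by
      gcongr
      have : Kb / q ≤ Kb / q * (1 + T + T ^ 2) := (hb t ht).2.2
      linarith
    linarith

end Pool.Agent.Lib.MP_85963d_gt.H70
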